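import Pool.Agent.PolyTime.Converse

/-!
# Decoding in polynomial time; languages of typed problems; NP through typed certificates
-/

namespace FP

open NPC Function

section
variable {α β γ δ σ : Type} [Code α] [Code β] [Code γ] [Code δ] [Code σ]

/-- The encoding as a plain bit string. -/
@[fun_prop]
theorem Poly.encode {f : α → β} (hf : Poly f) : Poly (fun a => (enc (f a) : List Bool)) :=
  Poly.rawBits (f := fun a => Raw.mk (enc (f a))) hf

theorem Poly.fstS {f : α → List Bool} (hf : Poly f) : Poly (fun a => fstS (f a)) := by
  have h1 : Poly (fun a => Raw.mk (f a)) := Poly.rawMk hf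
  exact Poly.rawBits (f := fun a => Raw.mk (FP.fstS (f a))) (F3.fstS h1)

theorem Poly.sndS {f : α → List Bool} (hf : Poly f) : Poly (fun a => sndS (f a)) := by
  have h1 : Poly (fun a => Raw.mk (f a)) := Poly.rawMk hf
  exact Poly.rawBits (f := fun a => Raw.mk (FP.sndS (f a))) (F3.sndS h1)

end

/-- Step of the parser: mode, reversed buffer, reversed output. -/
def itemStep (s : (Bool × List Bool) × List (List Bool)) (b : Bool) :
    (Bool × List Bool) × List (List Bool) :=
  bif s.1.1 then ((false, b :: s.1.2), s.2)
  else (bif b then ((true, s.1.2), s.2) else ((false, []), s.1.2.reverse :: s.2))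

/-- The items of a coded list. -/
def items (x : List Bool) : List (List Bool) :=
  (x.foldl itemStep ((false, []), [])).2.reverse

theorem foldl_itemStep_delim (x : List Bool) : ∀ (buf : List Bool) (out : List (List Bool)),
    (delim x).foldl itemStep ((false, buf), out) =
      ((false, []), (x.reverse ++ buf).reverse :: out) := by
  induction x with
  | nil => intro buf out; rfl
  | cons c x ih =>
    intro buf out
    rw [delim_cons, List.foldl_cons, List.foldl_cons]
    have : itemStep (itemStep ((false, buf), out) true) c = ((false, c :: buf), out) := rfl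
    rw [this, ih]
    simp

theorem foldl_itemStep_encL (L : List (List Bool)) : ∀ out : List (List Bool),
    (encL L).foldl itemStep ((false, []), out) = ((false, []), L.reverse ++ out) := by
  induction L with
  | nil => intro out; rfl
  | cons x L ih =>
    intro out
    rw [encL_cons, List.foldl_append, foldl_itemStep_delim, ih]
    simp

@[simp] theorem items_encL (L : List (List Bool)) : items (encL L) = L := by
  rw [items, foldl_itemStep_encL]; simp

theorem size_itemStep (s : (Bool × List Bool) × List (List Bool)) (b : Bool) :
    size (itemStep s b) ≤ size s + 10 := by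
  obtain ⟨⟨m, buf⟩, out⟩ := s
  cases m <;> cases b <;>
    simp only [itemStep, cond_false, cond_true, size_prod, size_cons, size_bool, size_nil,
      size_reverse] <;> omega

theorem poly_items : Poly items := by
  have hstep : Poly (fun p : (List Bool) × ((Bool × List Bool) × List (List Bool)) × Bool =>
      itemStep p.2.1 p.2.2) := by
    unfold itemStep
    fun_prop
  have h : Poly (fun x : List Bool => x.foldl itemStep ((false, []), [])) :=
    Poly.foldl_add (f := fun x : List Bool => x) (g := fun _ => ((false, []), []))
      (h := fun _ s b => itemStep s b) (by fun_prop) (by fun_prop) hstep 10 (by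
        intro a s b _
        simpa using size_itemStep s b)
  unfold items
  fun_prop

/-- Types whose encoding can be decoded by a total polynomial-time function. -/
class DCode (α : Type) extends Code α where
  dec : List Bool → α
  dec_enc : ∀ a, dec (enc a) = a
  poly_dec : Poly dec

export DCode (dec dec_enc)

@[fun_prop]
theorem Poly.decode {α β : Type} [Code α] [DCode β] {f : α → List Bool} (hf : Poly f) :
    Poly (fun a => (dec (f a) : β)) := DCode.poly_dec.comp hf

instance : DCode ℕ where
  dec := ofBits
  dec_enc := ofBits_bits
  poly_dec := by fun_prop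

instance : DCode Bool where
  dec := fun x => (x.head?).getD false
  dec_enc := fun b => by cases b <;> rfl
  poly_dec := by fun_prop

instance {α β : Type} [DCode α] [DCode β] : DCode (α × β) where
  dec := fun x => (dec (fstS x), dec (sndS x))
  dec_enc := fun p => by
    rw [enc_prod, fstS_prS, sndS_prS, dec_enc, dec_enc]
  poly_dec := Poly.pair (Poly.decode (Poly.fstS Poly.ident)) (Poly.decode (Poly.sndS Poly.ident))

instance {α : Type} [DCode α] : DCode (List α) where
  dec := fun x => (items x).map dec
  dec_enc := fun l => by
    rw [enc_list, items_encL, List.map_map]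
    conv_rhs => rw [← List.map_id l]
    apply List.map_congr_left
    intro b _
    exact dec_enc b
  poly_dec := Poly.map (g := fun _ x => dec x) poly_items (Poly.decode Poly.snd')

instance : DCode Raw where
  dec := Raw.mk
  dec_enc := fun r => by cases r; rfl
  poly_dec := by fun_prop

/-- The set of encodings of the yes-instances of a typed decision problem. -/
def lang {α : Type} [Code α] (p : α → Prop) : Set (List Bool) := {x | ∃ a, enc a = x ∧ p a}

theorem mem_lang_iff {α : Type} [DCode α] (p : α → Prop) (x : List Bool) :
    x ∈ lang p ↔ enc (dec x : α) = x ∧ p (dec x) := by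
  constructor
  · rintro ⟨a, rfl, ha⟩
    rw [dec_enc]
    exact ⟨rfl, ha⟩
  · rintro ⟨h1, h2⟩
    exact ⟨dec x, h1, h2⟩

@[simp] theorem enc_mem_lang {α : Type} [Code α] (p : α → Prop) (a : α) :
    enc a ∈ lang p ↔ p a :=
  ⟨fun ⟨b, hb, hp⟩ => by rw [Code.inj hb] at hp; exact hp, fun h => ⟨a, rfl, h⟩⟩

/-- The raw view of certificates in a language of NP. -/
theorem NP_elim {L : Set (List Bool)} (h : L ∈ NPC.NP) :
    ∃ (V : List Bool × List Bool → Bool) (P : Polynomial ℕ), Poly V ∧
      (∀ x w, V (x, w) = true → w.length ≤ P.eval x.length) ∧ ∀ x, x ∈ L ↔ ∃ w, V (x, w) = true := by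
  obtain ⟨V, P, h1, h2, h3⟩ := h
  exact ⟨V, P, poly_of_polyTime_pair h1, h2, h3⟩

theorem size_str (x : List Bool) : size x = 3 * x.length := by
  induction x with
  | nil => rfl
  | cons b x ih => rw [size_cons, size_bool, ih, List.length_cons]; ring

/-- NP through typed instances and certificates. -/
theorem mem_NP_lang {α β : Type} [DCode α] [DCode β] {p : α → Prop} (V : α × β → Bool)
    (hV : Poly V) (B : Polynomial ℕ) (hB : ∀ a c, V (a, c) = true → size c ≤ B.eval (size a))
    (h : ∀ a, p a ↔ ∃ c, V (a, c) = true) : lang p ∈ NPC.NP := by
  let W : List Bool × List Bool → Bool := fun q =>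
    decide (enc (dec q.1 : α) = q.1) && (decide (enc (dec q.2 : β) = q.2) && V (dec q.1, dec q.2))
  have hW : Poly W := by
    have h1 : Poly (fun q : List Bool × List Bool => V (dec q.1, dec q.2)) :=
      hV.comp (Poly.pair (Poly.decode Poly.fst') (Poly.decode Poly.snd'))
    have h2 : Poly (fun q : List Bool × List Bool => (enc (dec q.1 : α) : List Bool)) :=
      Poly.encode (Poly.decode Poly.fst')
    have h3 : Poly (fun q : List Bool × List Bool => (enc (dec q.2 : β) : List Bool)) :=
      Poly.encode (Poly.decode Poly.snd')
    exact Poly.and (Poly.decideEq h2 Poly.fst') (Poly.and (Poly.decideEq h3 Poly.snd') h1)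
  refine mem_NP W hW B ?_ ?_
  · intro x w hxw
    simp only [W, Bool.and_eq_true, decide_eq_true_eq] at hxw
    have := hB _ _ hxw.2.2
    unfold size at this
    rw [hxw.1, hxw.2.1] at this
    exact this
  · intro x
    rw [mem_lang_iff]
    constructor
    · rintro ⟨h1, h2⟩
      obtain ⟨c, hc⟩ := (h _).1 h2
      refine ⟨enc c, ?_⟩
      simp only [W, Bool.and_eq_true, decide_eq_true_eq]
      rw [dec_enc]
      exact ⟨h1, rfl, hc⟩
    · rintro ⟨w, hw⟩
      simp only [W, Bool.and_eq_true, decide_eq_true_eq] at hw
      exact ⟨hw.1, (h _).2 ⟨_, hw.2.2⟩⟩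

end FP
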