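import Pool.Agent.PolyTime.Ints

/-!
# From the function algebra to Mathlib's Turing machines
-/

namespace FP

open NPC Function

theorem st_one (x : List Sym) : update (fun _ : ℕ => ([] : List Sym)) 0 x = st [x] := by
  funext k
  match k with
  | 0 => rfl
  | k + 1 => rw [update_of_ne (by omega)]; rfl

theorem st_three (x : List Sym) :
    update (fun _ : ℕ => ([] : List Sym)) 3 x = st [[], [], [], x] := by
  funext k
  match k with
  | 0 => rfl
  | 1 => rfl
  | 2 => rfl
  | 3 => rfl
  | k + 4 => rw [update_of_ne (by omega)]; rfl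

/-- reset the register -/
def resetReg : Prog ℕ := .load (fun _ => (none, false))

theorem polyTime_of_F3 {α β : Type} (ea : α → Str) (eb : β → Str) (g : α → β)
    (h : F3 ea (fun _ => []) (fun _ => []) (fun a => eb (g a))) :
    NPC.PolyTime (fun a => encStr (ea a)) (fun b => encStr (eb b)) g := by
  obtain ⟨p, P, h⟩ := F3_iff.1 h
  refine polyTime_of_run _ _ _ (.seq p (.seq (clear 0) resetReg)) 0 3
    (P + 2 * Polynomial.X + 2) (fun a => ?_)
  obtain ⟨r1, c1, hc1, hr1⟩ := h a (none, false)
  obtain ⟨r2, c2, hc2, hr2⟩ := runs_clear 0 [e (ea a), [], [], e (eb (g a))] (by simp) r1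
  have k0 : List.getD [e (ea a), [], [], e (eb (g a))] 0 [] = e (ea a) := rfl
  rw [k0, encStr_length] at hc2
  have hr3 := Run.load (K := ℕ) (fun _ => (none, false)) r2
    (st ([e (ea a), [], [], e (eb (g a))].set 0 []))
  refine ⟨c1 + (c2 + 1), ?_, ?_⟩
  · simp only [encStr_length, Polynomial.eval_add, Polynomial.eval_mul, Polynomial.eval_X,
      Polynomial.eval_ofNat]
    simp only [List.length_nil, Nat.add_zero] at hc1
    omega
  · rw [st_one, st_three]
    have k1 : st [e (ea a)] = st [e (ea a), [], []] := (st_pad [e (ea a)] 2).symm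
    rw [k1]
    exact Run.seq hr1 (Run.seq hr2 hr3)

section
variable {α β γ : Type} [Code α] [Code β] [Code γ]

/-- A function in the algebra is computable in polynomial time by Mathlib's Turing machines. -/
theorem Poly.polyTime {f : α → β} (hf : Poly f) :
    NPC.PolyTime (fun a => encStr (enc a)) (fun b => encStr (enc b)) f :=
  polyTime_of_F3 _ _ _ hf

theorem F3.ofRaw {s : List Bool → Str} (h : F3 (fun l : List Bool => enc l) (fun _ => [])
    (fun _ => []) s) : F3 (fun l : List Bool => l) (fun _ => []) (fun _ => []) s := by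
  have h1 : F3 (fun l : List Bool => l) (fun _ => []) (fun _ => []) (fun l => enc l) :=
    (F3.bitItems F3.arg1).congr (fun l => by rw [enc_list]; rfl)
  exact F3.comp h1 F3.nil F3.nil h

/-- Input given as a plain bit string. -/
theorem Poly.polyTime_fromStr {f : List Bool → β} (hf : Poly f) :
    NPC.PolyTime encStr (fun b => encStr (enc b)) f :=
  polyTime_of_F3 (fun l => l) _ _ (F3.ofRaw hf)

/-- Output given as a plain bit string. -/
theorem Poly.polyTime_toStr {f : α → List Bool} (hf : Poly f) :
    NPC.PolyTime (fun a => encStr (enc a)) encStr f :=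
  polyTime_of_F3 _ (fun l => l) _ (Poly.rawMk hf)

/-- Input and output given as plain bit strings. -/
theorem Poly.polyTime_str {f : List Bool → List Bool} (hf : Poly f) :
    NPC.PolyTime encStr encStr f :=
  polyTime_of_F3 (fun l => l) (fun l => l) _ (F3.ofRaw (Poly.rawMk hf))

/-- A polynomial-time predicate on plain bit strings. -/
theorem PolyPred.polyTime_str {p : List Bool → Prop} [DecidablePred p] (hp : PolyPred p) :
    NPC.PolyTime encStr encBool (fun x => decide (p x)) :=
  polyTime_of_F3 (fun l => l) (fun b => [b]) _ (F3.ofRaw hp.dec)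

end

/-! ### Input given as a pair of strings `w # x` -/

/-- split `w # x` on stack `0` into `x` on stack `0` and `w` on stack `1` -/
def splitBody : Prog ℕ :=
  .ite (fun r => decide (r.1 = some none)) (.load (fun r => (r.1, true)))
    (.ite (fun r => r.2) (pushr 5) (pushr 4))

theorem runs_split_second (w' : List Sym) : ∀ (x : Str) (acc : List Sym) (o : Option Sym),
    ∃ c ≤ 4 * x.length + 1, Run (.whil 0 splitBody) (o, true) (st [e x, [], [], [], w', acc])
      (none, true) (st [[], [], [], [], w', (e x).reverse ++ acc]) c := by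
  intro x
  induction x with
  | nil =>
    intro acc o
    exact ⟨1, by simp, Run.whilE rfl⟩
  | cons b x ih =>
    intro acc o
    obtain ⟨c, hc, hr⟩ := ih (some b :: acc) (some (some b))
    have s1 := run_pushr (K := ℕ) 5 (some (some b), true) (st [e x, [], [], [], w', acc])
    rw [update_st _ _ _ (by simp)] at s1
    have s2 : Run splitBody (some (some b), true) (st [e x, [], [], [], w', acc])
        (some (some b), true) (st [e x, [], [], [], w', some b :: acc]) (1 + 1 + 1) :=
      Run.iteF (by rfl) (Run.iteT (by rfl) s1)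
    have k1 : update (st [e (b :: x), [], [], [], w', acc]) 0 (e x) =
        st [e x, [], [], [], w', acc] := update_st _ _ _ (by simp)
    refine ⟨(1 + 1 + 1) + c + 1, by rw [List.length_cons]; omega, ?_⟩
    have k2 : (e (b :: x)).reverse ++ acc = (e x).reverse ++ (some b :: acc) := by
      simp [encStr]
    rw [k2]
    refine Run.whilS (a := some b) (l := e x) rfl ?_ hr
    rw [k1]
    exact s2

theorem runs_split_first (x : Str) : ∀ (w : Str) (acc : List Sym) (o : Option Sym),
    ∃ c ≤ 4 * w.length + 4 * x.length + 4, Run (.whil 0 splitBody) (o, false)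
      (st [e w ++ none :: e x, [], [], [], acc, []])
      (none, true) (st [[], [], [], [], (e w).reverse ++ acc, (e x).reverse]) c := by
  intro w
  induction w with
  | nil =>
    intro acc o
    obtain ⟨c, hc, hr⟩ := runs_split_second acc x [] (some none)
    have s2 : Run splitBody (some none, false) (st [e x, [], [], [], acc, []])
        (some none, true) (st [e x, [], [], [], acc, []]) (1 + 1) :=
      Run.iteT (by rfl) (Run.load _ _ _)
    refine ⟨(1 + 1) + c + 1, by rw [List.length_nil]; omega, ?_⟩
    have k1 : update (st [e [] ++ none :: e x, [], [], [], acc, []]) 0 (e x) =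
        st [e x, [], [], [], acc, []] := update_st _ _ _ (by simp)
    rw [List.append_nil] at hr
    refine Run.whilS (a := none) (l := e x) rfl ?_ hr
    rw [k1]
    exact s2
  | cons b w ih =>
    intro acc o
    obtain ⟨c, hc, hr⟩ := ih (some b :: acc) (some (some b))
    have s1 := run_pushr (K := ℕ) 4 (some (some b), false)
      (st [e w ++ none :: e x, [], [], [], acc, []])
    rw [update_st _ _ _ (by simp)] at s1
    have s2 : Run splitBody (some (some b), false) (st [e w ++ none :: e x, [], [], [], acc, []])
        (some (some b), false) (st [e w ++ none :: e x, [], [], [], some b :: acc, []])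
        (1 + 1 + 1) :=
      Run.iteF (by rfl) (Run.iteF (by rfl) s1)
    have k1 : update (st [e (b :: w) ++ none :: e x, [], [], [], acc, []]) 0
        (e w ++ none :: e x) = st [e w ++ none :: e x, [], [], [], acc, []] :=
      update_st _ _ _ (by simp)
    refine ⟨(1 + 1 + 1) + c + 1, by rw [List.length_cons]; omega, ?_⟩
    have k2 : (e (b :: w)).reverse ++ acc = (e w).reverse ++ (some b :: acc) := by
      simp [encStr]
    rw [k2]
    refine Run.whilS (a := some b) (l := e w ++ none :: e x) rfl ?_ hr
    rw [k1]
    exact s2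

/-- the whole splitting program -/
def splitProg : Prog ℕ :=
  .seq resetReg (.seq (.whil 0 splitBody) (.seq (move 4 1) (move 5 0)))

theorem runs_splitProg (x w : Str) : Runs splitProg (st [e w ++ none :: e x])
    (st [e x, e w, []]) (6 * w.length + 6 * x.length + 7) := by
  intro r
  obtain ⟨c, hc, hr⟩ := runs_split_first x w [] none
  rw [List.append_nil] at hr
  have k0 : st [e w ++ none :: e x, [], [], [], [], []] = st [e w ++ none :: e x] :=
    st_pad [e w ++ none :: e x] 5
  rw [k0] at hr
  have s1 := runs_move 4 1 (by decide) [[], [], [], [], (e w).reverse, (e x).reverse]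
    (by simp) (by simp)
  have s2 := runs_move 5 0 (by decide) [[], e w, [], [], [], (e x).reverse] (by simp) (by simp)
  have k1 : List.getD [[], [], [], [], (e w).reverse, (e x).reverse] 4 [] = (e w).reverse := rfl
  have k2 : List.getD [[], [], [], [], (e w).reverse, (e x).reverse] 1 [] = [] := rfl
  have k3 : List.getD [[], e w, [], [], [], (e x).reverse] 5 [] = (e x).reverse := rfl
  have k4 : List.getD [[], e w, [], [], [], (e x).reverse] 0 [] = [] := rfl
  rw [k1, k2, List.reverse_reverse, List.append_nil, List.length_reverse, encStr_length] at s1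
  rw [k3, k4, List.reverse_reverse, List.append_nil, List.length_reverse, encStr_length] at s2
  obtain ⟨r', c', hc', hr'⟩ := (s1.seq s2) (none, true)
  have k5 : st [e x, e w, [], [], [], []] = st [e x, e w, []] := st_pad [e x, e w, []] 3
  refine ⟨r', 1 + (c + c'), by omega, Run.seq (Run.load _ _ _) (Run.seq hr ?_)⟩
  rw [← k5]
  exact hr'

/-- Functions of the pair `(x, w)`, written `w # x` (the encoding `NPC.encPair`). -/
theorem polyTime_of_F3_pair {β : Type} (eb : β → Str) (g : List Bool × List Bool → β)
    (h : F3 (fun p : List Bool × List Bool => p.1) (fun p => p.2) (fun _ => [])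
      (fun p => eb (g p))) :
    NPC.PolyTime encPair (fun b => encStr (eb b)) g := by
  obtain ⟨p, P, h⟩ := F3_iff.1 h
  refine polyTime_of_run _ _ _ (.seq splitProg (.seq p (.seq (clear 0) (.seq (clear 1)
    resetReg)))) 0 3 (P + 8 * Polynomial.X + 10) (fun q => ?_)
  obtain ⟨x, w⟩ := q
  obtain ⟨r0, c0, hc0, hr0⟩ := runs_splitProg x w (none, false)
  obtain ⟨r1, c1, hc1, hr1⟩ := h (x, w) r0
  obtain ⟨r2, c2, hc2, hr2⟩ := runs_clear 0 [e x, e w, [], e (eb (g (x, w)))] (by simp) r1
  obtain ⟨r3, c3, hc3, hr3⟩ := runs_clear 1 [[], e w, [], e (eb (g (x, w)))] (by simp) r2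
  have k0 : List.getD [e x, e w, [], e (eb (g (x, w)))] 0 [] = e x := rfl
  have k1 : List.getD [[], e w, [], e (eb (g (x, w)))] 1 [] = e w := rfl
  rw [k0, encStr_length] at hc2
  rw [k1, encStr_length] at hc3
  have hr4 := Run.load (K := ℕ) (fun _ => (none, false)) r3
    (st [[], [], [], e (eb (g (x, w)))])
  refine ⟨c0 + (c1 + (c2 + (c3 + 1))), ?_, ?_⟩
  · simp only [List.length_nil, Nat.add_zero] at hc1
    have k2 : (encPair (x, w)).length = x.length + w.length + 1 := by
      simp [encPair]; omega
    have k3 := eval_mono P (a := x.length + w.length) (b := x.length + w.length + 1) (by omega)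
    rw [k2]
    simp only [Polynomial.eval_add, Polynomial.eval_mul, Polynomial.eval_X,
      Polynomial.eval_ofNat]
    omega
  · rw [st_one, st_three]
    exact Run.seq hr0 (Run.seq hr1 (Run.seq hr2 (Run.seq hr3 hr4)))

/-- Functions of the pair `(x, w)`, written `w # x`. -/
theorem Poly.polyTime_pair {β : Type} [Code β] {g : List Bool × List Bool → β} (h : Poly g) :
    NPC.PolyTime encPair (fun b => encStr (enc b)) g := by
  refine polyTime_of_F3_pair _ g ?_
  have h1 : F3 (fun p : List Bool × List Bool => p.1) (fun p => p.2) (fun _ => [])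
      (fun p => enc p) :=
    F3.pr ((F3.bitItems F3.arg1).congr (fun l => by rw [enc_list]; rfl))
      ((F3.bitItems F3.arg2).congr (fun l => by rw [enc_list]; rfl))
  exact F3.comp h1 F3.nil F3.nil h

theorem Poly.polyTime_pair_bool {g : List Bool × List Bool → Bool} (h : Poly g) :
    NPC.PolyTime encPair encBool g := h.polyTime_pair

/-- Membership in NP by a polynomial-time verifier. -/
theorem mem_NP {L : Set (List Bool)} (V : List Bool × List Bool → Bool) (hV : Poly V)
    (p : Polynomial ℕ) (hp : ∀ x w, V (x, w) = true → w.length ≤ p.eval x.length)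
    (hL : ∀ x, x ∈ L ↔ ∃ w, V (x, w) = true) : L ∈ NPC.NP :=
  ⟨V, p, hV.polyTime_pair_bool, hp, hL⟩

/-- Polynomial-time many-one reductions. -/
theorem reduces {L L' : Set (List Bool)} (f : List Bool → List Bool) (hf : Poly f)
    (h : ∀ x, x ∈ L ↔ f x ∈ L') : NPC.Reduces L L' := ⟨f, hf.polyTime_str, h⟩

end FP
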