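import Pool.Agent.PolyTime.Interface

/-!
# Registration for `fun_prop`, domain-restricted versions, finite types
-/

namespace FP

open NPC Function

attribute [fun_prop] PolyPred PolyBdd
attribute [fun_prop] PolyBdd.const PolyBdd.add PolyBdd.mul PolyBdd.pow PolyBdd.sub
attribute [fun_prop] PolyBdd.length PolyBdd.size PolyBdd.comp
attribute [fun_prop] PolyPred.comp PolyPred.const PolyPred.dec
attribute [fun_prop] Poly.flatMap Poly.map Poly.filter Poly.any Poly.all Poly.filterMap Poly.range
attribute [fun_prop] Poly.subtypeVal Poly.ite Poly.countP Poly.zip Poly.replicate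
attribute [fun_prop] PolyPred.and PolyPred.or PolyPred.not PolyPred.eq PolyPred.lt PolyPred.le
attribute [fun_prop] PolyPred.intLt PolyPred.intLe PolyPred.ratLt PolyPred.ratLe PolyPred.mem
attribute [fun_prop] PolyPred.iff

section
variable {α β γ δ σ : Type} [Code α] [Code β] [Code γ] [Code δ] [Code σ]

@[fun_prop]
theorem Poly.powConst (n : ℕ) {f : α → ℕ} (hf : Poly f) : Poly (fun a => f a ^ n) := by
  induction n with
  | zero => simp only [pow_zero]; fun_prop
  | succ n ih => simp only [pow_succ]; fun_prop

@[fun_prop]
theorem Poly.intPowConst (n : ℕ) {f : α → ℤ} (hf : Poly f) : Poly (fun a => f a ^ n) := by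
  induction n with
  | zero => simp only [pow_zero]; fun_prop
  | succ n ih => simp only [pow_succ]; fun_prop

@[fun_prop]
theorem Poly.ratPowConst (n : ℕ) {f : α → ℚ} (hf : Poly f) : Poly (fun a => f a ^ n) := by
  induction n with
  | zero => simp only [pow_zero]; fun_prop
  | succ n ih => simp only [pow_succ]; fun_prop

/-! ### Domain-restricted loops and conditionals -/

/-- Loops in which the step only has to be polynomial-time on the states that are reached. -/
theorem Poly.foldl_reach {f : α → List β} {g : α → σ} {h : α → σ → β → σ} (hf : Poly f)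
    (hg : Poly g) (B : Polynomial ℕ)
    (hB : ∀ a, ∀ k ≤ (f a).length, size (((f a).take k).foldl (h a) (g a)) ≤ B.eval (size a))
    (hh : Poly (fun p : {p : α × σ × β // ∃ k, ∃ hk : k < (f p.1).length,
      p.2.1 = ((f p.1).take k).foldl (h p.1) (g p.1) ∧ p.2.2 = (f p.1)[k]} =>
      h p.1.1 p.1.2.1 p.1.2.2)) :
    Poly (fun a => (f a).foldl (h a) (g a)) := by
  have key := F3.foldItems (u := fun a => enc a) (v := fun _ => []) (L := fun a => (f a).map enc)
    (fun a k => enc (((f a).take k).foldl (h a) (g a)))
    (F3.comp F3.arg1 F3.nil F3.nil hg) B ?_ ?_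
  · simp only [List.length_map, List.take_length] at key
    exact F3.comp F3.arg1 F3.nil hf key
  · intro a k hk
    refine (hB a k (by simpa using hk)).trans (eval_mono B ?_)
    unfold size
    omega
  · have hlt : ∀ i : Σ a, Fin ((f a).map enc).length, (i.2 : ℕ) < (f i.1).length := fun i => by
      have := i.2.2
      simpa using this
    have h2 : F3 (fun p : {p : α × σ × β // ∃ k, ∃ hk : k < (f p.1).length,
      p.2.1 = ((f p.1).take k).foldl (h p.1) (g p.1) ∧ p.2.2 = (f p.1)[k]} => enc p.1.1)
      (fun p => enc p.1.2.1) (fun p => enc p.1.2.2) (fun p => enc (h p.1.1 p.1.2.1 p.1.2.2)) :=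
      F3.comp (F3.pr F3.arg1 (F3.pr F3.arg2 F3.arg3)) F3.nil F3.nil hh
    have h3 := h2.reindex (fun i : Σ a, Fin ((f a).map enc).length =>
      ⟨(i.1, ((f i.1).take i.2).foldl (h i.1) (g i.1), (f i.1)[(i.2 : ℕ)]'(hlt i)),
        i.2, hlt i, rfl, rfl⟩)
    have e : (fun i : Σ a, Fin ((f a).map enc).length => ((f i.1).map enc)[i.2]) =
        (fun i => enc ((f i.1)[(i.2 : ℕ)]'(hlt i))) := by
      funext i
      simp
    rw [e]
    refine h3.congr (fun i => ?_)
    simp only
    rw [List.take_succ_eq_append_getElem (hlt i), List.foldl_append]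
    rfl

theorem Poly.subtypeMap {p : α → Prop} {q : α → Prop} {F : {a // p a} → β}
    (h : Poly F) (hpq : ∀ a, q a → p a) : Poly (fun a : {a // q a} => F ⟨a.1, hpq a.1 a.2⟩) :=
  F3.reindex h (fun a : {a // q a} => (⟨a.1, hpq a.1 a.2⟩ : {a // p a}))

/-- Loops with an invariant `I` that bounds the size of the state; the step only has to be
polynomial-time when the invariant holds. -/
theorem Poly.foldl_inv {f : α → List β} {g : α → σ} {h : α → σ → β → σ} (I : α → σ → Prop)
    (hf : Poly f) (hg : Poly g) (h0 : ∀ a, I a (g a))
    (hI : ∀ a s, ∀ b ∈ f a, I a s → I a (h a s b)) (B : Polynomial ℕ)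
    (hB : ∀ a s, I a s → size s ≤ B.eval (size a))
    (hh : Poly (fun p : {p : α × σ × β // I p.1 p.2.1 ∧ p.2.2 ∈ f p.1} =>
      h p.1.1 p.1.2.1 p.1.2.2)) :
    Poly (fun a => (f a).foldl (h a) (g a)) := by
  have key : ∀ a k, I a (((f a).take k).foldl (h a) (g a)) := by
    intro a k
    have : ∀ (l : List β) (s : σ), (∀ b ∈ l, b ∈ f a) → I a s → I a (l.foldl (h a) s) := by
      intro l
      induction l with
      | nil => intro s _ hs; exact hs
      | cons b l ih =>
        intro s hl hs
        exact ih _ (fun c hc => hl c (List.mem_cons_of_mem _ hc))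
          (hI a s b (hl b List.mem_cons_self) hs)
    exact this _ _ (fun b hb => List.mem_of_mem_take hb) (h0 a)
  refine Poly.foldl_reach hf hg B (fun a k _ => hB a _ (key a k)) ?_
  refine Poly.subtypeMap (F := fun p : {p : α × σ × β // I p.1 p.2.1 ∧ p.2.2 ∈ f p.1} =>
      h p.1.1 p.1.2.1 p.1.2.2) hh ?_
  rintro ⟨a, s, b⟩ ⟨k, hk, h1, h2⟩
  simp only at h1 h2
  exact ⟨by rw [h1]; exact key a k, by rw [h2]; exact List.getElem_mem hk⟩

/-- `flatMap` where the body only has to be polynomial-time on members of the list. -/
theorem Poly.flatMap_mem {f : α → List β} {g : α → β → List γ} (hf : Poly f)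
    (hg : Poly (fun p : {p : α × β // p.2 ∈ f p.1} => g p.1.1 p.1.2)) :
    Poly (fun a => (f a).flatMap (g a)) := by
  obtain ⟨F, hF⟩ := hf.size_le
  obtain ⟨G, hG⟩ := hg.size_le
  have h1 : ∀ a, ∀ b ∈ f a, size (g a b) ≤ G.eval (2 * size a + 1 + F.eval (size a)) := by
    intro a b hb
    refine (hG ⟨(a, b), hb⟩).trans (eval_mono G ?_)
    have h2 : size (⟨(a, b), hb⟩ : {p : α × β // p.2 ∈ f p.1}) = 2 * size a + 1 + size b :=
      size_pair a b
    rw [h2]
    have := size_le_of_mem hb
    have := hF a
    omega
  have hfl : ∀ a, ∀ (l : List β) (s : List γ), l.foldl (fun s b => s ++ g a b) s =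
      s ++ l.flatMap (g a) := by
    intro a l
    induction l with
    | nil => intro s; simp
    | cons b l ih => intro s; rw [List.foldl_cons, ih, List.flatMap_cons, List.append_assoc]
  have hsz : ∀ a, ∀ (l : List β), (∀ b ∈ l, b ∈ f a) → size (l.flatMap (g a)) ≤
      l.length * G.eval (2 * size a + 1 + F.eval (size a)) := by
    intro a l
    induction l with
    | nil => intro _; simp [size_nil]
    | cons b l ih =>
      intro hl
      rw [List.flatMap_cons, size_append, List.length_cons]
      have := ih (fun c hc => hl c (List.mem_cons_of_mem _ hc))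
      have := h1 a b (hl b List.mem_cons_self)
      have e : (l.length + 1) * G.eval (2 * size a + 1 + F.eval (size a)) =
        l.length * G.eval (2 * size a + 1 + F.eval (size a)) +
          G.eval (2 * size a + 1 + F.eval (size a)) := by ring
      omega
  refine (Poly.foldl_reach (h := fun a s b => s ++ g a b) (g := fun _ => []) hf (Poly.const [])
    (F * G.comp (2 * Polynomial.X + 1 + F)) ?_ ?_).congr (fun a => ?_)
  · intro a k hk
    rw [hfl, List.nil_append]
    refine (hsz a _ (fun b hb => List.mem_of_mem_take hb)).trans ?_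
    simp only [Polynomial.eval_add, Polynomial.eval_mul, Polynomial.eval_X, Polynomial.eval_comp,
      Polynomial.eval_ofNat, Polynomial.eval_one]
    refine Nat.mul_le_mul_right _ ?_
    rw [List.length_take]
    exact (min_le_right _ _).trans ((length_le_size _).trans (hF a))
  · refine Poly.append (Poly.comp (g := fun p : α × List γ × β => p.2.1) (by fun_prop)
      (Poly.subtypeVal Poly.ident)) ?_
    have h3 : F3 (fun p : {p : α × List γ × β // p.2.2 ∈ f p.1} => enc p)
        (fun _ => []) (fun _ => []) (fun p => enc (g p.1.1 p.1.2.2)) := by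
      have h4 : Poly (fun p : {p : α × List γ × β // p.2.2 ∈ f p.1} => (p.1.1, p.1.2.2)) :=
        Poly.comp (g := fun p : α × List γ × β => (p.1, p.2.2)) (by fun_prop)
          (Poly.subtypeVal Poly.ident)
      exact F3.comp h4 F3.nil F3.nil (hg.reindex
        (fun p : {p : α × List γ × β // p.2.2 ∈ f p.1} => ⟨(p.1.1, p.1.2.2), p.2⟩))
    refine F3.reindex h3 (κ := {p : α × List γ × β // ∃ k, ∃ hk : k < (f p.1).length,
      p.2.1 = ((f p.1).take k).foldl (fun s b => s ++ g p.1 b) [] ∧ p.2.2 = (f p.1)[k]})
      (fun p => ⟨p.1, ?_⟩)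
    obtain ⟨⟨a, s, b⟩, k, hk, h5, h6⟩ := p
    have h7 : (f a)[k] ∈ f a := List.getElem_mem hk
    change b ∈ f a
    have h8 : b = (f a)[k] := h6
    exact h8 ▸ h7
  · rw [hfl, List.nil_append]

theorem Poly.map_mem {f : α → List β} {g : α → β → γ} (hf : Poly f)
    (hg : Poly (fun p : {p : α × β // p.2 ∈ f p.1} => g p.1.1 p.1.2)) :
    Poly (fun a => (f a).map (g a)) :=
  (Poly.flatMap_mem (g := fun a b => [g a b]) hf (hg.cons (Poly.const []))).congr
    (fun a => by rw [List.map_eq_flatMap])

theorem Poly.filter_mem {f : α → List β} {g : α → β → Bool} (hf : Poly f)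
    (hg : Poly (fun p : {p : α × β // p.2 ∈ f p.1} => g p.1.1 p.1.2)) :
    Poly (fun a => (f a).filter (g a)) := by
  refine (Poly.flatMap_mem (g := fun a b => bif g a b then [b] else []) hf
    (Poly.cond hg (Poly.cons (Poly.snd (Poly.subtypeVal Poly.ident)) (Poly.const []))
      (Poly.const []))).congr (fun a => ?_)
  generalize f a = l
  induction l with
  | nil => rfl
  | cons b l ih =>
    rw [List.flatMap_cons, ih, List.filter_cons]
    cases g a b <;> simp

theorem Poly.all_mem {f : α → List β} {g : α → β → Bool} (hf : Poly f)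
    (hg : Poly (fun p : {p : α × β // p.2 ∈ f p.1} => g p.1.1 p.1.2)) :
    Poly (fun a => (f a).all (g a)) := by
  refine (Poly.isEmpty (Poly.filter_mem (g := fun a b => !(g a b)) hf hg.not)).congr (fun a => ?_)
  generalize f a = l
  induction l with
  | nil => rfl
  | cons b l ih =>
    rw [List.filter_cons, List.all_cons, ← ih]
    cases g a b <;> simp

theorem Poly.any_mem {f : α → List β} {g : α → β → Bool} (hf : Poly f)
    (hg : Poly (fun p : {p : α × β // p.2 ∈ f p.1} => g p.1.1 p.1.2)) :
    Poly (fun a => (f a).any (g a)) :=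
  (Poly.all_mem (g := fun a b => !(g a b)) hf hg.not).not.congr (fun a => by
    generalize f a = l
    induction l with
    | nil => rfl
    | cons b l ih =>
      rw [List.any_cons, List.all_cons, ← ih]
      cases g a b <;> simp)

/-- Case distinction where each branch only has to be polynomial-time on its own domain. -/
theorem Poly.dite {p : α → Prop} [h : ∀ a, Decidable (p a)] {f : (a : α) → p a → β}
    {g : (a : α) → ¬ p a → β} (hp : PolyPred p) (hf : Poly (fun a : {a // p a} => f a.1 a.2))
    (hg : Poly (fun a : {a // ¬ p a} => g a.1 a.2)) :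
    Poly (fun a => if h : p a then f a h else g a h) := by
  refine F3.cond hp.dec (F3.nil.congr ?_) ?_ ?_
  · rintro ⟨a, ha⟩
    rw [enc_bool] at ha
    simp at ha
  · refine (F3.reindex hg (κ := {i // (enc (decide (p i))).head? = some false})
      (fun i => ⟨i.1, ?_⟩)).congr (fun i => ?_)
    · have := i.2
      rw [enc_bool] at this
      simpa using this
    · have hi : ¬ p i.1 := by
        have := i.2
        rw [enc_bool] at this
        simpa using this
      simp [hi]
  · refine (F3.reindex hf (κ := {i // (enc (decide (p i))).head? = some true})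
      (fun i => ⟨i.1, ?_⟩)).congr (fun i => ?_)
    · have := i.2
      rw [enc_bool] at this
      simpa using this
    · have hi : p i.1 := by
        have := i.2
        rw [enc_bool] at this
        simpa using this
      simp [hi]

theorem Poly.ite_on {p : α → Prop} [h : ∀ a, Decidable (p a)] {f g : α → β} (hp : PolyPred p)
    (hf : Poly (fun a : {a // p a} => f a.1)) (hg : Poly (fun a : {a // ¬ p a} => g a.1)) :
    Poly (fun a => if p a then f a else g a) :=
  (Poly.dite (f := fun a _ => f a) (g := fun a _ => g a) hp hf hg).congr (fun a => by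
    by_cases h : p a <;> simp [h])

/-! ### Finite types -/

/-- Every function on a finite type is polynomial-time. -/
theorem Poly.ofFinite [Finite α] (f : α → β) : Poly f := by
  classical
  haveI := Fintype.ofFinite α
  rcases isEmpty_or_nonempty α with hα | ⟨⟨a₀⟩⟩
  · have : f = fun a => (hα.false a).elim := by funext a; exact (hα.false a).elim
    exact F3.nil.congr (fun a => (hα.false a).elim)
  · have key : ∀ l : List α, Poly (fun a => if a ∈ l then f a else f a₀) := by
      intro l
      induction l with
      | nil => simpa using Poly.const _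
      | cons b l ih =>
        refine (Poly.ite (p := fun a => a = b) (PolyPred.eq Poly.ident (Poly.const b))
          (Poly.const (f b)) ih).congr (fun a => ?_)
        by_cases h : a = b
        · subst h; simp
        · simp [h]
    refine (key Finset.univ.toList).congr (fun a => ?_)
    simp

theorem Poly.ofFinite₂ {β' : Type} [Code β'] [Finite β] [Finite β'] (g : β → β' → γ)
    {f : α → β} {f' : α → β'} (hf : Poly f) (hf' : Poly f') : Poly (fun a => g (f a) (f' a)) :=
  Poly.comp₂ (g := g) (Poly.ofFinite (α := β × β') (fun p => g p.1 p.2)) hf hf'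

/-- Case distinction over a finite type. -/
theorem Poly.finCases {ι : Type} [Code ι] [Finite ι] {f : α → ι} {g : ι → α → β}
    (hf : Poly f) (hg : ∀ i, Poly (g i)) : Poly (fun a => g (f a) a) := by
  classical
  haveI := Fintype.ofFinite ι
  rcases isEmpty_or_nonempty α with hα | ⟨⟨a₀⟩⟩
  · exact F3.nil.congr (fun a => (hα.false a).elim)
  · have key : ∀ l : List ι, Poly (fun a => if f a ∈ l then g (f a) a else g (f a₀) a) := by
      intro l
      induction l with
      | nil => simpa using hg _
      | cons b l ih =>
        refine (Poly.ite (p := fun a => f a = b) (PolyPred.eq hf (Poly.const b))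
          (hg b) ih).congr (fun a => ?_)
        by_cases h : f a = b
        · simp [h]
        · simp [h]
    refine (key Finset.univ.toList).congr (fun a => ?_)
    simp

/-- Loops whose state lives in a finite type, for instance runs of finite automata. -/
@[fun_prop]
theorem Poly.foldl_finite [Finite σ] {f : α → List β} {g : α → σ} {h : α → σ → β → σ}
    (hf : Poly f) (hg : Poly g) (hh : Poly (fun p : α × σ × β => h p.1 p.2.1 p.2.2)) :
    Poly (fun a => (f a).foldl (h a) (g a)) := by
  haveI := Fintype.ofFinite σ
  refine Poly.foldl hf hg hh (Polynomial.C (Finset.univ.sup (fun s : σ => size s))) ?_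
  intro a k _
  rw [Polynomial.eval_C]
  exact Finset.le_sup (f := fun s : σ => size s) (Finset.mem_univ _)

/-- Finite sequential state: a fixed number of elements. -/
@[fun_prop]
theorem Poly.foldr_finite [Finite σ] {f : α → List β} {g : α → σ} {h : α → β → σ → σ}
    (hf : Poly f) (hg : Poly g) (hh : Poly (fun p : α × β × σ => h p.1 p.2.1 p.2.2)) :
    Poly (fun a => (f a).foldr (h a) (g a)) := by
  haveI := Fintype.ofFinite σ
  refine Poly.foldr hf hg hh (Polynomial.C (Finset.univ.sup (fun s : σ => size s))) ?_
  intro a l _
  rw [Polynomial.eval_C]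
  exact Finset.le_sup (f := fun s : σ => size s) (Finset.mem_univ _)

/-- The first element of a list with a given property. -/
@[fun_prop]
theorem Poly.find? {f : α → List β} {g : α → β → Bool} (hf : Poly f)
    (hg : Poly (fun p : α × β => g p.1 p.2)) : Poly (fun a => (f a).find? (g a)) :=
  (Poly.head? (Poly.filter hf hg)).congr (fun a => by rw [List.head?_filter])

@[fun_prop]
theorem Poly.getLast? {f : α → List β} (hf : Poly f) : Poly (fun a => (f a).getLast?) :=
  (Poly.head? hf.listReverse).congr (fun a => by rw [List.head?_reverse])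

@[fun_prop]
theorem Poly.ofFn {n : ℕ} {f : α → Fin n → β} (hf : ∀ i, Poly (fun a => f a i)) :
    Poly (fun a => List.ofFn (f a)) := by
  induction n with
  | zero => simpa using Poly.const _
  | succ n ih =>
    simp only [List.ofFn_succ]
    exact (hf 0).cons (ih (fun i => hf i.succ))

/-- Integer square roots of polynomially bounded numbers. -/
theorem Poly.sqrt {f : α → ℕ} (hf : Poly f) (hb : PolyBdd f) : Poly (fun a => (f a).sqrt) := by
  have h1 : Poly (fun a => ((List.range (f a + 1)).filter
      (fun k => decide (0 < k ∧ k * k ≤ f a))).length) := by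
    refine Poly.length (Poly.filter (g := fun a k => decide (0 < k ∧ k * k ≤ f a))
      (Poly.range (by fun_prop) (hb.add (PolyBdd.const 1))) ?_)
    have := hf.comp (f := fun p : α × ℕ => p.1) (by fun_prop)
    fun_prop
  refine h1.congr (fun a => ?_)
  generalize f a = n
  have h2 : ∀ m, ((List.range m).filter (fun k => decide (0 < k ∧ k * k ≤ n))).length =
      min (m - 1) n.sqrt := by
    intro m
    induction m with
    | zero => simp
    | succ m ih =>
      rw [List.range_succ, List.filter_append, List.length_append, ih, List.filter_cons]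
      by_cases hm : 0 < m ∧ m * m ≤ n
      · simp only [hm, decide_true, and_self, if_true, List.filter_nil, List.length_cons,
          List.length_nil]
        have := Nat.le_sqrt.2 hm.2
        omega
      · simp only [hm, decide_false, List.filter_nil, List.length_nil]
        simp only [Bool.false_eq_true, if_false, List.length_nil]
        rcases Nat.eq_zero_or_pos m with h0 | h0
        · subst h0; simp
        · have : ¬ m * m ≤ n := fun h => hm ⟨h0, h⟩
          have := mt Nat.le_sqrt.1 this
          omega
  rw [h2]
  have := Nat.sqrt_le_self n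
  omega

end

end FP
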