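import Pool.Agent.PolyTime.Decode

/-!
# More closure properties
-/

namespace FP

open NPC Function

section
variable {α β γ δ : Type} [Code α] [Code β] [Code γ] [Code δ]

theorem idxOf_eq_find {β : Type} [DecidableEq β] (b : β) (l : List β) :
    l.idxOf b = ((List.range l.length).find? (fun i => decide (l[i]? = some b))).getD l.length := by
  induction l with
  | nil => rfl
  | cons c l ih =>
    rw [List.length_cons, List.range_succ_eq_map, List.find?_cons]
    by_cases h : c = b
    · subst h
      simp
    · rw [List.idxOf_cons_ne _ h, ih]
      have h1 : decide ((c :: l)[0]? = some b) = false := by simpa using h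
      rw [h1, List.find?_map]
      simp only [Function.comp_def, List.getElem?_cons_succ]
      rw [Option.getD_map]

@[fun_prop]
theorem Poly.idxOf [DecidableEq β] {f : α → β} {g : α → List β} (hf : Poly f) (hg : Poly g) :
    Poly (fun a => (g a).idxOf (f a)) := by
  simp only [idxOf_eq_find]
  fun_prop

end

end FP
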