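import Pool.Agent.PolyTime.More
import Pool.Agent.NPC.Cnf

/-!
# Every problem in NP reduces to SAT and 3-SAT by a typed polynomial-time function
-/

namespace FP

open NPC Function

instance : Finite Cl := Set.finite_univ_iff.1 ((Set.toFinite
  {.c00, .cL, .cLl, .r0, .r1, .rsep, .rw, .rblank, .mid, .acc, .top, .cR}).subset
    (by intro c _; cases c <;> simp))

noncomputable instance : Code Cl := codeFinite _

/-- The CNF formula of a grid problem, as a list of clauses. -/
noncomputable def gridCnf (a : ℕ) (al : Cl → ℕ → Prop) (Wr : ℕ → ℕ → ℕ → ℕ → Prop)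
    (n1 n3 N : ℕ) (y : List Bool) : List (List (ℕ × Bool)) :=
  (List.range (N + 2)).flatMap (fun t => (List.range (N + 2)).flatMap (fun i =>
    (cellClauses a al Wr (cls n1 n3 N y t i)).map (fun C => C.map (glob a (N + 2) t i))))

theorem gridCnf_iff (a : ℕ) (al : Cl → ℕ → Prop) (Wr : ℕ → ℕ → ℕ → ℕ → Prop) (n1 n3 N : ℕ)
    (hN : 0 < N) (y : List Bool) :
    (∃ z, GSolves a al Wr n1 n3 N y z) ↔
      ∃ s : ℕ → Bool, ∀ C ∈ gridCnf a al Wr n1 n3 N y, ∃ l ∈ C, s l.1 = l.2 := by
  rw [gsolves_iff a al Wr n1 n3 N hN y]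
  refine exists_congr fun s => ?_
  constructor
  · intro h C hC
    simp only [gridCnf, List.mem_flatMap, List.mem_range, List.mem_map] at hC
    obtain ⟨t, ht, i, hi, C', hC', rfl⟩ := hC
    exact h t ht i hi C' hC'
  · intro h t ht i hi C hC
    refine h _ ?_
    simp only [gridCnf, List.mem_flatMap, List.mem_range, List.mem_map]
    exact ⟨t, ht, i, hi, C, hC, rfl⟩

theorem Poly.cls {α : Type} [Code α] {n1 n3 N t i : α → ℕ} {y : α → List Bool} (h1 : Poly n1)
    (h3 : Poly n3) (hN : Poly N) (hy : Poly y) (ht : Poly t) (hi : Poly i) :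
    Poly (fun a => NPC.cls (n1 a) (n3 a) (N a) (y a) (t a) (i a)) := by
  unfold NPC.cls
  fun_prop

theorem poly_gridCnf (a : ℕ) (al : Cl → ℕ → Prop) (Wr : ℕ → ℕ → ℕ → ℕ → Prop) {α : Type} [Code α]
    {n1 n3 N : α → ℕ} {y : α → List Bool} (h1 : Poly n1) (h3 : Poly n3) (hN : Poly N)
    (hNb : PolyBdd N) (hy : Poly y) :
    Poly (fun x => gridCnf a al Wr (n1 x) (n3 x) (N x) (y x)) := by
  unfold gridCnf
  have hcl : Poly (fun p : (α × ℕ) × ℕ =>
      cellClauses a al Wr (NPC.cls (n1 p.1.1) (n3 p.1.1) (N p.1.1) (y p.1.1) p.1.2 p.2)) := by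
    have := Poly.cls (n1 := fun p : (α × ℕ) × ℕ => n1 p.1.1) (n3 := fun p => n3 p.1.1)
      (N := fun p => N p.1.1) (y := fun p => y p.1.1) (t := fun p => p.1.2) (i := fun p => p.2)
      (by fun_prop) (by fun_prop) (by fun_prop) (by fun_prop) (by fun_prop) (by fun_prop)
    exact (Poly.ofFinite (cellClauses a al Wr)).comp this
  unfold glob
  fun_prop

/-- Every problem in NP is SAT for a formula computed in polynomial time. -/
theorem np_cnf {L : Set (List Bool)} (hL : L ∈ NP) :
    ∃ f : List Bool → List (List (ℕ × Bool)), Poly f ∧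
      ∀ x, x ∈ L ↔ ∃ s : ℕ → Bool, ∀ C ∈ f x, ∃ l ∈ C, s l.1 = l.2 := by
  obtain ⟨a, al, Wr, P, Q, h⟩ := np_grid hL
  refine ⟨fun x => gridCnf a al Wr (x.length + 1) (x.length + 2 + P.eval (x.length + 1))
    (Q.eval (x.length + 1)) (false :: x.reverse), ?_, ?_⟩
  · have h1 : Poly (fun x : List Bool => P.eval (x.length + 1)) := Poly.polyEval _ (by fun_prop)
    have h2 : Poly (fun x : List Bool => Q.eval (x.length + 1)) := Poly.polyEval _ (by fun_prop)
    have h3 : PolyBdd (fun x : List Bool => Q.eval (x.length + 1)) :=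
      PolyBdd.polyEval _ (by fun_prop)
    exact poly_gridCnf a al Wr (by fun_prop) (by fun_prop) h2 h3 (by fun_prop)
  · intro x
    obtain ⟨h1, h2⟩ := h x
    rw [h2]
    exact gridCnf_iff a al Wr _ _ _ (by omega) _

/-- A clause with three literals (a literal is a variable with the value that makes it true). -/
abbrev Clause3 := (ℕ × Bool) × ((ℕ × Bool) × (ℕ × Bool))

/-- The assignment `s` satisfies the clause. -/
def Clause3.Sat (s : ℕ → Bool) (c : Clause3) : Prop :=
  s c.1.1 = c.1.2 ∨ s c.2.1.1 = c.2.1.2 ∨ s c.2.2.1 = c.2.2.2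

/-- a bound for the length of all clauses -/
def width (F : List (List (ℕ × Bool))) : ℕ := (F.map List.length).sum

theorem length_le_width {F : List (List (ℕ × Bool))} {C : List (ℕ × Bool)} (hC : C ∈ F) :
    C.length ≤ width F := by
  exact List.single_le_sum (by simp) _ (List.mem_map_of_mem hC)

/-- The auxiliary variable number `i` of clause number `c`. -/
def aux (W c i : ℕ) : ℕ := 2 * (c * (W + 1) + i) + 1

theorem aux_inj {W c i c' i' : ℕ} (hi : i ≤ W) (hi' : i' ≤ W) (h : aux W c i = aux W c' i') :
    c = c' ∧ i = i' := by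
  have h1 : c * (W + 1) + i = c' * (W + 1) + i' := by
    unfold aux at h; omega
  have h2 : (c * (W + 1) + i) / (W + 1) = c := by
    rw [Nat.mul_comm, Nat.mul_add_div (by omega), Nat.div_eq_of_lt (by omega), Nat.add_zero]
  have h3 : (c' * (W + 1) + i') / (W + 1) = c' := by
    rw [Nat.mul_comm, Nat.mul_add_div (by omega), Nat.div_eq_of_lt (by omega), Nat.add_zero]
  have h4 : c = c' := by rw [← h2, ← h3, h1]
  subst h4
  exact ⟨rfl, by omega⟩

/-- The clauses with three literals that replace a long clause. -/
def split3 (W : ℕ) (p : List (ℕ × Bool) × ℕ) : List Clause3 :=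
  [((aux W p.2 0, false), (aux W p.2 0, false), (aux W p.2 0, false)),
    ((aux W p.2 p.1.length, true), (aux W p.2 p.1.length, true), (aux W p.2 p.1.length, true))] ++
  p.1.zipIdx.map (fun q =>
    ((aux W p.2 (q.2 + 1), false), (aux W p.2 q.2, true), (2 * q.1.1, q.1.2)))

/-- The 3-CNF formula equisatisfiable with a CNF formula. -/
def toThree (F : List (List (ℕ × Bool))) : List Clause3 :=
  F.zipIdx.flatMap (split3 (width F))

theorem toThree_iff (F : List (List (ℕ × Bool))) :
    (∃ s : ℕ → Bool, ∀ C ∈ F, ∃ l ∈ C, s l.1 = l.2) ↔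
      ∃ s : ℕ → Bool, ∀ c ∈ toThree F, Clause3.Sat s c := by
  classical
  constructor
  · rintro ⟨s, hs⟩
    let S : ℕ → Bool := fun v => if v % 2 = 0 then s (v / 2) else
      decide (∃ j < (v / 2) % (width F + 1), ∃ l,
        (F.getD ((v / 2) / (width F + 1)) [])[j]? = some l ∧ s l.1 = l.2)
    have hS0 : ∀ v, S (2 * v) = s v := by
      intro v
      simp [S]
    have hS1 : ∀ c i, i ≤ width F → S (aux (width F) c i) =
        decide (∃ j < i, ∃ l, (F.getD c [])[j]? = some l ∧ s l.1 = l.2) := by
      intro c i hi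
      have e1 : aux (width F) c i % 2 ≠ 0 := by unfold aux; omega
      have e2 : aux (width F) c i / 2 = (width F + 1) * c + i := by
        unfold aux; rw [Nat.mul_comm c]; omega
      simp only [S, if_neg e1, e2]
      rw [Nat.mul_add_mod, Nat.mod_eq_of_lt (by omega), Nat.mul_add_div (by omega),
        Nat.div_eq_of_lt (by omega), Nat.add_zero]
    refine ⟨S, ?_⟩
    intro c hc
    simp only [toThree, List.mem_flatMap] at hc
    obtain ⟨⟨C, k⟩, hC, hc⟩ := hc
    rw [List.mk_mem_zipIdx_iff_getElem?] at hC
    have hCF : C ∈ F := List.mem_of_getElem? hC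
    have hgd : F.getD k [] = C := by
      rw [List.getD_eq_getElem?_getD, hC]; rfl
    have hw := length_le_width hCF
    simp only [split3, List.mem_append, List.mem_cons, List.not_mem_nil, or_false,
      List.mem_map] at hc
    rcases hc with (rfl | rfl) | ⟨⟨l, i⟩, hl, rfl⟩
    · left
      simp only
      rw [hS1 _ _ (by omega)]
      simp
    · left
      simp only
      rw [hS1 _ _ hw, hgd]
      obtain ⟨l, hl, hl2⟩ := hs C hCF
      obtain ⟨j, hj, rfl⟩ := List.mem_iff_getElem.1 hl
      simp only [decide_eq_true_eq]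
      exact ⟨j, hj, _, List.getElem?_eq_getElem hj, hl2⟩
    · rw [List.mk_mem_zipIdx_iff_getElem?] at hl
      have hil : i < C.length := by
        by_contra hcon
        rw [List.getElem?_eq_none (by omega)] at hl
        exact absurd hl (by simp)
      unfold Clause3.Sat
      simp only
      rw [hS1 _ _ (by omega), hS1 _ _ (by omega), hS0, hgd]
      by_cases h1 : s l.1 = l.2
      · right; right; exact h1
      · by_cases h2 : ∃ j < i, ∃ l, C[j]? = some l ∧ s l.1 = l.2
        · right; left; simpa using h2
        · left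
          simp only [decide_eq_false_iff_not]
          rintro ⟨j, hj, l', hl', hl2⟩
          rcases Nat.lt_succ_iff_lt_or_eq.1 hj with hj | rfl
          · exact h2 ⟨j, hj, l', hl', hl2⟩
          · rw [hl] at hl'
            simp only [Option.some.injEq] at hl'
            subst hl'
            exact h1 hl2
  · rintro ⟨S, hS⟩
    refine ⟨fun v => S (2 * v), ?_⟩
    intro C hC
    obtain ⟨k, hk, rfl⟩ := List.mem_iff_getElem.1 hC
    have hkF : (F[k], k) ∈ F.zipIdx := by
      rw [List.mk_mem_zipIdx_iff_getElem?]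
      exact List.getElem?_eq_getElem hk
    have hS' : ∀ c ∈ split3 (width F) (F[k], k), Clause3.Sat S c := fun c hc =>
      hS c (List.mem_flatMap.2 ⟨_, hkF, hc⟩)
    set C := F[k] with hCdef
    by_contra hcon
    have hno : ∀ l ∈ C, S (2 * l.1) ≠ l.2 := by
      intro l hl h
      exact hcon ⟨l, hl, h⟩
    have h0 : S (aux (width F) k 0) = false := by
      have := hS' _ (by
        simp only [split3, List.mem_append, List.mem_cons]
        left; left; rfl)
      simpa [Clause3.Sat] using this
    have h1 : S (aux (width F) k C.length) = true := by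
      have := hS' _ (by
        simp only [split3, List.mem_append, List.mem_cons]
        left; right; left; rfl)
      simpa [Clause3.Sat] using this
    have h2 : ∀ i, i ≤ C.length → S (aux (width F) k i) = false := by
      intro i
      induction i with
      | zero => intro _; exact h0
      | succ i ih =>
        intro hi
        have hi' : i < C.length := hi
        have h3 := hS' ((aux (width F) k (i + 1), false), (aux (width F) k i, true),
          (2 * C[i].1, C[i].2)) (by
            simp only [split3, List.mem_append, List.mem_map]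
            right
            exact ⟨(C[i], i), by
              rw [List.mk_mem_zipIdx_iff_getElem?]
              exact List.getElem?_eq_getElem hi', rfl⟩)
        unfold Clause3.Sat at h3
        simp only at h3
        rcases h3 with h3 | h3 | h3
        · exact h3
        · rw [ih (by omega)] at h3
          exact absurd h3 (by simp)
        · exact absurd h3 (hno _ (List.getElem_mem hi'))
    rw [h2 _ le_rfl] at h1
    exact absurd h1 (by simp)

theorem poly_toThree : Poly toThree := by
  unfold toThree split3 width aux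
  fun_prop

/-- Every problem in NP is 3-SAT for a formula computed in polynomial time: clauses with exactly
three (not necessarily different) literals. -/
theorem np_threeSat {L : Set (List Bool)} (hL : L ∈ NP) :
    ∃ f : List Bool → List Clause3, Poly f ∧
      ∀ x, x ∈ L ↔ ∃ s : ℕ → Bool, ∀ c ∈ f x, Clause3.Sat s c := by
  obtain ⟨f, hf, h⟩ := np_cnf hL
  exact ⟨fun x => toThree (f x), poly_toThree.comp hf, fun x => by rw [h, toThree_iff]⟩

/-- the variables in order of occurrence -/
def vars (F : List Clause3) : List ℕ := F.flatMap (fun c => [c.1.1, c.2.1.1, c.2.2.1])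

/-- The formula with its variables renumbered by their first occurrence. -/
def renum (F : List Clause3) : List Clause3 :=
  F.map (fun c => (((vars F).idxOf c.1.1, c.1.2), ((vars F).idxOf c.2.1.1, c.2.1.2),
    ((vars F).idxOf c.2.2.1, c.2.2.2)))

theorem length_vars (F : List Clause3) : (vars F).length = 3 * F.length := by
  induction F with
  | nil => rfl
  | cons c F ih =>
    rw [vars, List.flatMap_cons, List.length_append]
    change 3 + (vars F).length = _
    rw [ih, List.length_cons]; ring

theorem renum_iff (F : List Clause3) :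
    (∃ s : ℕ → Bool, ∀ c ∈ renum F, Clause3.Sat s c) ↔
      ∃ s : ℕ → Bool, ∀ c ∈ F, Clause3.Sat s c := by
  have hmem : ∀ c ∈ F, c.1.1 ∈ vars F ∧ c.2.1.1 ∈ vars F ∧ c.2.2.1 ∈ vars F := by
    intro c hc
    refine ⟨?_, ?_, ?_⟩ <;> exact List.mem_flatMap.2 ⟨c, hc, by simp⟩
  constructor
  · rintro ⟨s, hs⟩
    refine ⟨fun v => s ((vars F).idxOf v), ?_⟩
    intro c hc
    exact hs _ (List.mem_map.2 ⟨c, hc, rfl⟩)
  · rintro ⟨s, hs⟩
    refine ⟨fun i => s ((vars F).getD i 0), ?_⟩
    intro c' hc'
    obtain ⟨c, hc, rfl⟩ := List.mem_map.1 hc'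
    obtain ⟨h1, h2, h3⟩ := hmem c hc
    have key : ∀ v ∈ vars F, (vars F).getD ((vars F).idxOf v) 0 = v := by
      intro v hv
      rw [List.getD_eq_getElem _ _ (List.idxOf_lt_length_of_mem hv)]
      exact List.getElem_idxOf _
    have := hs c hc
    unfold Clause3.Sat at this ⊢
    simp only [key _ h1, key _ h2, key _ h3]
    exact this

theorem renum_lt (F : List Clause3) {c : Clause3} (hc : c ∈ renum F) :
    c.1.1 < 3 * (renum F).length ∧ c.2.1.1 < 3 * (renum F).length ∧
      c.2.2.1 < 3 * (renum F).length := by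
  have hl : (renum F).length = F.length := by simp [renum]
  rw [hl, ← length_vars F]
  obtain ⟨c', hc', rfl⟩ := List.mem_map.1 hc
  refine ⟨?_, ?_, ?_⟩ <;>
    exact List.idxOf_lt_length_of_mem (List.mem_flatMap.2 ⟨c', hc', by simp⟩)

theorem poly_renum : Poly renum := by
  unfold renum vars
  fun_prop

/-- Every problem in NP is 3-SAT, with the variables numbered by numbers less than three times the
number of clauses. -/
theorem np_threeSat_lt {L : Set (List Bool)} (hL : L ∈ NP) :
    ∃ f : List Bool → List Clause3, Poly f ∧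
      (∀ x, ∀ c ∈ f x, c.1.1 < 3 * (f x).length ∧ c.2.1.1 < 3 * (f x).length ∧
        c.2.2.1 < 3 * (f x).length) ∧
      ∀ x, x ∈ L ↔ ∃ s : ℕ → Bool, ∀ c ∈ f x, Clause3.Sat s c := by
  obtain ⟨f, hf, h⟩ := np_threeSat hL
  exact ⟨fun x => renum (f x), poly_renum.comp hf, fun x c hc => renum_lt _ hc,
    fun x => by rw [h, renum_iff]⟩

end FP
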