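import Pool.Agent.PolyTime.Core

/-!
# Closure properties of the class of polynomial-time string functions
-/

namespace FP

open NPC Function

/-- `p` leads from `S` to `S'` with cost at most `c`, whatever the register. -/
def Runs (p : Prog ℕ) (S S' : Stk ℕ) (c : ℕ) : Prop := ∀ r, ∃ r' c', c' ≤ c ∧ Run p r S r' S' c'

theorem Runs.mono {p : Prog ℕ} {S S' : Stk ℕ} {c d : ℕ} (h : Runs p S S' c) (hcd : c ≤ d) :
    Runs p S S' d := by
  intro r
  obtain ⟨r', c', h1, h2⟩ := h r
  exact ⟨r', c', h1.trans hcd, h2⟩

theorem Runs.seq {p q : Prog ℕ} {S S' S'' : Stk ℕ} {c d : ℕ} (h : Runs p S S' c)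
    (h' : Runs q S' S'' d) : Runs (.seq p q) S S'' (c + d) := by
  intro r
  obtain ⟨r', c', h1, h2⟩ := h r
  obtain ⟨r'', c'', h3, h4⟩ := h' r'
  exact ⟨r'', c' + c'', by omega, Run.seq h2 h4⟩

/-- the string encoding -/
abbrev e (x : Str) : List Sym := encStr x

theorem st_pad (l : List (List Sym)) (n : ℕ) : st (l ++ List.replicate n []) = st l := by
  induction n with
  | zero => simp
  | succ n ih => rw [List.replicate_succ', ← List.append_assoc, st_append_nil, ih]

theorem runs_move (k k' : ℕ) (hne : k ≠ k') (L : List (List Sym)) (hk : k < L.length)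
    (hk' : k' < L.length) :
    Runs (move k k') (st L) (st ((L.set k []).set k' ((L.getD k []).reverse ++ L.getD k' [])))
      (2 * (L.getD k []).length + 1) := by
  intro r
  have := run_move k k' hne (st L k) r (st L) rfl
  rw [update_st _ _ _ hk, update_st _ _ _ (by simpa using hk')] at this
  exact ⟨_, _, le_refl _, this⟩

theorem runs_clear (k : ℕ) (L : List (List Sym)) (hk : k < L.length) :
    Runs (clear k) (st L) (st (L.set k [])) (2 * (L.getD k []).length + 1) := by
  intro r
  have := run_clear k (st L k) r (st L) rfl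
  rw [update_st _ _ _ hk] at this
  exact ⟨_, _, le_refl _, this⟩

theorem runs_dup (k t k' : ℕ) (h1 : k ≠ t) (h2 : k' ≠ t) (h3 : k ≠ k') (L : List (List Sym))
    (hk' : k' < L.length) (ht : L.getD t [] = []) :
    Runs (dup k t k') (st L) (st (L.set k' (L.getD k [] ++ L.getD k' [])))
      (5 * (L.getD k []).length + 2) := by
  intro r
  have := run_dup k t k' h1 h2 h3 r (st L) ht
  rw [update_st _ _ _ hk'] at this
  exact ⟨_, _, le_refl _, this⟩

/-- `p` computes `o` from `x`, `y`, `z`. -/
def Does (p : Prog ℕ) (x y z o : Str) (c : ℕ) : Prop :=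
  Runs p (st [e x, e y, e z]) (st [e x, e y, e z, e o]) c

theorem Does.mono {p : Prog ℕ} {x y z o : Str} {c d : ℕ} (h : Does p x y z o c) (hcd : c ≤ d) :
    Does p x y z o d := Runs.mono h hcd

theorem Does.length_le {p : Prog ℕ} {x y z o : Str} {c : ℕ} (h : Does p x y z o c) :
    o.length ≤ c := by
  obtain ⟨r', c', hc, hr⟩ := h (none, false)
  have := hr.length_le 3
  simp only [st_apply] at this
  rw [show List.getD [encStr x, encStr y, encStr z, encStr o] 3 [] =
    encStr o from rfl, show List.getD [encStr x, encStr y, encStr z] 3 [] = [] from rfl,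
    encStr_length] at this
  simp only [List.length_nil, Nat.zero_add] at this
  exact this.trans hc

theorem F3_iff {ι : Type*} {u v w f : ι → Str} : F3 u v w f ↔
    ∃ (p : Prog ℕ) (P : Polynomial ℕ), ∀ i, Does p (u i) (v i) (w i) (f i)
      (P.eval ((u i).length + (v i).length + (w i).length)) := Iff.rfl

/-- Relocation map: arguments `0,1,2` go to `a,b,c`, result to `o`, scratch stacks are shifted
by `d`. -/
def rl (a b c o d : ℕ) : ℕ → ℕ
  | 0 => a
  | 1 => b
  | 2 => c
  | 3 => o
  | k + 4 => k + 4 + d

theorem rl_injective {a b c o d : ℕ} (hab : a ≠ b) (hac : a ≠ c) (hao : a ≠ o) (hbc : b ≠ c)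
    (hbo : b ≠ o) (hco : c ≠ o) (ha : a < 4 + d) (hb : b < 4 + d) (hc : c < 4 + d)
    (ho : o < 4 + d) : Injective (rl a b c o d) := by
  intro i j h
  match i, j with
  | 0, 0 => rfl
  | 1, 1 => rfl
  | 2, 2 => rfl
  | 3, 3 => rfl
  | i + 4, j + 4 => simp only [rl] at h; omega
  | 0, 1 => simp only [rl] at h; omega
  | 0, 2 => simp only [rl] at h; omega
  | 0, 3 => simp only [rl] at h; omega
  | 1, 0 => simp only [rl] at h; omega
  | 1, 2 => simp only [rl] at h; omega
  | 1, 3 => simp only [rl] at h; omega
  | 2, 0 => simp only [rl] at h; omega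
  | 2, 1 => simp only [rl] at h; omega
  | 2, 3 => simp only [rl] at h; omega
  | 3, 0 => simp only [rl] at h; omega
  | 3, 1 => simp only [rl] at h; omega
  | 3, 2 => simp only [rl] at h; omega
  | 0, j + 4 => simp only [rl] at h; omega
  | 1, j + 4 => simp only [rl] at h; omega
  | 2, j + 4 => simp only [rl] at h; omega
  | 3, j + 4 => simp only [rl] at h; omega
  | i + 4, 0 => simp only [rl] at h; omega
  | i + 4, 1 => simp only [rl] at h; omega
  | i + 4, 2 => simp only [rl] at h; omega
  | i + 4, 3 => simp only [rl] at h; omega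

/-- Running a relocated program inside a state given by a list. -/
theorem Does.reloc {p : Prog ℕ} {x y z o : Str} {c : ℕ} (h : Does p x y z o c)
    {ka kb kc ko d : ℕ} (hinj : Injective (rl ka kb kc ko d)) (L : List (List Sym))
    (hL : L.length ≤ 4 + d) (ho : ko < L.length) (h0 : L.getD ka [] = e x) (h1 : L.getD kb [] = e y)
    (h2 : L.getD kc [] = e z) (h3 : L.getD ko [] = []) :
    Runs (p.map (rl ka kb kc ko d)) (st L) (st (L.set ko (e o))) c := by
  intro r
  obtain ⟨r', c', hc, hr⟩ := h r
  refine ⟨r', c', hc, ?_⟩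
  have := relocate hinj hr (st L) (by
    intro k
    match k with
    | 0 => exact h0
    | 1 => exact h1
    | 2 => exact h2
    | 3 => exact h3
    | k + 4 =>
      rw [st_apply, st_apply, List.getD_eq_getElem?_getD, List.getElem?_eq_none
        (by simp only [rl]; omega)]
      rfl)
  rw [update_st _ _ _ (by exact ho)] at this
  exact this

/-! ### Basic functions -/

theorem does_of (p : Prog ℕ) (n : ℕ) (x y z o : Str) (c : ℕ)
    (h : Runs p (st ([e x, e y, e z] ++ List.replicate n []))
      (st ([e x, e y, e z, e o] ++ List.replicate (n - 1) [])) c) : Does p x y z o c := by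
  rw [st_pad, st_pad] at h
  exact h

theorem does_u (x y z : Str) : Does (dup 0 4 3) x y z x (5 * x.length + 2) := by
  have := runs_dup 0 4 3 (by decide) (by decide) (by decide) [e x, e y, e z, []] (by simp) rfl
  simp only [List.getD_cons_zero, encStr_length] at this
  apply does_of _ 1
  simpa using this

theorem does_v (x y z : Str) : Does (dup 1 4 3) x y z y (5 * y.length + 2) := by
  have := runs_dup 1 4 3 (by decide) (by decide) (by decide) [e x, e y, e z, []] (by simp) rfl
  apply does_of _ 1
  simpa [encStr_length] using this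

theorem does_w (x y z : Str) : Does (dup 2 4 3) x y z z (5 * z.length + 2) := by
  have := runs_dup 2 4 3 (by decide) (by decide) (by decide) [e x, e y, e z, []] (by simp) rfl
  apply does_of _ 1
  simpa [encStr_length] using this

theorem does_nil (x y z : Str) : Does nop x y z [] 1 := by
  intro r
  refine ⟨r, 1, le_refl _, ?_⟩
  have := run_nop r (st [e x, e y, e z])
  rw [← st_pad [e x, e y, e z] 1] at *
  exact this

theorem Does.cons {p : Prog ℕ} {x y z o : Str} {c : ℕ} (h : Does p x y z o c) (b : Bool) :
    Does (.seq p (.push 3 (fun _ => some b))) x y z (b :: o) (c + 1) := by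
  refine Runs.seq h ?_
  intro r
  have := Run.push (K := ℕ) 3 (fun _ => some b) r (st [e x, e y, e z, e o])
  rw [update_st _ _ _ (by simp)] at this
  exact ⟨_, _, le_refl _, this⟩

theorem Does.tail {p : Prog ℕ} {x y z o : Str} {c : ℕ} (h : Does p x y z o c) :
    Does (.seq p (.pop 3)) x y z o.tail (c + 1) := by
  refine Runs.seq h ?_
  intro r
  have := Run.pop (K := ℕ) 3 r (st [e x, e y, e z, e o])
  rw [update_st _ _ _ (by simp)] at this
  have e1 : st ([e x, e y, e z, e o].set 3 (st [e x, e y, e z, e o] 3).tail) =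
      st [e x, e y, e z, e o.tail] := by
    simp [st_apply, encStr, List.map_tail]
  rw [e1] at this
  exact ⟨_, _, le_refl _, this⟩

/-- the program of a composition -/
def compProg (p1 p2 p3 p : Prog ℕ) : Prog ℕ :=
  .seq (p1.map (rl 0 1 2 4 3)) (.seq (p2.map (rl 0 1 2 5 3)) (.seq (p3.map (rl 0 1 2 6 3))
    (.seq (p.map (rl 4 5 6 3 3)) (.seq (clear 4) (.seq (clear 5) (clear 6))))))

theorem Does.comp {p1 p2 p3 p : Prog ℕ} {x y z a b d o : Str} {c1 c2 c3 c : ℕ}
    (h1 : Does p1 x y z a c1) (h2 : Does p2 x y z b c2) (h3 : Does p3 x y z d c3)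
    (h : Does p a b d o c) :
    Does (compProg p1 p2 p3 p) x y z o
      (c1 + (c2 + (c3 + (c + ((2 * a.length + 1) + ((2 * b.length + 1) + (2 * d.length + 1))))))) := by
  apply does_of _ 4
  have s1 := h1.reloc (ka := 0) (kb := 1) (kc := 2) (ko := 4) (d := 3)
    (rl_injective (by decide) (by decide) (by decide) (by decide) (by decide) (by decide)
    (by decide) (by decide) (by decide) (by decide)) [e x, e y, e z, [], [], [], []]
    (by simp) (by simp) rfl rfl rfl rfl
  have s2 := h2.reloc (ka := 0) (kb := 1) (kc := 2) (ko := 5) (d := 3)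
    (rl_injective (by decide) (by decide) (by decide) (by decide) (by decide) (by decide)
    (by decide) (by decide) (by decide) (by decide)) [e x, e y, e z, [], e a, [], []]
    (by simp) (by simp) rfl rfl rfl rfl
  have s3 := h3.reloc (ka := 0) (kb := 1) (kc := 2) (ko := 6) (d := 3)
    (rl_injective (by decide) (by decide) (by decide) (by decide) (by decide) (by decide)
    (by decide) (by decide) (by decide) (by decide)) [e x, e y, e z, [], e a, e b, []]
    (by simp) (by simp) rfl rfl rfl rfl
  have s4 := h.reloc (ka := 4) (kb := 5) (kc := 6) (ko := 3) (d := 3)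
    (rl_injective (by decide) (by decide) (by decide) (by decide) (by decide) (by decide)
    (by decide) (by decide) (by decide) (by decide)) [e x, e y, e z, [], e a, e b, e d]
    (by simp) (by simp) rfl rfl rfl rfl
  have s5 := runs_clear 4 [e x, e y, e z, e o, e a, e b, e d] (by simp)
  have s6 := runs_clear 5 [e x, e y, e z, e o, [], e b, e d] (by simp)
  have s7 := runs_clear 6 [e x, e y, e z, e o, [], [], e d] (by simp)
  have k5 : List.getD [e x, e y, e z, e o, e a, e b, e d] 4 [] = e a := rfl
  have k6 : List.getD [e x, e y, e z, e o, [], e b, e d] 5 [] = e b := rfl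
  have k7 : List.getD [e x, e y, e z, e o, [], [], e d] 6 [] = e d := rfl
  rw [k5, encStr_length] at s5
  rw [k6, encStr_length] at s6
  rw [k7, encStr_length] at s7
  exact s1.seq (s2.seq (s3.seq (s4.seq (s5.seq (s6.seq s7)))))

/-- the program of a case distinction -/
def condProg (p g0 g1 g2 : Prog ℕ) : Prog ℕ :=
  .seq (p.map (rl 0 1 2 4 1)) (.seq (.pop 4) (.ite (fun r => r.1.isNone) (.seq (clear 4) g0)
    (.ite (fun r => decide (r.1 = some (some true))) (.seq (clear 4) g2) (.seq (clear 4) g1))))

theorem does_cond_aux {g : Prog ℕ} {x y z t o : Str} {c : ℕ} (h : Does g x y z o c) :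
    Runs (.seq (clear 4) g) (st [e x, e y, e z, [], (e t).tail]) (st [e x, e y, e z, e o])
      ((2 * t.length + 1) + c) := by
  have s := runs_clear 4 [e x, e y, e z, [], (e t).tail] (by simp)
  have k : List.getD [e x, e y, e z, [], (e t).tail] 4 [] = (e t).tail := rfl
  rw [k] at s
  have k2 : st (List.set [e x, e y, e z, [], (e t).tail] 4 []) = st [e x, e y, e z] :=
    st_pad [e x, e y, e z] 2
  rw [k2] at s
  refine (s.seq h).mono ?_
  simp only [List.length_tail, encStr_length]
  omega

theorem Does.cond {p g0 g1 g2 : Prog ℕ} {x y z t o : Str} {c d : ℕ}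
    (h : Does p x y z t c)
    (h0 : t = [] → Does g0 x y z o d) (h1 : ∀ t', t = false :: t' → Does g1 x y z o d)
    (h2 : ∀ t', t = true :: t' → Does g2 x y z o d) :
    Does (condProg p g0 g1 g2) x y z o (c + (1 + (((2 * t.length + 1) + d) + 2))) := by
  have s1 := h.reloc (ka := 0) (kb := 1) (kc := 2) (ko := 4) (d := 1)
    (rl_injective (by decide) (by decide) (by decide) (by decide) (by decide) (by decide)
    (by decide) (by decide) (by decide) (by decide)) [e x, e y, e z, [], []]
    (by simp) (by simp) rfl rfl rfl rfl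
  have k1 : st [e x, e y, e z, [], []] = st [e x, e y, e z] := st_pad [e x, e y, e z] 2
  rw [k1] at s1
  refine Runs.seq s1 ?_
  intro r
  have s2 := Run.pop (K := ℕ) 4 r (st [e x, e y, e z, [], e t])
  rw [update_st _ _ _ (by simp)] at s2
  have k2 : st ([e x, e y, e z, [], e t].set 4 (st [e x, e y, e z, [], e t] 4).tail) =
      st [e x, e y, e z, [], (e t).tail] := rfl
  have k3 : st [e x, e y, e z, [], e t] 4 = e t := rfl
  rw [k2, k3] at s2
  rcases ht : t with _ | ⟨b, t'⟩
  · obtain ⟨r', c', hc', hr'⟩ := does_cond_aux (t := t) (h0 ht) ((e t).head?, r.2)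
    rw [ht] at hr' s2 hc'
    refine ⟨r', _, ?_, Run.seq s2 (Run.iteT (by rfl) hr')⟩
    omega
  · cases b
    · obtain ⟨r', c', hc', hr'⟩ := does_cond_aux (t := t) (h1 t' ht) ((e t).head?, r.2)
      rw [ht] at hr' s2 hc'
      refine ⟨r', _, ?_, Run.seq s2 (Run.iteF (by rfl) (Run.iteF (by rfl) hr'))⟩
      omega
    · obtain ⟨r', c', hc', hr'⟩ := does_cond_aux (t := t) (h2 t' ht) ((e t).head?, r.2)
      rw [ht] at hr' s2 hc'
      refine ⟨r', _, ?_, Run.seq s2 (Run.iteF (by rfl) (Run.iteT (by rfl) hr'))⟩
      omega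

/-! ### Loops -/

/-- replace the state (stack 3) by the result of `p` on `(x, state, item)`; the item is on
stack 6 -/
def nextProg (p : Prog ℕ) : Prog ℕ :=
  .seq (p.map (rl 0 3 6 7 4)) (.seq (clear 3) (.seq (clear 6) (.seq (move 7 5) (move 5 3))))

theorem runs_next {p : Prog ℕ} {x s m s' : Str} {c : ℕ} (h : Does p x s m s' c)
    (y z R : List Sym) :
    Runs (nextProg p) (st [e x, y, z, e s, R, [], e m, []]) (st [e x, y, z, e s', R, [], [], []])
      (c + ((2 * s.length + 1) + ((2 * m.length + 1) + ((2 * s'.length + 1) +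
        (2 * s'.length + 1))))) := by
  have s1 := h.reloc (ka := 0) (kb := 3) (kc := 6) (ko := 7) (d := 4)
    (rl_injective (by decide) (by decide) (by decide) (by decide) (by decide) (by decide)
    (by decide) (by decide) (by decide) (by decide)) [e x, y, z, e s, R, [], e m, []]
    (by simp) (by simp) rfl rfl rfl rfl
  have s2 := runs_clear 3 [e x, y, z, e s, R, [], e m, e s'] (by simp)
  have s3 := runs_clear 6 [e x, y, z, [], R, [], e m, e s'] (by simp)
  have s4 := runs_move 7 5 (by decide) [e x, y, z, [], R, [], [], e s'] (by simp) (by simp)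
  have s5 := runs_move 5 3 (by decide) [e x, y, z, [], R, (e s').reverse, [], []]
    (by simp) (by simp)
  have k2 : List.getD [e x, y, z, e s, R, [], e m, e s'] 3 [] = e s := rfl
  have k3 : List.getD [e x, y, z, [], R, [], e m, e s'] 6 [] = e m := rfl
  have k4 : List.getD [e x, y, z, [], R, [], [], e s'] 7 [] = e s' := rfl
  have k5 : List.getD [e x, y, z, [], R, (e s').reverse, [], []] 5 [] = (e s').reverse := rfl
  rw [k2, encStr_length] at s2
  rw [k3, encStr_length] at s3
  rw [k4, encStr_length] at s4
  rw [k5, List.length_reverse, encStr_length, List.reverse_reverse] at s5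
  have k6 : List.getD [e x, y, z, [], R, [], [], e s'] 5 [] = [] := rfl
  rw [k6, List.append_nil] at s4
  have k7 : List.getD [e x, y, z, [], R, (e s').reverse, [], []] 3 [] = [] := rfl
  rw [k7, List.append_nil] at s5
  exact s1.seq (s2.seq (s3.seq (s4.seq s5)))

theorem runs_whil_nil {k : ℕ} {p : Prog ℕ} {S : Stk ℕ} (h : S k = []) :
    Runs (.whil k p) S S 1 := fun _ => ⟨_, _, le_refl _, Run.whilE h⟩

theorem runs_whil_cons {k : ℕ} {p : Prog ℕ} {S S' S'' : Stk ℕ} {a : Sym} {l : List Sym} {c d : ℕ}
    (hk : S k = a :: l)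
    (hb : ∀ b, ∃ r' c', c' ≤ c ∧ Run p (some a, b) (update S k l) r' S' c')
    (hr : Runs (.whil k p) S' S'' d) : Runs (.whil k p) S S'' (c + d + 1) := by
  intro r
  obtain ⟨r', c', h1, h2⟩ := hb r.2
  obtain ⟨r'', d', h3, h4⟩ := hr r'
  exact ⟨r'', c' + d' + 1, by omega, Run.whilS hk h2 h4⟩

/-- Delimited form of a string. -/
def delim (x : Str) : Str := x.flatMap (fun b => [true, b]) ++ [false]

theorem delim_nil : delim [] = [false] := rfl

theorem delim_cons (b : Bool) (x : Str) : delim (b :: x) = true :: b :: delim x := by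
  simp [delim]

theorem length_delim (x : Str) : (delim x).length = 2 * x.length + 1 := by
  induction x with
  | nil => rfl
  | cons b x ih => rw [delim_cons, List.length_cons, List.length_cons, ih, List.length_cons]; ring

/-- Encoding of a list of strings. -/
def encL (L : List Str) : Str := L.flatMap delim

theorem encL_nil : encL [] = [] := rfl

theorem encL_cons (x : Str) (L : List Str) : encL (x :: L) = delim x ++ encL L := rfl

/-- body of the loop over the items of a list -/
def itemBody (p : Prog ℕ) : Prog ℕ :=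
  .ite (fun r => decide (r.1 = some (some true))) (.seq (.pop 4) (pushr 5))
    (.seq (move 5 6) (nextProg p))

theorem runs_item_data (p : Prog ℕ) (x y z s : List Sym) (R : Str) (S'' : Stk ℕ) (d : ℕ) :
    ∀ (q : Str) (buf : List Sym),
    Runs (.whil 4 (itemBody p)) (st [x, y, z, s, e (false :: R), (e q).reverse ++ buf, [], []])
      S'' d →
    Runs (.whil 4 (itemBody p)) (st [x, y, z, s, e (delim q ++ R), buf, [], []])
      S'' (4 * q.length + d) := by
  intro q
  induction q with
  | nil =>
    intro buf h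
    simpa [delim, encStr] using h
  | cons b q ih =>
    intro buf h
    have h' := ih ((some b) :: buf) (by simpa [encStr] using h)
    have k1 : e (delim (b :: q) ++ R) = some true :: some b :: e (delim q ++ R) := by
      rw [delim_cons]; rfl
    rw [k1]
    have := runs_whil_cons (k := 4) (p := itemBody p) (a := some true)
      (l := some b :: e (delim q ++ R)) (c := 3)
      (S := st [x, y, z, s, some true :: some b :: e (delim q ++ R), buf, [], []]) rfl ?_ h'
    · refine this.mono ?_
      rw [List.length_cons]; omega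
    · intro f
      rw [update_st _ _ _ (by simp)]
      have h1 := Run.pop (K := ℕ) 4 (some (some true), f)
        (st [x, y, z, s, some b :: e (delim q ++ R), buf, [], []])
      rw [update_st _ _ _ (by simp)] at h1
      have h2 := run_pushr (K := ℕ) 5 (some (some b), f)
        (st [x, y, z, s, e (delim q ++ R), buf, [], []])
      rw [update_st _ _ _ (by simp)] at h2
      exact ⟨_, 3, le_refl _, Run.iteT (by rfl) (Run.seq h1 h2)⟩

theorem runs_item_end {p : Prog ℕ} {x s m s' : Str} {c : ℕ} (h : Does p x s m s' c)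
    (y z : List Sym) (R : Str) {S'' : Stk ℕ} {d : ℕ}
    (hr : Runs (.whil 4 (itemBody p)) (st [e x, y, z, e s', e R, [], [], []]) S'' d) :
    Runs (.whil 4 (itemBody p)) (st [e x, y, z, e s, e (delim m ++ R), [], [], []]) S''
      (4 * m.length + ((((2 * m.length + 1) + (c + ((2 * s.length + 1) + ((2 * m.length + 1) +
        ((2 * s'.length + 1) + (2 * s'.length + 1)))))) + 1) + d + 1)) := by
  apply runs_item_data
  have k1 : e (false :: R) = some false :: e R := rfl
  rw [k1, List.append_nil]
  refine runs_whil_cons (a := some false) (l := e R) rfl ?_ hr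
  intro f
  rw [update_st _ _ _ (by simp)]
  have s1 := runs_move 5 6 (by decide) [e x, y, z, e s, e R, (e m).reverse, [], []]
    (by simp) (by simp)
  have k2 : List.getD [e x, y, z, e s, e R, (e m).reverse, [], []] 5 [] = (e m).reverse := rfl
  have k3 : List.getD [e x, y, z, e s, e R, (e m).reverse, [], []] 6 [] = [] := rfl
  rw [k2, k3, List.append_nil, List.reverse_reverse, List.length_reverse, encStr_length] at s1
  have s2 := runs_next h y z (e R)
  obtain ⟨r', c', hc', hr'⟩ := (s1.seq s2) (some (some false), f)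
  exact ⟨r', c' + 1, by omega, Run.iteF (by rfl) hr'⟩

theorem runs_items {p : Prog ℕ} {x : Str} {y z : List Sym} (L : List Str) (S : ℕ → Str)
    (C B : ℕ) (hm : ∀ k (hk : k < L.length), L[k].length ≤ B)
    (hS : ∀ k ≤ L.length, (S k).length ≤ B)
    (h : ∀ k (hk : k < L.length), Does p x (S k) L[k] (S (k + 1)) C) (n : ℕ) :
    ∀ k, k + n = L.length →
    Runs (.whil 4 (itemBody p)) (st [e x, y, z, e (S k), e (encL (L.drop k)), [], [], []])
      (st [e x, y, z, e (S L.length), [], [], [], []]) (n * (C + 14 * B + 7) + 1) := by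
  induction n with
  | zero =>
    intro k hk
    have hk' : k = L.length := by omega
    subst hk'
    rw [List.drop_length, Nat.zero_mul, Nat.zero_add]
    exact runs_whil_nil (k := 4) (p := itemBody p)
      (S := st [e x, y, z, e (S L.length), [], [], [], []]) rfl
  | succ n ih =>
    intro k hk
    have hlt : k < L.length := by omega
    rw [List.drop_eq_getElem_cons hlt, encL_cons]
    refine (runs_item_end (h k hlt) y z _ (ih (k + 1) (by omega))).mono ?_
    have e1 := hm k hlt
    have e2 := hS k hlt.le
    have e3 := hS (k + 1) hlt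
    have e4 : (n + 1) * (C + 14 * B + 7) = n * (C + 14 * B + 7) + (C + 14 * B + 7) := by ring
    rw [e4]
    omega

/-- The program of a loop over the items of a list. -/
def itemsProg (p0 p : Prog ℕ) : Prog ℕ :=
  .seq p0 (.seq (dup 2 5 4) (.whil 4 (itemBody p)))

theorem does_items {p0 p : Prog ℕ} {x y : Str} (L : List Str) (S : ℕ → Str)
    (c0 C B : ℕ) (hm : ∀ k (hk : k < L.length), L[k].length ≤ B)
    (hS : ∀ k ≤ L.length, (S k).length ≤ B) (h0 : Does p0 x y (encL L) (S 0) c0)
    (h : ∀ k (hk : k < L.length), Does p x (S k) L[k] (S (k + 1)) C) :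
    Does (itemsProg p0 p) x y (encL L) (S L.length)
      (c0 + ((5 * (encL L).length + 2) + (L.length * (C + 14 * B + 7) + 1))) := by
  refine Runs.seq h0 ?_
  have s1 := runs_dup 2 5 4 (by decide) (by decide) (by decide)
    [e x, e y, e (encL L), e (S 0), [], [], [], []] (by simp) rfl
  have k1 : List.getD [e x, e y, e (encL L), e (S 0), [], [], [], []] 2 [] = e (encL L) := rfl
  have k2 : List.getD [e x, e y, e (encL L), e (S 0), [], [], [], []] 4 [] = [] := rfl
  rw [k1, k2, List.append_nil, encStr_length] at s1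
  have s2 := runs_items (y := e y) (z := e (encL L)) L S C B hm hS h L.length 0 (by omega)
  rw [List.drop_zero] at s2
  have k3 : st [e x, e y, e (encL L), e (S 0), [], [], [], []] =
    st [e x, e y, e (encL L), e (S 0)] := st_pad [e x, e y, e (encL L), e (S 0)] 4
  have k4 : st [e x, e y, e (encL L), e (S L.length), [], [], [], []] =
    st [e x, e y, e (encL L), e (S L.length)] :=
      st_pad [e x, e y, e (encL L), e (S L.length)] 4
  rw [k3] at s1
  rw [k4] at s2
  exact s1.seq s2

/-- body of the loop over the bits of a string -/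
def bitBody (p : Prog ℕ) : Prog ℕ := .seq (pushr 6) (nextProg p)

theorem runs_bits {p : Prog ℕ} {x : Str} {y z : List Sym} (L : Str) (S : ℕ → Str)
    (C B : ℕ) (hS : ∀ k ≤ L.length, (S k).length ≤ B)
    (h : ∀ k (hk : k < L.length), Does p x (S k) [L[k]] (S (k + 1)) C) (n : ℕ) :
    ∀ k, k + n = L.length →
    Runs (.whil 4 (bitBody p)) (st [e x, y, z, e (S k), e (L.drop k), [], [], []])
      (st [e x, y, z, e (S L.length), [], [], [], []]) (n * (C + 6 * B + 8) + 1) := by
  induction n with
  | zero =>
    intro k hk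
    have hk' : k = L.length := by omega
    subst hk'
    rw [List.drop_length, Nat.zero_mul, Nat.zero_add]
    exact runs_whil_nil (k := 4) (p := bitBody p)
      (S := st [e x, y, z, e (S L.length), [], [], [], []]) rfl
  | succ n ih =>
    intro k hk
    have hlt : k < L.length := by omega
    rw [List.drop_eq_getElem_cons hlt]
    have k1 : e (L[k] :: L.drop (k + 1)) = some L[k] :: e (L.drop (k + 1)) := rfl
    rw [k1]
    have e2 := hS k hlt.le
    have e3 := hS (k + 1) hlt
    have e4 : (n + 1) * (C + 6 * B + 8) = n * (C + 6 * B + 8) + (C + 6 * B + 8) := by ring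
    refine (runs_whil_cons (c := 1 + (C + ((2 * (S k).length + 1) + ((2 * [L[k]].length + 1) +
      ((2 * (S (k + 1)).length + 1) + (2 * (S (k + 1)).length + 1)))))) rfl ?_
      (ih (k + 1) (by omega))).mono ?_
    · intro f
      rw [update_st _ _ _ (by simp)]
      have s1 := run_pushr (K := ℕ) 6 (some (some L[k]), f)
        (st [e x, y, z, e (S k), e (L.drop (k + 1)), [], [], []])
      rw [update_st _ _ _ (by simp)] at s1
      obtain ⟨r', c', hc', hr'⟩ := runs_next (h k hlt) y z (e (L.drop (k + 1)))
        (some (some L[k]), f)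
      exact ⟨r', 1 + c', by omega, Run.seq s1 hr'⟩
    · rw [e4]
      simp only [List.length_cons, List.length_nil]
      omega

/-- The program of a loop over the bits of a string. -/
def bitsProg (p0 p : Prog ℕ) : Prog ℕ :=
  .seq p0 (.seq (dup 2 5 4) (.whil 4 (bitBody p)))

theorem does_bits {p0 p : Prog ℕ} {x y : Str} (L : Str) (S : ℕ → Str)
    (c0 C B : ℕ) (hS : ∀ k ≤ L.length, (S k).length ≤ B) (h0 : Does p0 x y L (S 0) c0)
    (h : ∀ k (hk : k < L.length), Does p x (S k) [L[k]] (S (k + 1)) C) :
    Does (bitsProg p0 p) x y L (S L.length)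
      (c0 + ((5 * L.length + 2) + (L.length * (C + 6 * B + 8) + 1))) := by
  refine Runs.seq h0 ?_
  have s1 := runs_dup 2 5 4 (by decide) (by decide) (by decide)
    [e x, e y, e L, e (S 0), [], [], [], []] (by simp) rfl
  have k1 : List.getD [e x, e y, e L, e (S 0), [], [], [], []] 2 [] = e L := rfl
  have k2 : List.getD [e x, e y, e L, e (S 0), [], [], [], []] 4 [] = [] := rfl
  rw [k1, k2, List.append_nil, encStr_length] at s1
  have s2 := runs_bits (y := e y) (z := e L) L S C B hS h L.length 0 (by omega)
  rw [List.drop_zero] at s2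
  have k3 : st [e x, e y, e L, e (S 0), [], [], [], []] = st [e x, e y, e L, e (S 0)] :=
    st_pad [e x, e y, e L, e (S 0)] 4
  have k4 : st [e x, e y, e L, e (S L.length), [], [], [], []] =
    st [e x, e y, e L, e (S L.length)] := st_pad [e x, e y, e L, e (S L.length)] 4
  rw [k3] at s1
  rw [k4] at s2
  exact s1.seq s2

/-! ### Closure properties -/

section
variable {ι : Type*} {u v w : ι → Str}

theorem F3.arg1 : F3 u v w u := by
  refine F3_iff.2 ⟨dup 0 4 3, 5 * Polynomial.X + 2, fun i => (does_u _ _ _).mono ?_⟩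
  simp only [Polynomial.eval_add, Polynomial.eval_mul, Polynomial.eval_X, Polynomial.eval_ofNat]
  omega

theorem F3.arg2 : F3 u v w v := by
  refine F3_iff.2 ⟨dup 1 4 3, 5 * Polynomial.X + 2, fun i => (does_v _ _ _).mono ?_⟩
  simp only [Polynomial.eval_add, Polynomial.eval_mul, Polynomial.eval_X, Polynomial.eval_ofNat]
  omega

theorem F3.arg3 : F3 u v w w := by
  refine F3_iff.2 ⟨dup 2 4 3, 5 * Polynomial.X + 2, fun i => (does_w _ _ _).mono ?_⟩
  simp only [Polynomial.eval_add, Polynomial.eval_mul, Polynomial.eval_X, Polynomial.eval_ofNat]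
  omega

theorem F3.nil : F3 u v w (fun _ => []) :=
  F3_iff.2 ⟨nop, 1, fun i => (does_nil _ _ _).mono (by simp)⟩

theorem F3.cons {f : ι → Str} (h : F3 u v w f) (b : Bool) : F3 u v w (fun i => b :: f i) := by
  obtain ⟨p, P, h⟩ := F3_iff.1 h
  exact F3_iff.2 ⟨_, P + 1, fun i => ((h i).cons b).mono (by simp)⟩

theorem F3.tail {f : ι → Str} (h : F3 u v w f) : F3 u v w (fun i => (f i).tail) := by
  obtain ⟨p, P, h⟩ := F3_iff.1 h
  exact F3_iff.2 ⟨_, P + 1, fun i => ((h i).tail).mono (by simp)⟩

theorem F3.comp {a b d f : ι → Str} (h1 : F3 u v w a) (h2 : F3 u v w b) (h3 : F3 u v w d)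
    (h : F3 a b d f) : F3 u v w f := by
  obtain ⟨p1, P1, h1⟩ := F3_iff.1 h1
  obtain ⟨p2, P2, h2⟩ := F3_iff.1 h2
  obtain ⟨p3, P3, h3⟩ := F3_iff.1 h3
  obtain ⟨p, P, h⟩ := F3_iff.1 h
  refine F3_iff.2 ⟨compProg p1 p2 p3 p, P.comp (P1 + P2 + P3) + 3 * (P1 + P2 + P3) + 3,
    fun i => ((h1 i).comp (h2 i) (h3 i) (h i)).mono ?_⟩
  have l1 := (h1 i).length_le
  have l2 := (h2 i).length_le
  have l3 := (h3 i).length_le
  have l4 := eval_mono P (Nat.add_le_add (Nat.add_le_add l1 l2) l3)
  simp only [Polynomial.eval_add, Polynomial.eval_mul, Polynomial.eval_comp,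
    Polynomial.eval_ofNat]
  omega

/-- Case distinction on the first letter of a computed string. -/
theorem F3.cond {t f : ι → Str} (h : F3 u v w t)
    (h0 : F3 (fun i : {i // t i = []} => u i) (fun i => v i) (fun i => w i) (fun i => f i))
    (h1 : F3 (fun i : {i // (t i).head? = some false} => u i) (fun i => v i) (fun i => w i)
      (fun i => f i))
    (h2 : F3 (fun i : {i // (t i).head? = some true} => u i) (fun i => v i) (fun i => w i)
      (fun i => f i)) : F3 u v w f := by
  obtain ⟨p, P, h⟩ := F3_iff.1 h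
  obtain ⟨p0, P0, h0⟩ := F3_iff.1 h0
  obtain ⟨p1, P1, h1⟩ := F3_iff.1 h1
  obtain ⟨p2, P2, h2⟩ := F3_iff.1 h2
  refine F3_iff.2 ⟨condProg p p0 p1 p2, 3 * P + 4 + (P0 + P1 + P2), fun i => ?_⟩
  have l := (h i).length_le
  have hd := (h i).cond (o := f i) (d := (P0 + P1 + P2).eval ((u i).length + (v i).length +
    (w i).length))
    (fun ht => (h0 ⟨i, ht⟩).mono (by simp only [Polynomial.eval_add]; omega))
    (fun t' ht => (h1 ⟨i, by rw [ht]; rfl⟩).mono (by simp only [Polynomial.eval_add]; omega))
    (fun t' ht => (h2 ⟨i, by rw [ht]; rfl⟩).mono (by simp only [Polynomial.eval_add]; omega))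
  refine hd.mono ?_
  simp only [Polynomial.eval_add, Polynomial.eval_mul, Polynomial.eval_ofNat]
  omega

/-- Loop over the items of a list. `S i k` is the state after `k` items. -/
theorem F3.foldItems {L : ι → List Str} (S : ι → ℕ → Str)
    (h0 : F3 u v (fun i => encL (L i)) (fun i => S i 0))
    (B : Polynomial ℕ) (hB : ∀ i, ∀ k ≤ (L i).length, (S i k).length ≤
      B.eval ((u i).length + (v i).length + (encL (L i)).length))
    (h : F3 (fun i : Σ i, Fin (L i).length => u i.1) (fun i => S i.1 i.2)
      (fun i => (L i.1)[i.2]) (fun i => S i.1 (i.2 + 1))) :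
    F3 u v (fun i => encL (L i)) (fun i => S i (L i).length) := by
  obtain ⟨p0, P0, h0⟩ := F3_iff.1 h0
  obtain ⟨p, P, h⟩ := F3_iff.1 h
  refine F3_iff.2 ⟨itemsProg p0 p, P0 + 5 * Polynomial.X + 3 + Polynomial.X *
    (P.comp (2 * Polynomial.X + B) + 14 * (B + Polynomial.X) + 7), fun i => ?_⟩
  have hB' := hB i
  have h0i := h0 i
  generalize hN : (u i).length + (v i).length + (encL (L i)).length = N at hB' h0i ⊢
  have hm : ∀ k (hk : k < (L i).length), (L i)[k].length ≤ (encL (L i)).length := by
    intro k hk
    have h1 : (L i)[k] ∈ L i := List.getElem_mem hk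
    have h2 : (delim (L i)[k]).length ≤ (encL (L i)).length := by
      have := List.Sublist.length_le (List.sublist_flatten_of_mem
        (List.mem_map_of_mem (f := delim) h1))
      simpa [encL, List.flatMap] using this
    rw [length_delim] at h2
    omega
  have hlen : (L i).length ≤ (encL (L i)).length := by
    generalize L i = M
    induction M with
    | nil => simp
    | cons a M ih => rw [encL_cons, List.length_append, List.length_cons, length_delim]; omega
  have hd := does_items (x := u i) (y := v i) (L i) (S i) (P0.eval N)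
    (P.eval (2 * N + B.eval N)) (B.eval N + N)
    (fun k hk => (hm k hk).trans (by omega)) (fun k hk => (hB' k hk).trans (by omega)) h0i
    (fun k hk => (h ⟨i, ⟨k, hk⟩⟩).mono (eval_mono P (by
      have e1 := hB' k hk.le
      have e2 := hm k hk
      simp only [Fin.getElem_fin]
      omega)))
  refine hd.mono ?_
  simp only [Polynomial.eval_add, Polynomial.eval_mul, Polynomial.eval_ofNat,
    Polynomial.eval_X, Polynomial.eval_comp]
  have e3 : (L i).length * (P.eval (2 * N + B.eval N) + 14 * (B.eval N + N) + 7) ≤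
    N * (P.eval (2 * N + B.eval N) + 14 * (B.eval N + N) + 7) :=
    Nat.mul_le_mul_right _ (by omega)
  omega

/-- Loop over the bits of a string. `S i k` is the state after `k` bits. -/
theorem F3.foldBits (S : ι → ℕ → Str)
    (h0 : F3 u v w (fun i => S i 0))
    (B : Polynomial ℕ) (hB : ∀ i, ∀ k ≤ (w i).length, (S i k).length ≤
      B.eval ((u i).length + (v i).length + (w i).length))
    (h : F3 (fun i : Σ i, Fin (w i).length => u i.1) (fun i => S i.1 i.2)
      (fun i => [(w i.1)[i.2]]) (fun i => S i.1 (i.2 + 1))) :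
    F3 u v w (fun i => S i (w i).length) := by
  obtain ⟨p0, P0, h0⟩ := F3_iff.1 h0
  obtain ⟨p, P, h⟩ := F3_iff.1 h
  refine F3_iff.2 ⟨bitsProg p0 p, P0 + 5 * Polynomial.X + 3 + Polynomial.X *
    (P.comp (Polynomial.X + 1 + B) + 6 * B + 8), fun i => ?_⟩
  have hB' := hB i
  have h0i := h0 i
  generalize hN : (u i).length + (v i).length + (w i).length = N at hB' h0i ⊢
  have hd := does_bits (x := u i) (y := v i) (w i) (S i) (P0.eval N)
    (P.eval (N + 1 + B.eval N)) (B.eval N)
    (fun k hk => (hB' k hk).trans (by omega)) h0i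
    (fun k hk => (h ⟨i, ⟨k, hk⟩⟩).mono (eval_mono P (by
      have e1 := hB' k hk.le
      simp only [List.length_cons, List.length_nil]
      omega)))
  refine hd.mono ?_
  simp only [Polynomial.eval_add, Polynomial.eval_mul, Polynomial.eval_ofNat,
    Polynomial.eval_X, Polynomial.eval_comp, Polynomial.eval_one]
  have e3 : (w i).length * (P.eval (N + 1 + B.eval N) + 6 * B.eval N + 8) ≤
    N * (P.eval (N + 1 + B.eval N) + 6 * B.eval N + 8) :=
    Nat.mul_le_mul_right _ (by omega)
  omega

end

end FP
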