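import Pool.Agent.PolyTime.Strings

/-!
# Types with encodings, and polynomial-time functions between them
-/

namespace FP

open NPC Function

/-- A type whose elements are written as bit strings, injectively. -/
class Code (α : Type) where
  /-- the bit string that encodes an element -/
  enc : α → Str
  inj : Injective enc

export Code (enc)

/-- The length of the encoding. -/
def size {α : Type} [Code α] (a : α) : ℕ := (enc a).length

/-- `f` is computable in polynomial time (through programs `NPC.Prog`). -/
@[fun_prop]
def Poly {α β : Type} [Code α] [Code β] (f : α → β) : Prop :=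
  F3 (fun a => enc a) (fun _ => []) (fun _ => []) (fun a => enc (f a))

/-! ### Instances -/

theorem delim_append_inj : ∀ {x y r s : Str}, delim x ++ r = delim y ++ s → x = y ∧ r = s := by
  intro x
  induction x with
  | nil =>
    intro y r s h
    cases y with
    | nil => simpa [delim_nil] using h
    | cons b y => rw [delim_nil, delim_cons] at h; simp at h
  | cons a x ih =>
    intro y r s h
    cases y with
    | nil => rw [delim_nil, delim_cons] at h; simp at h
    | cons b y =>
      rw [delim_cons, delim_cons] at h
      simp only [List.cons_append, List.cons.injEq, true_and] at h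
      obtain ⟨h1, h2⟩ := ih h.2
      exact ⟨by rw [h.1, h1], h2⟩

theorem prS_inj {x y r s : Str} (h : prS x r = prS y s) : x = y ∧ r = s := delim_append_inj h

theorem encL_inj : Injective encL := by
  intro L
  induction L with
  | nil =>
    intro M h
    cases M with
    | nil => rfl
    | cons m M =>
      rw [encL_nil, encL_cons] at h
      have := congrArg List.length h
      rw [List.length_append, length_delim, List.length_nil] at this
      omega
  | cons a L ih =>
    intro M h
    cases M with
    | nil =>
      rw [encL_nil, encL_cons] at h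
      have := congrArg List.length h
      simp [length_delim] at this
    | cons m M =>
      rw [encL_cons, encL_cons] at h
      obtain ⟨h1, h2⟩ := delim_append_inj h
      rw [h1, ih h2]

instance : Code Unit := ⟨fun _ => [], fun _ _ _ => rfl⟩

instance : Code Bool := ⟨fun b => [b], fun a b h => by simpa using h⟩

theorem bits_injective : Injective Nat.bits := by
  intro m
  induction m using Nat.binaryRec' with
  | zero =>
    intro n h
    rcases Nat.eq_zero_or_pos n with rfl | hn
    · rfl
    · exfalso
      have := congrArg List.length h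
      rw [Nat.zero_bits, Nat.size_eq_bits_len] at this
      have := Nat.size_pos.2 hn
      simp_all
  | bit b m hb ih =>
    intro n h
    induction n using Nat.binaryRec' with
    | zero =>
      rw [Nat.zero_bits, Nat.bits_append_bit _ _ hb] at h
      simp at h
    | bit c n hc _ =>
      rw [Nat.bits_append_bit _ _ hb, Nat.bits_append_bit _ _ hc] at h
      simp only [List.cons.injEq] at h
      rw [h.1, ih h.2]

/-- Natural numbers are written in binary, least significant bit first. -/
instance : Code ℕ := ⟨Nat.bits, bits_injective⟩

instance {α β : Type} [Code α] [Code β] : Code (α × β) :=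
  ⟨fun p => prS (enc p.1) (enc p.2), fun p q h => by
    obtain ⟨h1, h2⟩ := prS_inj h
    exact Prod.ext (Code.inj h1) (Code.inj h2)⟩

instance {α : Type} [Code α] : Code (Option α) :=
  ⟨fun o => match o with
    | none => []
    | some a => true :: enc a, fun p q h => by
    rcases p with _ | p <;> rcases q with _ | q
    · rfl
    · simp at h
    · simp at h
    · simp only [List.cons.injEq, true_and] at h
      rw [Code.inj h]⟩

instance {α β : Type} [Code α] [Code β] : Code (α ⊕ β) :=
  ⟨fun o => match o with
    | .inl a => false :: enc a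
    | .inr a => true :: enc a, fun p q h => by
    rcases p with p | p <;> rcases q with q | q
    · simp only [List.cons.injEq, true_and] at h
      rw [Code.inj h]
    · simp at h
    · simp at h
    · simp only [List.cons.injEq, true_and] at h
      rw [Code.inj h]⟩

instance {α : Type} [Code α] : Code (List α) :=
  ⟨fun l => encL (l.map enc), fun p q h => by
    exact (List.map_injective_iff.2 Code.inj) (encL_inj h)⟩

/-- Integers: a sign bit, then `n` for `n ≥ 0` and `- z - 1` for `z < 0`. -/
instance : Code ℤ :=
  ⟨fun z => match z with
    | .ofNat n => false :: Nat.bits n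
    | .negSucc n => true :: Nat.bits n, fun p q h => by
    rcases p with p | p <;> rcases q with q | q
    · simp only [List.cons.injEq, true_and] at h
      rw [bits_injective h]
    · simp at h
    · simp at h
    · simp only [List.cons.injEq, true_and] at h
      rw [bits_injective h]⟩

/-- Encoding through an injection. -/
@[reducible]
def Code.ofInj {α β : Type} [Code β] (f : α → β) (hf : Injective f) : Code α :=
  ⟨fun a => enc (f a), fun _ _ h => hf (Code.inj h)⟩

instance {n : ℕ} : Code (Fin n) := Code.ofInj (fun i => (i : ℕ)) Fin.val_injective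

instance {α : Type} [Code α] {p : α → Prop} : Code {a // p a} :=
  Code.ofInj Subtype.val Subtype.val_injective

/-- Rational numbers: numerator and denominator in lowest terms. -/
instance : Code ℚ := Code.ofInj (fun q => (q.num, q.den)) (by
  intro p q h
  simp only [Prod.mk.injEq] at h
  exact Rat.ext h.1 h.2)

/-- Bit strings that are encoded as they are. -/
structure Raw where
  bits : Str

instance : Code Raw := ⟨Raw.bits, fun a b h => by cases a; cases b; simp_all⟩

theorem enc_pair {α β : Type} [Code α] [Code β] (a : α) (b : β) :
    enc (a, b) = prS (enc a) (enc b) := rfl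
theorem enc_prod {α β : Type} [Code α] [Code β] (p : α × β) :
    enc p = prS (enc p.1) (enc p.2) := rfl
theorem enc_bool (b : Bool) : enc b = [b] := rfl
theorem enc_unit (b : Unit) : enc b = [] := rfl
theorem enc_nat (n : ℕ) : enc n = Nat.bits n := rfl
theorem enc_none {α : Type} [Code α] : enc (none : Option α) = [] := rfl
theorem enc_some {α : Type} [Code α] (a : α) : enc (some a) = true :: enc a := rfl
theorem enc_inl {α β : Type} [Code α] [Code β] (a : α) :
    enc (Sum.inl a : α ⊕ β) = false :: enc a := rfl
theorem enc_inr {α β : Type} [Code α] [Code β] (a : β) :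
    enc (Sum.inr a : α ⊕ β) = true :: enc a := rfl
theorem enc_list {α : Type} [Code α] (l : List α) : enc l = encL (l.map enc) := rfl
theorem enc_nil {α : Type} [Code α] : enc ([] : List α) = [] := rfl
theorem enc_cons {α : Type} [Code α] (a : α) (l : List α) :
    enc (a :: l) = prS (enc a) (enc l) := rfl
theorem enc_append {α : Type} [Code α] (l m : List α) : enc (l ++ m) = enc l ++ enc m := by
  rw [enc_list, enc_list, enc_list, List.map_append, encL, encL, encL, List.flatMap_append]
theorem enc_raw (r : Raw) : enc r = r.bits := rfl
theorem enc_ofNat (n : ℕ) : enc (Int.ofNat n) = false :: enc n := rfl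
theorem enc_natCast (n : ℕ) : enc (n : ℤ) = false :: enc n := rfl
theorem enc_negSucc (n : ℕ) : enc (Int.negSucc n) = true :: enc n := rfl
theorem enc_fin {n : ℕ} (i : Fin n) : enc i = enc (i : ℕ) := rfl
theorem enc_subtype {α : Type} [Code α] {p : α → Prop} (a : {a // p a}) : enc a = enc a.1 := rfl

theorem size_pair {α β : Type} [Code α] [Code β] (a : α) (b : β) :
    size (a, b) = 2 * size a + 1 + size b := length_prS _ _
theorem size_prod {α β : Type} [Code α] [Code β] (p : α × β) :
    size p = 2 * size p.1 + 1 + size p.2 := length_prS _ _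
theorem size_nil {α : Type} [Code α] : size ([] : List α) = 0 := rfl
theorem size_cons {α : Type} [Code α] (a : α) (l : List α) :
    size (a :: l) = 2 * size a + 1 + size l := length_prS _ _
theorem size_append {α : Type} [Code α] (l m : List α) : size (l ++ m) = size l + size m := by
  rw [size, enc_append, List.length_append]; rfl
theorem size_bool (b : Bool) : size b = 1 := rfl
theorem size_unit (b : Unit) : size b = 0 := rfl
theorem size_nat (n : ℕ) : size n = Nat.size n := Nat.size_eq_bits_len n
theorem size_none {α : Type} [Code α] : size (none : Option α) = 0 := rfl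
theorem size_some {α : Type} [Code α] (a : α) : size (some a) = 1 + size a := by
  rw [size, enc_some, List.length_cons, add_comm]; rfl

theorem length_le_size {α : Type} [Code α] (l : List α) : l.length ≤ size l := by
  induction l with
  | nil => simp
  | cons a l ih => rw [size_cons, List.length_cons]; omega

theorem size_le_of_mem {α : Type} [Code α] {l : List α} {a : α} (h : a ∈ l) :
    2 * size a + 1 ≤ size l := by
  induction l with
  | nil => simp at h
  | cons b l ih =>
    rw [size_cons]
    rcases List.mem_cons.1 h with rfl | h
    · omega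
    · have := ih h; omega

theorem size_reverse {α : Type} [Code α] (l : List α) : size l.reverse = size l := by
  induction l with
  | nil => rfl
  | cons a l ih => rw [List.reverse_cons, size_append, ih, size_cons, size_cons, size_nil]; omega

theorem size_take_le {α : Type} [Code α] (l : List α) (k : ℕ) : size (l.take k) ≤ size l := by
  conv_rhs => rw [← List.take_append_drop k l, size_append]
  omega

/-! ### Basic closure properties -/

section
variable {α β γ δ σ : Type} [Code α] [Code β] [Code γ] [Code δ] [Code σ]

theorem Poly.size_le {f : α → β} (h : Poly f) : ∃ P : Polynomial ℕ, ∀ a,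
    size (f a) ≤ P.eval (size a) := by
  obtain ⟨P, hP⟩ := F3.length_le h
  exact ⟨P, fun a => hP a⟩

/-- A polynomial-time function of a polynomial-time value. -/
theorem Poly.str {f : α → β} (hf : Poly f) {s : β → Str}
    (hs : F3 (fun b => enc b) (fun _ => []) (fun _ => []) s) :
    F3 (fun a => enc a) (fun _ => []) (fun _ => []) (fun a => s (f a)) :=
  F3.comp hf F3.nil F3.nil (hs.reindex f)

@[fun_prop]
theorem Poly.ident : Poly (fun a : α => a) := F3.arg1

@[fun_prop]
theorem Poly.const (b : β) : Poly (fun _ : α => b) := F3.const _

@[fun_prop]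
theorem Poly.comp {g : β → γ} {f : α → β} (hg : Poly g) (hf : Poly f) : Poly (fun a => g (f a)) :=
  hf.str hg

@[fun_prop]
theorem Poly.pair {f : α → β} {g : α → γ} (hf : Poly f) (hg : Poly g) :
    Poly (fun a => (f a, g a)) := F3.pr hf hg

theorem Poly.fst' : Poly (fun p : α × β => p.1) :=
  (F3.fstS F3.arg1).congr (fun p => by rw [enc_prod, fstS_prS])

theorem Poly.snd' : Poly (fun p : α × β => p.2) :=
  (F3.sndS F3.arg1).congr (fun p => by rw [enc_prod, sndS_prS])

@[fun_prop]
theorem Poly.fst {f : α → β × γ} (hf : Poly f) : Poly (fun a => (f a).1) := Poly.fst'.comp hf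

@[fun_prop]
theorem Poly.snd {f : α → β × γ} (hf : Poly f) : Poly (fun a => (f a).2) := Poly.snd'.comp hf

theorem Poly.congr {f g : α → β} (hf : Poly f) (h : ∀ a, f a = g a) : Poly g := by
  have : f = g := funext h
  rw [← this]; exact hf

/-- Reading a two-argument function off a function of pairs, at the level of strings. -/
theorem Poly.two {g : α → β → γ} (hg : Poly (fun p : α × β => g p.1 p.2)) :
    F3 (fun p : α × β => enc p.1) (fun p => enc p.2) (fun _ => []) (fun p => enc (g p.1 p.2)) :=
  F3.comp (F3.pr F3.arg1 F3.arg2) F3.nil F3.nil hg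

theorem Poly.three {g : α → β → γ → δ} (hg : Poly (fun p : α × β × γ => g p.1 p.2.1 p.2.2)) :
    F3 (fun p : α × β × γ => enc p.1) (fun p => enc p.2.1) (fun p => enc p.2.2)
      (fun p => enc (g p.1 p.2.1 p.2.2)) :=
  F3.comp (F3.pr F3.arg1 (F3.pr F3.arg2 F3.arg3)) F3.nil F3.nil hg

theorem Poly.comp₂ {g : β → γ → δ} {f : α → β} {h : α → γ}
    (hg : Poly (fun p : β × γ => g p.1 p.2)) (hf : Poly f) (hh : Poly h) :
    Poly (fun a => g (f a) (h a)) := hg.comp (hf.pair hh)

theorem Poly.comp₃ {g : β → γ → δ → σ} {f : α → β} {h : α → γ} {k : α → δ}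
    (hg : Poly (fun p : β × γ × δ => g p.1 p.2.1 p.2.2)) (hf : Poly f) (hh : Poly h)
    (hk : Poly k) : Poly (fun a => g (f a) (h a) (k a)) := hg.comp (hf.pair (hh.pair hk))

/-! ### Booleans and conditionals -/

@[fun_prop]
theorem Poly.cond {c : α → Bool} {f g : α → β} (hc : Poly c) (hf : Poly f) (hg : Poly g) :
    Poly (fun a => bif c a then f a else g a) :=
  (F3.br (f0 := fun a => enc (g a)) hc hg hg hf).congr (fun a => by
    rw [enc_bool]; cases h : c a <;> simp [h])

@[fun_prop]
theorem Poly.not {c : α → Bool} (hc : Poly c) : Poly (fun a => !(c a)) :=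
  (Poly.cond hc (Poly.const false) (Poly.const true)).congr (fun a => by cases c a <;> rfl)

@[fun_prop]
theorem Poly.and {c d : α → Bool} (hc : Poly c) (hd : Poly d) : Poly (fun a => c a && d a) :=
  (Poly.cond hc hd (Poly.const false)).congr (fun a => by cases c a <;> rfl)

@[fun_prop]
theorem Poly.or {c d : α → Bool} (hc : Poly c) (hd : Poly d) : Poly (fun a => c a || d a) :=
  (Poly.cond hc (Poly.const true) hd).congr (fun a => by cases c a <;> rfl)

@[fun_prop]
theorem Poly.xor {c d : α → Bool} (hc : Poly c) (hd : Poly d) :
    Poly (fun a => Bool.xor (c a) (d a)) :=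
  (Poly.cond hc hd.not hd).congr (fun a => by cases c a <;> simp)

/-- A polynomial-time decidable property. -/
def PolyPred (p : α → Prop) : Prop :=
  F3 (fun a => enc a) (fun _ => []) (fun _ => []) (fun a => [@decide (p a) (Classical.dec _)])

theorem polyPred_iff {p : α → Prop} [h : ∀ a, Decidable (p a)] :
    PolyPred p ↔ Poly (fun a => decide (p a)) := by
  unfold PolyPred Poly
  have : (fun a => [@decide (p a) (Classical.dec _)]) = (fun a => enc (decide (p a))) := by
    funext a
    rw [enc_bool]
    congr
  rw [this]

@[fun_prop]
theorem PolyPred.dec {p : α → Prop} [h : ∀ a, Decidable (p a)] (hp : PolyPred p) :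
    Poly (fun a => decide (p a)) := polyPred_iff.1 hp

theorem Poly.pred {c : α → Bool} (hc : Poly c) : PolyPred (fun a => c a = true) :=
  polyPred_iff.2 (hc.congr (fun a => by simp))

theorem Poly.predF {c : α → Bool} (hc : Poly c) : PolyPred (fun a => c a = false) :=
  polyPred_iff.2 (hc.not.congr (fun a => by cases c a <;> rfl))

theorem Poly.ite {p : α → Prop} [h : ∀ a, Decidable (p a)] {f g : α → β} (hp : PolyPred p)
    (hf : Poly f) (hg : Poly g) : Poly (fun a => if p a then f a else g a) :=
  (Poly.cond hp.dec hf hg).congr (fun a => by by_cases h : p a <;> simp [h])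

theorem PolyPred.congr {p q : α → Prop} (hp : PolyPred p) (h : ∀ a, p a ↔ q a) : PolyPred q := by
  have : p = q := funext (fun a => propext (h a))
  rw [← this]; exact hp

theorem PolyPred.not {p : α → Prop} (hp : PolyPred p) : PolyPred (fun a => ¬ p a) := by
  classical
  exact polyPred_iff.2 ((polyPred_iff.1 hp).not.congr (fun a => by simp))

theorem PolyPred.and {p q : α → Prop} (hp : PolyPred p) (hq : PolyPred q) :
    PolyPred (fun a => p a ∧ q a) := by
  classical
  exact polyPred_iff.2 (((polyPred_iff.1 hp).and (polyPred_iff.1 hq)).congr (fun a => by simp))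

theorem PolyPred.or {p q : α → Prop} (hp : PolyPred p) (hq : PolyPred q) :
    PolyPred (fun a => p a ∨ q a) := by
  classical
  exact polyPred_iff.2 (((polyPred_iff.1 hp).or (polyPred_iff.1 hq)).congr (fun a => by simp))

theorem PolyPred.imp {p q : α → Prop} (hp : PolyPred p) (hq : PolyPred q) :
    PolyPred (fun a => p a → q a) := by
  classical
  exact (hp.not.or hq).congr (fun a => by by_cases h : p a <;> simp [h])

theorem PolyPred.iff {p q : α → Prop} (hp : PolyPred p) (hq : PolyPred q) :
    PolyPred (fun a => p a ↔ q a) := by
  classical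
  exact ((hp.imp hq).and (hq.imp hp)).congr (fun a => by by_cases h : p a <;> simp [h])

theorem PolyPred.const (p : Prop) : PolyPred (fun _ : α => p) := by
  classical
  exact polyPred_iff.2 (Poly.const _)

theorem PolyPred.comp {p : β → Prop} {f : α → β} (hp : PolyPred p) (hf : Poly f) :
    PolyPred (fun a => p (f a)) := by
  classical
  exact polyPred_iff.2 ((polyPred_iff.1 hp).comp hf)

theorem PolyPred.eq {f g : α → β} (hf : Poly f) (hg : Poly g) : PolyPred (fun a => f a = g a) := by
  classical
  refine polyPred_iff.2 ((F3.eqS hf hg).congr (fun a => ?_))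
  rw [enc_bool]
  congr 1
  exact decide_eq_decide.2 Code.inj.eq_iff

@[fun_prop]
theorem Poly.decideEq [DecidableEq β] {f g : α → β} (hf : Poly f) (hg : Poly g) :
    Poly (fun a => decide (f a = g a)) := (PolyPred.eq hf hg).dec

/-! ### Options -/

@[fun_prop]
theorem Poly.some' {f : α → β} (hf : Poly f) : Poly (fun a => some (f a)) :=
  (F3.cons hf true).congr (fun a => by rw [enc_some])

theorem Poly.optionCases {f : α → Option β} {g : α → γ} {h : α → β → γ} (hf : Poly f)
    (hg : Poly g) (hh : Poly (fun p : α × β => h p.1 p.2)) :
    Poly (fun a => match f a with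
      | Option.none => g a
      | some b => h a b) := by
  refine F3.cond hf ((hg.reindex Subtype.val).congr ?_) (F3.nil.congr ?_) ?_
  · rintro ⟨a, ha⟩
    rcases hfa : f a with _ | b
    · simp [hfa]
    · rw [hfa, enc_some] at ha; simp at ha
  · rintro ⟨a, ha⟩
    rcases hfa : f a with _ | b
    · rw [hfa, enc_none] at ha; simp at ha
    · rw [hfa, enc_some] at ha; simp at ha
  · have h1 : ∀ i : {a // (enc (f a)).head? = some true}, ∃ b, f i.1 = some b := by
      rintro ⟨a, ha⟩
      rcases hfa : f a with _ | b
      · rw [hfa, enc_none] at ha; simp at ha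
      · exact ⟨b, rfl⟩
    choose b hb using h1
    have h2 := F3.comp F3.arg1 (F3.tail (hf.reindex
      (Subtype.val : {a // (enc (f a)).head? = some true} → α))) F3.nil
      ((Poly.two hh).reindex (fun i => (i.1, b i)) |>.congr (g := fun i => enc (h i.1 (b i)))
        (fun i => rfl) |> fun h => by
        have e : (fun k : {a // (enc (f a)).head? = some true} =>
          enc ((k.1, b k) : α × β).2) = (fun k => (enc (f k.1)).tail) := by
          funext k; rw [hb k, enc_some]; rfl
        rw [e] at h; exact h)
    refine h2.congr (fun i => ?_)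
    simp only
    rw [hb i]

@[fun_prop]
theorem Poly.isSome {f : α → Option β} (hf : Poly f) : Poly (fun a => (f a).isSome) :=
  (Poly.optionCases (h := fun _ _ => true) hf (Poly.const false) (Poly.const true)).congr
    (fun a => by cases f a <;> rfl)

@[fun_prop]
theorem Poly.isNone {f : α → Option β} (hf : Poly f) : Poly (fun a => (f a).isNone) :=
  (Poly.optionCases (h := fun _ _ => false) hf (Poly.const true) (Poly.const false)).congr
    (fun a => by cases f a <;> rfl)

@[fun_prop]
theorem Poly.optionGetD {f : α → Option β} {g : α → β} (hf : Poly f) (hg : Poly g) :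
    Poly (fun a => (f a).getD (g a)) :=
  (Poly.optionCases (h := fun _ b => b) hf hg Poly.snd').congr (fun a => by cases f a <;> rfl)

theorem Poly.optionMap {f : α → Option β} {g : α → β → γ} (hf : Poly f)
    (hg : Poly (fun p : α × β => g p.1 p.2)) : Poly (fun a => (f a).map (g a)) :=
  (Poly.optionCases (h := fun a b => some (g a b)) hf (Poly.const none) hg.some').congr
    (fun a => by cases f a <;> rfl)

theorem Poly.optionBind {f : α → Option β} {g : α → β → Option γ} (hf : Poly f)
    (hg : Poly (fun p : α × β => g p.1 p.2)) : Poly (fun a => (f a).bind (g a)) :=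
  (Poly.optionCases (h := fun a b => g a b) hf (Poly.const none) hg).congr
    (fun a => by cases f a <;> rfl)

/-! ### Sums -/

@[fun_prop]
theorem Poly.inl {f : α → β} (hf : Poly f) : Poly (fun a => (Sum.inl (f a) : β ⊕ γ)) :=
  F3.cons hf false

@[fun_prop]
theorem Poly.inr {f : α → γ} (hf : Poly f) : Poly (fun a => (Sum.inr (f a) : β ⊕ γ)) :=
  F3.cons hf true

theorem Poly.sumElim {f : α → β ⊕ γ} {g : α → β → δ} {h : α → γ → δ} (hf : Poly f)
    (hg : Poly (fun p : α × β => g p.1 p.2)) (hh : Poly (fun p : α × γ => h p.1 p.2)) :
    Poly (fun a => Sum.elim (g a) (h a) (f a)) := by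
  refine F3.cond hf (F3.nil.congr ?_) ?_ ?_
  · rintro ⟨a, ha⟩
    rcases hfa : f a with b | b
    · rw [hfa, enc_inl] at ha; simp at ha
    · rw [hfa, enc_inr] at ha; simp at ha
  · have h1 : ∀ i : {a // (enc (f a)).head? = some false}, ∃ b, f i.1 = Sum.inl b := by
      rintro ⟨a, ha⟩
      rcases hfa : f a with b | b
      · exact ⟨b, rfl⟩
      · rw [hfa, enc_inr] at ha; simp at ha
    choose b hb using h1
    have h2 := F3.comp F3.arg1 (F3.tail (hf.reindex
      (Subtype.val : {a // (enc (f a)).head? = some false} → α))) F3.nil
      ((Poly.two hg).reindex (fun i => (i.1, b i)) |>.congr (g := fun i => enc (g i.1 (b i)))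
        (fun i => rfl) |> fun h => by
        have e : (fun k : {a // (enc (f a)).head? = some false} =>
          enc ((k.1, b k) : α × β).2) = (fun k => (enc (f k.1)).tail) := by
          funext k; rw [hb k, enc_inl]; rfl
        rw [e] at h; exact h)
    refine h2.congr (fun i => ?_)
    simp only
    rw [hb i]; rfl
  · have h1 : ∀ i : {a // (enc (f a)).head? = some true}, ∃ b, f i.1 = Sum.inr b := by
      rintro ⟨a, ha⟩
      rcases hfa : f a with b | b
      · rw [hfa, enc_inl] at ha; simp at ha
      · exact ⟨b, rfl⟩
    choose b hb using h1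
    have h2 := F3.comp F3.arg1 (F3.tail (hf.reindex
      (Subtype.val : {a // (enc (f a)).head? = some true} → α))) F3.nil
      ((Poly.two hh).reindex (fun i => (i.1, b i)) |>.congr (g := fun i => enc (h i.1 (b i)))
        (fun i => rfl) |> fun h => by
        have e : (fun k : {a // (enc (f a)).head? = some true} =>
          enc ((k.1, b k) : α × γ).2) = (fun k => (enc (f k.1)).tail) := by
          funext k; rw [hb k, enc_inr]; rfl
        rw [e] at h; exact h)
    refine h2.congr (fun i => ?_)
    simp only
    rw [hb i]; rfl

/-! ### Encodings through an injection, subtypes -/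

theorem Poly.subtypeVal {p : α → Prop} {f : β → {a // p a}} (hf : Poly f) :
    Poly (fun b => (f b).1) := hf

theorem Poly.subtypeMk {p : α → Prop} {f : β → {a // p a}} (hf : Poly (fun b => (f b).1)) :
    Poly f := hf

@[fun_prop]
theorem Poly.finVal {n : ℕ} {f : β → Fin n} (hf : Poly f) : Poly (fun b => ((f b : Fin n) : ℕ)) :=
  hf

theorem Poly.finMk {n : ℕ} {f : β → Fin n} (hf : Poly (fun b => ((f b : Fin n) : ℕ))) :
    Poly f := hf

end

end FP
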