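import Pool.Agent.PolyTime.Tags
import Pool.Agent.NPC.Micro

/-!
# Every Turing-machine polynomial-time function belongs to the function algebra `Poly`
-/

namespace FP

open NPC Function Turing

section
variable {ι : Type*} {u v w : ι → Str}

theorem fstS_encL (L : List Str) : fstS (encL L) = (L[0]?).getD [] := by
  cases L with
  | nil => rfl
  | cons x L => rw [encL_cons]; exact fstS_prS x (encL L)

theorem sndS_encL (L : List Str) : sndS (encL L) = encL L.tail := by
  cases L with
  | nil => rfl
  | cons x L => rw [encL_cons]; exact sndS_prS x (encL L)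

theorem F3.nth {L : ι → List Str} (h : F3 u v w (fun i => encL (L i))) (n : ℕ) :
    F3 u v w (fun i => ((L i)[n]?).getD []) := by
  induction n generalizing L with
  | zero => exact (F3.fstS h).congr (fun i => fstS_encL _)
  | succ n ih =>
    refine (ih (L := fun i => (L i).tail) ((F3.sndS h).congr (fun i => sndS_encL _))).congr
      (fun i => ?_)
    rw [List.getElem?_tail]

theorem F3.ofFn {n : ℕ} {f : ι → Fin n → Str} (h : ∀ j, F3 u v w (fun i => f i j)) :
    F3 u v w (fun i => encL (List.ofFn (f i))) := by
  induction n with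
  | zero =>
    refine F3.nil.congr (fun i => ?_)
    rw [List.ofFn_zero]; rfl
  | succ n ih =>
    simp only [List.ofFn_succ]
    exact F3.pr (h 0) (ih (fun j => h j.succ))

end

/-- Encoding of a finite type. -/
@[reducible]
noncomputable def codeFinite (α : Type) [Finite α] : Code α :=
  Code.ofInj (fun a => Finite.equivFin α a) (Finite.equivFin α).injective

/-- Encoding of families over a finite index type. -/
@[reducible]
noncomputable def codePi (K : Type) [Finite K] (β : K → Type) [∀ k, Code (β k)] :
    Code (∀ k, β k) :=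
  ⟨fun f => encL (List.ofFn (fun i : Fin (Nat.card K) => enc (f ((Finite.equivFin K).symm i)))), by
    intro f g h
    have h1 := encL_inj h
    have h2 := List.ofFn_injective h1
    funext k
    have h3 := congrFun h2 (Finite.equivFin K k)
    have h4 : (Finite.equivFin K).symm (Finite.equivFin K k) = k := Equiv.symm_apply_apply _ _
    rw [h4] at h3
    exact Code.inj h3⟩

section
variable {α β' : Type} [Code α] {K : Type} [Finite K] {β : K → Type} [∀ k, Code (β k)]

theorem Poly.pi_apply {f : α → ∀ k, β k} (hf : @Poly _ _ _ (codePi K β) f) (k : K) :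
    Poly (fun a => f a k) := by
  have h := F3.nth (L := fun a => List.ofFn (fun i : Fin (Nat.card K) =>
    enc (f a ((Finite.equivFin K).symm i)))) hf (Finite.equivFin K k)
  refine h.congr (fun a => ?_)
  have h4 : (Finite.equivFin K).symm (Finite.equivFin K k) = k := Equiv.symm_apply_apply _ _
  rw [List.getElem?_ofFn]
  simp only [Fin.is_lt, dif_pos, Option.getD_some, Fin.eta]
  rw [h4]

theorem Poly.pi_mk {f : α → ∀ k, β k} (hf : ∀ k, Poly (fun a => f a k)) :
    @Poly _ _ _ (codePi K β) f :=
  F3.ofFn (fun i => hf ((Finite.equivFin K).symm i))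

end

theorem length_encL (L : List Str) : (encL L).length = (L.map (fun x => 2 * x.length + 1)).sum := by
  induction L with
  | nil => rfl
  | cons x L ih => rw [encL_cons, List.length_append, ih, length_delim, List.map_cons, List.sum_cons]

theorem size_pi_le {K : Type} [Finite K] {β : K → Type} [∀ k, Code (β k)] (f g : ∀ k, β k) (C : ℕ)
    (h : ∀ k, size (f k) ≤ size (g k) + C) :
    @size _ (codePi K β) f ≤ @size _ (codePi K β) g + Nat.card K * (2 * C) := by
  unfold size
  change (encL (List.ofFn (fun i : Fin (Nat.card K) =>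
    enc (f ((Finite.equivFin K).symm i))))).length ≤ (encL (List.ofFn (fun i : Fin (Nat.card K) =>
    enc (g ((Finite.equivFin K).symm i))))).length + Nat.card K * (2 * C)
  rw [length_encL, length_encL, List.map_ofFn, List.map_ofFn, List.sum_ofFn, List.sum_ofFn]
  calc ∑ i : Fin (Nat.card K), ((fun x : Str => 2 * x.length + 1) ∘ fun i =>
        enc (f ((Finite.equivFin K).symm i))) i
      ≤ ∑ i : Fin (Nat.card K), (((fun x : Str => 2 * x.length + 1) ∘ fun i =>
        enc (g ((Finite.equivFin K).symm i))) i + 2 * C) := by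
        apply Finset.sum_le_sum
        intro i _
        have := h ((Finite.equivFin K).symm i)
        unfold size at this
        simp only [comp_apply]
        omega
    _ = _ := by
        rw [Finset.sum_add_distrib, Finset.sum_const, Finset.card_univ, Fintype.card_fin,
          smul_eq_mul]

theorem size_bdd_finite (α : Type) [Finite α] [Code α] : ∃ C, ∀ a : α, size a ≤ C := by
  haveI := Fintype.ofFinite α
  exact ⟨Finset.univ.sup size, fun a => Finset.le_sup (f := size) (Finset.mem_univ a)⟩

section Mach

variable {Q K : Type} {Γ : K → Type} [Finite Q] [Finite K] [∀ k, Finite (Γ k)]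

/-- one step of an abstract machine -/
def astep (ctl : Q → (∀ k, Option (Γ k)) → Q) (op : Q → (∀ k, Option (Γ k)) → ∀ k, Op (Γ k))
    (c : Q × (∀ k, List (Γ k))) : Q × (∀ k, List (Γ k)) :=
  (ctl c.1 (fun k => (c.2 k).head?), fun k => (op c.1 (fun j => (c.2 j).head?) k).app (c.2 k))

attribute [local instance] codePi

theorem poly_astep [Code Q] [∀ k, Code (Γ k)] (ctl : Q → (∀ k, Option (Γ k)) → Q)
    (op : Q → (∀ k, Option (Γ k)) → ∀ k, Op (Γ k)) : Poly (astep ctl op) := by
  have hS : ∀ k, Poly (fun c : Q × (∀ k, List (Γ k)) => c.2 k) := fun k =>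
    Poly.pi_apply (f := fun c : Q × (∀ k, List (Γ k)) => c.2) Poly.snd' k
  have hH : Poly (fun c : Q × (∀ k, List (Γ k)) => (fun k => (c.2 k).head?)) :=
    Poly.pi_mk (fun k => Poly.head? (hS k))
  have hQH : Poly (fun c : Q × (∀ k, List (Γ k)) => (c.1, (fun k => (c.2 k).head?))) :=
    Poly.pair Poly.fst' hH
  have h1 : Poly (fun c : Q × (∀ k, List (Γ k)) => ctl c.1 (fun k => (c.2 k).head?)) :=
    (Poly.ofFinite (fun p : Q × (∀ k, Option (Γ k)) => ctl p.1 p.2)).comp hQH
  refine Poly.pair h1 (Poly.pi_mk (fun k => ?_))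
  refine Poly.finCases (f := fun c : Q × (∀ k, List (Γ k)) => (c.1, (fun k => (c.2 k).head?)))
    (g := fun i c => (op i.1 i.2 k).app (c.2 k)) hQH (fun i => ?_)
  rcases op i.1 i.2 k with _ | a | _
  · exact hS k
  · exact Poly.cons (Poly.const a) (hS k)
  · exact Poly.listTail (hS k)

theorem size_astep [Code Q] [∀ k, Code (Γ k)] (ctl : Q → (∀ k, Option (Γ k)) → Q)
    (op : Q → (∀ k, Option (Γ k)) → ∀ k, Op (Γ k)) :
    ∃ C, ∀ c : Q × (∀ k, List (Γ k)), size (astep ctl op c) ≤ size c + C := by
  obtain ⟨C1, hC1⟩ := size_bdd_finite Q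
  have h2 : ∃ C, ∀ k, ∀ a : Γ k, size a ≤ C := by
    have : ∀ k, ∃ C, ∀ a : Γ k, size a ≤ C := fun k => size_bdd_finite (Γ k)
    choose C hC using this
    have := Fintype.ofFinite K
    exact ⟨Finset.univ.sup C, fun k a => (hC k a).trans (Finset.le_sup (f := C)
      (Finset.mem_univ k))⟩
  obtain ⟨C2, hC2⟩ := h2
  refine ⟨2 * C1 + Nat.card K * (2 * (2 * C2 + 1)), fun c => ?_⟩
  have h3 := size_pi_le (K := K) (β := fun k => List (Γ k)) (astep ctl op c).2 c.2 (2 * C2 + 1) (by
    intro k
    change size ((op c.1 (fun j => (c.2 j).head?) k).app (c.2 k)) ≤ _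
    rcases op c.1 (fun j => (c.2 j).head?) k with _ | a | _
    · exact Nat.le_add_right _ _
    · change size (a :: c.2 k) ≤ _
      rw [size_cons]
      have := hC2 k a
      omega
    · change size ((c.2 k).tail) ≤ _
      cases hc : c.2 k with
      | nil => simp
      | cons b l => rw [List.tail_cons, size_cons]; omega)
  have h4 := hC1 (astep ctl op c).1
  rw [size_prod (astep ctl op c), size_prod c]
  omega

end Mach

section
variable {α β γ δ σ : Type} [Code α] [Code β] [Code γ] [Code δ] [Code σ]

@[fun_prop]
theorem Poly.polyEval (P : Polynomial ℕ) {f : α → ℕ} (hf : Poly f) :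
    Poly (fun a => P.eval (f a)) := by
  induction P using Polynomial.induction_on' with
  | add P Q hP hQ => simp only [Polynomial.eval_add]; fun_prop
  | monomial n c => simp only [Polynomial.eval_monomial]; fun_prop

@[fun_prop]
theorem PolyBdd.polyEval (P : Polynomial ℕ) {f : α → ℕ} (hf : PolyBdd f) :
    PolyBdd (fun a => P.eval (f a)) := by
  obtain ⟨Q, hQ⟩ := hf
  exact ⟨P.comp Q, fun a => by rw [Polynomial.eval_comp]; exact eval_mono P (hQ a)⟩

attribute [local instance] codePi in
theorem poly_machine {Q K : Type} {Γ : K → Type} [Finite Q] [Finite K] [∀ k, Finite (Γ k)]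
    [DecidableEq K] (ctl : Q → (∀ k, Option (Γ k)) → Q)
    (op : Q → (∀ k, Option (Γ k)) → ∀ k, Op (Γ k)) (q0 : Q) (k₀ k₁ : K)
    {α αΓ βΓ : Type} [Code α] [Code αΓ] [Code βΓ] [Finite αΓ] (ia : αΓ → Γ k₀)
    (ob : Γ k₁ → βΓ) {ea : α → List αΓ} (hea : Poly ea) (T : Polynomial ℕ) :
    Poly (fun a => (((astep ctl op)^[T.eval (ea a).length]
      (q0, update (fun _ => []) k₀ ((ea a).map ia))).2 k₁).map ob) := by
  letI : Code Q := codeFinite Q
  letI : ∀ k, Code (Γ k) := fun k => codeFinite (Γ k)
  have hin : Poly (fun a => (ea a).map ia) :=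
    Poly.map (g := fun _ b => ia b) hea ((Poly.ofFinite ia).comp Poly.snd')
  have hc0 : Poly (fun a => (q0, update (fun k => ([] : List (Γ k))) k₀ ((ea a).map ia))) := by
    refine Poly.pair (Poly.const q0) (Poly.pi_mk (fun k => ?_))
    by_cases hk : k = k₀
    · subst hk
      refine hin.congr (fun a => ?_)
      rw [update_self]
    · refine (Poly.const ([] : List (Γ k))).congr (fun a => ?_)
      rw [update_of_ne hk]
  obtain ⟨C, hC⟩ := size_astep ctl op
  have hiter : ∀ (k : ℕ) (c : Q × (∀ k, List (Γ k))),
      size ((astep ctl op)^[k] c) ≤ size c + k * C := by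
    intro k
    induction k with
    | zero => intro c; simp
    | succ k ih =>
      intro c
      rw [iterate_succ_apply']
      have h1 := hC ((astep ctl op)^[k] c)
      have h2 := ih c
      have h3 : (k + 1) * C = k * C + C := by ring
      omega
  have hlen : Poly (fun a => (ea a).length) := hea.length
  have hlenb : PolyBdd (fun a => (ea a).length) := PolyBdd.length hea
  have hTp : Poly (fun a => T.eval (ea a).length) := Poly.polyEval T hlen
  have hTb : PolyBdd (fun a => T.eval (ea a).length) := PolyBdd.polyEval T hlenb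
  obtain ⟨BT, hBT⟩ := hTb
  obtain ⟨B0, hB0⟩ := hc0.size_le
  have hrun : Poly (fun a => (astep ctl op)^[T.eval (ea a).length]
      (q0, update (fun k => ([] : List (Γ k))) k₀ ((ea a).map ia))) := by
    refine Poly.iterate (h := fun _ c => astep ctl op c) hTp ⟨BT, hBT⟩ hc0
      ((poly_astep ctl op).comp Poly.snd') (B0 + BT * Polynomial.C C) ?_
    intro a k hk
    refine (hiter k _).trans ?_
    rw [Polynomial.eval_add, Polynomial.eval_mul, Polynomial.eval_C]
    have h1 := hB0 a
    have h2 := Nat.mul_le_mul_right C (hk.trans (hBT a))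
    omega
  have hout := Poly.pi_apply hrun.snd k₁
  exact Poly.map (g := fun _ b => ob b) hout ((Poly.ofFinite ob).comp Poly.snd')

/-- Every function computable in polynomial time by a Turing machine is in the algebra: if the
input string `ea a` is a polynomial-time function of `a`, so is the output string. -/
theorem poly_of_polyTime {α β αΓ βΓ : Type} [Code α] [Code αΓ] [Code βΓ] {ea : α → List αΓ}
    {eb : β → List βΓ} {f : α → β} (hea : Poly ea) (h : NPC.PolyTime ea eb f) :
    Poly (fun a => eb (f a)) := by
  obtain ⟨F, hF⟩ := h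
  obtain ⟨D, hD⟩ := exists_ssize_bound F.tm
  letI := F.tm.ΛFin
  letI := F.tm.kFin
  letI := F.tm.σFin
  have i1 : Finite (machOf F.tm).Q :=
    inferInstanceAs (Finite ({q : Option (TM2.Stmt F.tm.Γ F.tm.Λ F.tm.σ) //
      q ∈ TM2.stmts F.tm.m Finset.univ} × F.tm.σ))
  have i2 : Finite (machOf F.tm).K := inferInstanceAs (Finite F.tm.K)
  have i3 : ∀ k, Finite ((machOf F.tm).Γ k) := hF
  letI i4 : DecidableEq (machOf F.tm).K := F.tm.kDecidableEq
  have i5 : Finite αΓ := by
    have := hF F.tm.k₀
    exact Finite.of_equiv _ F.inputAlphabet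
  let q0 : (machOf F.tm).Q := (⟨some (F.tm.m F.tm.main), by
    simp only [TM2.stmts, Finset.mem_insertNone, Finset.mem_biUnion, Finset.mem_univ, true_and,
      Option.mem_def, Option.some.injEq, forall_eq']
    exact ⟨F.tm.main, TM2.stmts₁_self⟩⟩, F.tm.initialState)
  have key := @poly_machine (machOf F.tm).Q (machOf F.tm).K (machOf F.tm).Γ i1 i2 i3 i4
    (machOf F.tm).ctl (machOf F.tm).op q0 F.tm.k₀ F.tm.k₁ α αΓ βΓ _ _ _ i5
    F.inputAlphabet.invFun F.outputAlphabet ea hea (Polynomial.C D * F.time)
  refine key.congr (fun a => ?_)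
  -- correctness
  have h1 := (F.outputsFun a).evals_in_steps
  have h1' := (F.outputsFun a).steps_le_m
  set n := (F.outputsFun a).steps with hn
  have s1 : Steps (TM2.step F.tm.m) n ⟨some F.tm.main, F.tm.initialState,
      update (fun _ => []) F.tm.k₀ ((ea a).map F.inputAlphabet.invFun)⟩
      ⟨none, F.tm.initialState, update (fun _ => []) F.tm.k₁
        ((eb (f a)).map F.outputAlphabet.invFun)⟩ := by
    have := h1
    rw [Option.map_some, initList_eq, haltList_eq] at this
    exact this
  obtain ⟨n', hn', h2⟩ := rstep_steps F.tm.m D hD n _ _ s1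
  have hle : n' ≤ (Polynomial.C D * F.time).eval (ea a).length := by
    refine hn'.trans ?_
    rw [Polynomial.eval_mul, Polynomial.eval_C, Nat.mul_comm]
    exact Nat.mul_le_mul_left _ h1'
  obtain ⟨t, ht⟩ := Nat.exists_eq_add_of_le hle
  have h3 : forget F.tm ((machOf F.tm).step^[(Polynomial.C D * F.time).eval (ea a).length]
      (q0, update (fun _ => []) F.tm.k₀ ((ea a).map F.inputAlphabet.invFun))) =
      ((none, F.tm.initialState), update (fun _ => []) F.tm.k₁
        ((eb (f a)).map F.outputAlphabet.invFun)) := by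
    rw [ht, Nat.add_comm, iterate_add_apply, forget_iterate, forget_iterate]
    have e1 : forget F.tm (q0, update (fun _ => []) F.tm.k₀ ((ea a).map F.inputAlphabet.invFun)) =
        ((some (F.tm.m F.tm.main), F.tm.initialState),
          update (fun _ => []) F.tm.k₀ ((ea a).map F.inputAlphabet.invFun)) := rfl
    rw [e1]
    have h4 : (rstep F.tm.m)^[n'] ((some (F.tm.m F.tm.main), F.tm.initialState),
          update (fun _ => []) F.tm.k₀ ((ea a).map F.inputAlphabet.invFun)) =
        ((none, F.tm.initialState), update (fun _ => []) F.tm.k₁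
          ((eb (f a)).map F.outputAlphabet.invFun)) := h2
    rw [h4]
    exact rstep_none _ _ _ _
  have h5 := congrArg (fun c => c.2 F.tm.k₁) h3
  have h6 : ((machOf F.tm).step^[(Polynomial.C D * F.time).eval (ea a).length]
      (q0, update (fun _ => []) F.tm.k₀ ((ea a).map F.inputAlphabet.invFun))).2 F.tm.k₁ =
      (eb (f a)).map F.outputAlphabet.invFun := by
    refine Eq.trans h5 ?_
    change update (fun _ => []) F.tm.k₁ _ F.tm.k₁ = _
    rw [update_self]
  refine (congrArg (List.map F.outputAlphabet) h6).trans ?_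
  rw [List.map_map]
  conv_rhs => rw [← List.map_id (eb (f a))]
  apply List.map_congr_left
  intro b _
  exact F.outputAlphabet.apply_symm_apply b

/-- A verifier for pairs `w # x`. -/
theorem poly_of_polyTime_pair {V : List Bool × List Bool → Bool}
    (h : NPC.PolyTime encPair encBool V) : Poly V := by
  have h1 : Poly encPair := by
    unfold encPair
    have hs : Poly (fun b : Bool => (some b : Sym)) := by fun_prop
    refine Poly.append (Poly.map (g := fun _ b => some b) (by fun_prop) (by fun_prop))
      (Poly.cons (Poly.const _) (Poly.map (g := fun _ b => some b) (by fun_prop) (by fun_prop)))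
  have h2 := poly_of_polyTime h1 h
  have h3 : Poly (fun p => (((encBool (V p)).head?).getD none).getD false) := by fun_prop
  exact h3.congr (fun p => rfl)

/-- Functions on strings. -/
theorem poly_of_polyTime_str {f : List Bool → List Bool} (h : NPC.PolyTime encStr encStr f) :
    Poly f := by
  have h1 : Poly encStr := Poly.map (g := fun _ b => some b) (by fun_prop) (by fun_prop)
  have h2 := poly_of_polyTime h1 h
  refine (Poly.map (g := fun _ b => Option.getD b false) h2 (by fun_prop)).congr (fun a => ?_)
  rw [encStr, List.map_map]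
  conv_rhs => rw [← List.map_id (f a)]
  rfl

end

end FP
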