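import Pool.Agent.NPC.Classes
import Pool.Agent.NPC.CompTM

/-!
# Polynomial-time string functions of three arguments, through `NPC.Prog`
-/

namespace NPC

/-- Rename the stacks of a program. -/
def Prog.map {K K' : Type} (ρ : K → K') : Prog K → Prog K'
  | .push k f => .push (ρ k) f
  | .pop k => .pop (ρ k)
  | .load f => .load f
  | .seq p q => .seq (p.map ρ) (q.map ρ)
  | .ite f p q => .ite f (p.map ρ) (q.map ρ)
  | .whil k p => .whil (ρ k) (p.map ρ)

theorem Run.map {K K' : Type} [DecidableEq K] [DecidableEq K'] {ρ : K → K'}
    (hρ : Function.Injective ρ) {p : Prog K} {r T r' T' c} (h : Run p r T r' T' c) :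
    ∀ S : Stk K', (∀ k, S (ρ k) = T k) → ∃ S' : Stk K', (∀ k, S' (ρ k) = T' k) ∧
      (∀ j, (∀ k, ρ k ≠ j) → S' j = S j) ∧ Run (p.map ρ) r S r' S' c := by
  induction h with
  | push k f r T =>
    intro S hS
    refine ⟨Function.update S (ρ k) (f r :: S (ρ k)), ?_, ?_, Run.push _ _ _ _⟩
    · intro j
      by_cases hj : j = k
      · subst hj; simp [hS]
      · rw [Function.update_of_ne (fun h => hj (hρ h)), Function.update_of_ne hj, hS]
    · intro j hj
      rw [Function.update_of_ne (fun h => hj k h.symm)]
  | pop k r T =>
    intro S hS
    refine ⟨Function.update S (ρ k) (S (ρ k)).tail, ?_, ?_, ?_⟩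
    · intro j
      by_cases hj : j = k
      · subst hj; simp [hS]
      · rw [Function.update_of_ne (fun h => hj (hρ h)), Function.update_of_ne hj, hS]
    · intro j hj
      rw [Function.update_of_ne (fun h => hj k h.symm)]
    · rw [← hS k]; exact Run.pop _ _ _
  | load f r T => intro S hS; exact ⟨S, hS, fun _ _ => rfl, Run.load _ _ _⟩
  | seq h1 h2 ih1 ih2 =>
    intro S hS
    obtain ⟨S1, a1, b1, c1⟩ := ih1 S hS
    obtain ⟨S2, a2, b2, c2⟩ := ih2 S1 a1
    exact ⟨S2, a2, fun j hj => (b2 j hj).trans (b1 j hj), Run.seq c1 c2⟩
  | iteT hf h ih =>
    intro S hS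
    obtain ⟨S1, a1, b1, c1⟩ := ih S hS
    exact ⟨S1, a1, b1, Run.iteT hf c1⟩
  | iteF hf h ih =>
    intro S hS
    obtain ⟨S1, a1, b1, c1⟩ := ih S hS
    exact ⟨S1, a1, b1, Run.iteF hf c1⟩
  | whilE hk => intro S hS; exact ⟨S, hS, fun _ _ => rfl, Run.whilE (by rw [hS, hk])⟩
  | whilS hk h1 h2 ih1 ih2 =>
    rename_i k p r T a l r' T' r'' T'' m n
    intro S hS
    obtain ⟨S1, a1, b1, c1⟩ := ih1 (Function.update S (ρ k) l) (by
      intro j
      by_cases hj : j = k
      · subst hj; simp
      · rw [Function.update_of_ne (fun h => hj (hρ h)), Function.update_of_ne hj, hS])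
    obtain ⟨S2, a2, b2, c2⟩ := ih2 S1 a1
    refine ⟨S2, a2, fun j hj => ?_, Run.whilS (by rw [hS, hk]) c1 c2⟩
    rw [b2 j hj, b1 j hj, Function.update_of_ne (fun h => hj k h.symm)]

theorem Run.length_le {K : Type} [DecidableEq K] {p : Prog K} {r T r' T' c}
    (h : Run p r T r' T' c) : ∀ k, (T' k).length ≤ (T k).length + c := by
  induction h with
  | push k f r T =>
    intro j
    by_cases hj : j = k
    · subst hj; simp
    · rw [Function.update_of_ne hj]; omega
  | pop k r T =>
    intro j
    by_cases hj : j = k
    · subst hj; simp; omega
    · rw [Function.update_of_ne hj]; omega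
  | load f r T => intro j; omega
  | seq h1 h2 ih1 ih2 => intro j; have := ih1 j; have := ih2 j; omega
  | iteT hf h ih => intro j; have := ih j; omega
  | iteF hf h ih => intro j; have := ih j; omega
  | whilE hk => intro j; omega
  | whilS hk h1 h2 ih1 ih2 =>
    rename_i k p r T a l r' T' r'' T'' m n
    intro j
    have e1 := ih1 j
    have e2 := ih2 j
    by_cases hj : j = k
    · subst hj
      rw [Function.update_self] at e1
      rw [hk, List.length_cons]
      omega
    · rw [Function.update_of_ne hj] at e1
      omega

end NPC

namespace FP

open NPC Function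

/-- Bit strings. -/
abbrev Str := List Bool

/-- The state with the given contents in the first stacks. -/
def st (l : List (List Sym)) : Stk ℕ := fun k => l.getD k []

theorem st_apply (l : List (List Sym)) (k : ℕ) : st l k = l.getD k [] := rfl

theorem update_st (l : List (List Sym)) (k : ℕ) (x : List Sym) (hk : k < l.length) :
    update (st l) k x = st (l.set k x) := by
  funext j
  by_cases hj : j = k
  · subst hj
    rw [update_self, st_apply, List.getD_eq_getElem _ _ (by simpa using hk)]
    simp
  · rw [update_of_ne hj, st_apply, st_apply, List.getD_eq_getElem?_getD,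
      List.getD_eq_getElem?_getD, List.getElem?_set_ne (fun h => hj h.symm)]

theorem st_append_nil (l : List (List Sym)) : st (l ++ [[]]) = st l := by
  funext j
  rw [st_apply, st_apply, List.getD_eq_getElem?_getD, List.getD_eq_getElem?_getD,
    List.getElem?_append]
  split_ifs with h
  · rfl
  · rw [List.getElem?_eq_none (l := l) (by omega)]
    rcases hh : j - l.length with _ | m <;> simp

/-- Relocation of a program computing its result on stack `3`. -/
theorem relocate {ρ : ℕ → ℕ} (hρ : Injective ρ) {p : Prog ℕ} {x y z o : List Sym} {r r' c}
    (h : Run p r (st [x, y, z]) r' (st [x, y, z, o]) c) (S : Stk ℕ)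
    (hS : ∀ k, S (ρ k) = st [x, y, z] k) :
    Run (p.map ρ) r S r' (update S (ρ 3) o) c := by
  obtain ⟨S', a, b, hr⟩ := h.map hρ S hS
  have : S' = update S (ρ 3) o := by
    funext j
    by_cases hj : ∃ k, ρ k = j
    · obtain ⟨k, rfl⟩ := hj
      rw [a k]
      by_cases hk : k = 3
      · subst hk; rw [update_self]; rfl
      · rw [update_of_ne (fun h => hk (hρ h)), hS k]
        match k with
        | 0 => rfl
        | 1 => rfl
        | 2 => rfl
        | 3 => exact absurd rfl hk
        | k + 4 => rfl
    · push_neg at hj
      rw [b j hj, update_of_ne (fun h => hj 3 h.symm)]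
  rw [← this]; exact hr

/-- copy `k` on top of `k'` through `t` -/
def dup {K : Type} (k t k' : K) : Prog K := .seq (move k t) (.whil t (.seq (pushr k) (pushr k')))

theorem run_dup_aux {K : Type} [DecidableEq K] (k t k' : K) (h1 : k ≠ t) (h2 : k' ≠ t)
    (h3 : k ≠ k') : ∀ (l : List Sym) (r : Reg) (S : Stk K), S t = l →
    Run (.whil t (.seq (pushr k) (pushr k'))) r S (none, r.2)
      (update (update (update S t []) k (l.reverse ++ S k)) k' (l.reverse ++ S k'))
      (3 * l.length + 1) := by
  intro l
  induction l with
  | nil =>
    intro r S h
    have e1 : (update (update (update S t []) k (([] : List Sym).reverse ++ S k)) k'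
        (([] : List Sym).reverse ++ S k')) = S := by
      funext j
      by_cases hj : j = k'
      · subst hj; simp
      · rw [update_of_ne hj]
        by_cases hj2 : j = k
        · subst hj2; simp
        · rw [update_of_ne hj2]
          by_cases hj3 : j = t
          · subst hj3; rw [update_self, h]
          · rw [update_of_ne hj3]
    rw [e1]
    exact Run.whilE h
  | cons a l ih =>
    intro r S h
    have s1 := run_pushr (K := K) k (some a, r.2) (update S t l)
    have s2 := run_pushr (K := K) k' (some a, r.2)
      (update (update S t l) k (a :: (update S t l) k))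
    have s3 := ih (some a, r.2) (update (update (update S t l) k (a :: (update S t l) k)) k'
      (a :: (update (update S t l) k (a :: (update S t l) k)) k')) (by
      rw [update_of_ne h2.symm, update_of_ne h1.symm, update_self])
    have s4 := Run.whilS (p := .seq (pushr k) (pushr k')) h (Run.seq s1 s2) s3
    have e1 : (update (update (update (update (update (update S t l) k (a :: (update S t l) k)) k'
        (a :: (update (update S t l) k (a :: (update S t l) k)) k')) t []) k
        (l.reverse ++ (update (update (update S t l) k (a :: (update S t l) k)) k'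
        (a :: (update (update S t l) k (a :: (update S t l) k)) k')) k)) k'
        (l.reverse ++ (update (update (update S t l) k
        (a :: (update S t l) k)) k'
        (a :: (update (update S t l) k (a :: (update S t l) k)) k')) k')) =
        (update (update (update S t []) k ((a :: l).reverse ++ S k)) k'
        ((a :: l).reverse ++ S k')) := by
      funext j
      by_cases hj : j = k'
      · subst hj
        rw [update_self, update_self, update_self, update_of_ne h3.symm, update_of_ne h2]
        simp
      · rw [update_of_ne hj, update_of_ne hj]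
        by_cases hj2 : j = k
        · subst hj2
          rw [update_self, update_self, update_of_ne h3, update_self, update_of_ne h1]
          simp
        · rw [update_of_ne hj2, update_of_ne hj2]
          by_cases hj3 : j = t
          · subst hj3; rw [update_self, update_self]
          · rw [update_of_ne hj3, update_of_ne hj3, update_of_ne hj, update_of_ne hj2,
              update_of_ne hj3]
    rw [e1] at s4
    have e2 : 1 + 1 + (3 * l.length + 1) + 1 = 3 * (a :: l).length + 1 := by
      rw [List.length_cons]; ring
    rw [e2] at s4
    exact s4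

theorem run_dup {K : Type} [DecidableEq K] (k t k' : K) (h1 : k ≠ t) (h2 : k' ≠ t) (h3 : k ≠ k')
    (r : Reg) (S : Stk K) (ht : S t = []) :
    Run (dup k t k') r S (none, r.2) (update S k' (S k ++ S k')) (5 * (S k).length + 2) := by
  have s1 := run_move k t h1 (S k) r S rfl
  rw [ht, List.append_nil] at s1
  have s2 := run_dup_aux k t k' h1 h2 h3 (S k).reverse (none, r.2)
    (update (update S k []) t (S k).reverse) (by rw [update_self])
  have s3 := Run.seq s1 s2
  have e1 : (update (update (update (update (update S k []) t (S k).reverse) t []) k
      ((S k).reverse.reverse ++ (update (update S k []) t (S k).reverse) k)) k'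
        ((S k).reverse.reverse ++ (update (update S k []) t (S k).reverse) k')) =
      (update S k' (S k ++ S k')) := by
    funext j
    by_cases hj : j = k'
    · subst hj
      rw [update_self, update_self, update_of_ne h2, update_of_ne h3.symm, List.reverse_reverse]
    · rw [update_of_ne hj, update_of_ne hj]
      by_cases hj2 : j = k
      · subst hj2
        rw [update_self, update_of_ne h1, update_self]
        simp
      · rw [update_of_ne hj2]
        by_cases hj3 : j = t
        · subst hj3; rw [update_self, ht]
        · rw [update_of_ne hj3, update_of_ne hj3, update_of_ne hj2]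
  rw [e1] at s3
  have e2 : 2 * (S k).length + 1 + (3 * (S k).reverse.length + 1) = 5 * (S k).length + 2 := by
    rw [List.length_reverse]; ring
  rw [e2] at s3
  exact s3

/-- `f` is computed from the three arguments `u`, `v`, `w` by a program whose cost is polynomial
in the total length of the arguments. -/
def F3 {ι : Type*} (u v w f : ι → Str) : Prop :=
  ∃ (p : Prog ℕ) (P : Polynomial ℕ), ∀ i r, ∃ r' c,
    c ≤ P.eval ((u i).length + (v i).length + (w i).length) ∧
    Run p r (st [encStr (u i), encStr (v i), encStr (w i)]) r'
      (st [encStr (u i), encStr (v i), encStr (w i), encStr (f i)]) c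

theorem encStr_length (x : Str) : (encStr x).length = x.length := by simp [encStr]

theorem F3.length_le {ι : Type*} {u v w f : ι → Str} (h : F3 u v w f) :
    ∃ P : Polynomial ℕ, ∀ i, (f i).length ≤ P.eval ((u i).length + (v i).length + (w i).length) := by
  obtain ⟨p, P, h⟩ := h
  refine ⟨P, fun i => ?_⟩
  obtain ⟨r', c, hc, hr⟩ := h i (none, false)
  have := hr.length_le 3
  simp only [st_apply] at this
  rw [show List.getD [encStr (u i), encStr (v i), encStr (w i), encStr (f i)] 3 [] =
    encStr (f i) from rfl, show List.getD [encStr (u i), encStr (v i), encStr (w i)] 3 [] = [] from rfl,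
    encStr_length] at this
  simp only [List.length_nil, Nat.zero_add] at this
  exact this.trans hc

theorem F3.reindex {ι κ : Type*} {u v w f : ι → Str} (h : F3 u v w f) (φ : κ → ι) :
    F3 (fun k => u (φ k)) (fun k => v (φ k)) (fun k => w (φ k)) (fun k => f (φ k)) := by
  obtain ⟨p, P, h⟩ := h
  exact ⟨p, P, fun i r => h (φ i) r⟩

theorem F3.congr {ι : Type*} {u v w f g : ι → Str} (h : F3 u v w f) (hg : ∀ i, f i = g i) :
    F3 u v w g := by
  have : f = g := funext hg
  rw [← this]; exact h

end FP
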