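import Pool.Agent.PolyTime.Tags

/-!
# Examples of polynomial-time proofs by `fun_prop` (`Poly`, typed function algebra over TM2)
-/

namespace FP.Demo

open FP

/-- nested loops over counters, look-ups, integer arithmetic -/
def exMap (φ : List (List ℤ)) : List (ℤ × ℤ) :=
  (List.range (φ.length * 3)).flatMap fun i => (List.range (φ.length ^ 2)).flatMap fun j =>
    if (φ.getD i []).length < j ∧ (i : ℤ) ∈ φ.getD j [] then [((i : ℤ) * 2 - j, (j : ℤ) - i)]
    else []

theorem poly_exMap : Poly exMap := by
  unfold exMap
  fun_prop

/-- run of an automaton with an arbitrary (noncomputable) transition table -/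
theorem poly_dfa {m q : ℕ} (step : Fin q → Fin m → Fin q) :
    Poly (fun p : Fin q × List (Fin m) => p.2.foldl step p.1) := by
  have h := Poly.ofFinite (α := Fin q × Fin m) (β := Fin q) (fun p => step p.1 p.2)
  have h' : Poly (fun p : (Fin q × List (Fin m)) × Fin q × Fin m => step p.2.1 p.2.2) :=
    h.comp (f := fun p : (Fin q × List (Fin m)) × Fin q × Fin m => p.2) (by fun_prop)
  fun_prop

/-- a quantifier over positions, with a guard -/
theorem poly_pred : PolyPred (fun w : List ℕ => ∀ i ∈ List.range w.length,
    w.getD i 0 = 3 → ∃ j ∈ List.range w.length, i < j ∧ w.getD j 0 + i ≤ 5) := by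
  refine PolyPred.ball (by fun_prop) (PolyPred.imp (by fun_prop) (PolyPred.bex (by fun_prop) ?_))
  fun_prop

/-- an inner loop whose bound depends on the outer counter -/
def tri (w : List ℕ) : List (ℕ × ℕ) :=
  (List.range w.length).flatMap fun i => (List.range i).map fun j => (i, j)

theorem poly_tri : Poly tri := by
  unfold tri
  refine Poly.flatMap_mem (by fun_prop) (Poly.map (Poly.range ?_ ?_) ?_)
  · exact Poly.snd (Poly.subtypeVal Poly.ident)
  · refine PolyBdd.mono (g := fun p => p.1.1.length) ?_ (fun p => ?_)
    · exact PolyBdd.length (Poly.fst (Poly.subtypeVal Poly.ident))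
    · exact (List.mem_range.1 p.2).le
  · fun_prop

end FP.Demo
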