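import Pool.Agent.PolyTime.Range

/-!
# Integer arithmetic in polynomial time
-/

namespace FP

open NPC Function

section
variable {α β γ δ σ : Type} [Code α] [Code β] [Code γ] [Code δ] [Code σ]

@[fun_prop]
theorem Poly.natCast {f : α → ℕ} (hf : Poly f) : Poly (fun a => ((f a : ℕ) : ℤ)) :=
  F3.cons hf false

@[fun_prop]
theorem Poly.negSucc {f : α → ℕ} (hf : Poly f) : Poly (fun a => Int.negSucc (f a)) :=
  F3.cons hf true

@[fun_prop]
theorem Poly.toNat {f : α → ℤ} (hf : Poly f) : Poly (fun a => (f a).toNat) :=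
  (F3.br hf F3.nil (F3.tail hf) F3.nil).congr (fun a => by
    beta_reduce
    rcases f a with n | n
    · rfl
    · rw [enc_negSucc]; rfl)

/-- The negative part. -/
theorem Poly.negToNat {f : α → ℤ} (hf : Poly f) : Poly (fun a => (-(f a)).toNat) := by
  have h1 : Poly (fun a => (match f a with
    | .ofNat _ => 0
    | .negSucc n => n : ℕ)) := (F3.br hf F3.nil F3.nil (F3.tail hf)).congr (fun a => by
      beta_reduce
      rcases f a with n | n
      · rw [enc_ofNat]; rfl
      · rw [enc_negSucc]; rfl)
  have h2 : Poly (fun a => (match f a with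
    | .ofNat _ => false
    | .negSucc _ => true)) := (F3.br hf (F3.const [false]) (F3.const [false])
      (F3.const [true])).congr (fun a => by
      beta_reduce
      rcases f a with n | n
      · rw [enc_ofNat]; rfl
      · rw [enc_negSucc]; rfl)
  refine (Poly.cond h2 (h1.add (Poly.const 1)) (Poly.const 0)).congr (fun a => ?_)
  rcases f a with n | n
  · simp
  · simp only [cond_true]; rfl

theorem Poly.subCast {f g : α → ℕ} (hf : Poly f) (hg : Poly g) :
    Poly (fun a => ((f a : ℤ) - (g a : ℤ))) := by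
  refine (Poly.cond (c := fun a => decide (g a ≤ f a)) (by fun_prop)
    (Poly.natCast (hf.sub hg)) (Poly.negSucc ((hg.sub hf).sub (Poly.const 1)))).congr (fun a => ?_)
  by_cases h : g a ≤ f a
  · simp only [h, decide_true, cond_true]
    omega
  · simp only [h, decide_false, cond_false]
    rw [Int.negSucc_eq]
    omega

@[fun_prop]
theorem Poly.intAdd {f g : α → ℤ} (hf : Poly f) (hg : Poly g) : Poly (fun a => f a + g a) :=
  (Poly.subCast (hf.toNat.add hg.toNat) (hf.negToNat.add hg.negToNat)).congr (fun a => by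
    simp only [Nat.cast_add]
    omega)

@[fun_prop]
theorem Poly.intNeg {f : α → ℤ} (hf : Poly f) : Poly (fun a => -(f a)) :=
  (Poly.subCast hf.negToNat hf.toNat).congr (fun a => by omega)

@[fun_prop]
theorem Poly.intSub {f g : α → ℤ} (hf : Poly f) (hg : Poly g) : Poly (fun a => f a - g a) :=
  (hf.intAdd hg.intNeg).congr (fun a => by ring)

theorem toNat_sub_toNat_neg' (z : ℤ) : z = (z.toNat : ℤ) - ((-z).toNat : ℤ) := by omega

@[fun_prop]
theorem Poly.intMul {f g : α → ℤ} (hf : Poly f) (hg : Poly g) : Poly (fun a => f a * g a) := by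
  refine (Poly.subCast ((hf.toNat.mul hg.toNat).add (hf.negToNat.mul hg.negToNat))
    ((hf.toNat.mul hg.negToNat).add (hf.negToNat.mul hg.toNat))).congr (fun a => ?_)
  conv_rhs => rw [toNat_sub_toNat_neg' (f a), toNat_sub_toNat_neg' (g a)]
  push_cast
  ring

theorem PolyPred.intLe {f g : α → ℤ} (hf : Poly f) (hg : Poly g) :
    PolyPred (fun a => f a ≤ g a) :=
  (PolyPred.le (hf.toNat.add hg.negToNat) (hg.toNat.add hf.negToNat)).congr (fun a => by omega)

theorem PolyPred.intLt {f g : α → ℤ} (hf : Poly f) (hg : Poly g) :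
    PolyPred (fun a => f a < g a) :=
  (PolyPred.lt (hf.toNat.add hg.negToNat) (hg.toNat.add hf.negToNat)).congr (fun a => by omega)

@[fun_prop]
theorem Poly.intDecideLe {f g : α → ℤ} (hf : Poly f) (hg : Poly g) :
    Poly (fun a => decide (f a ≤ g a)) := (PolyPred.intLe hf hg).dec

@[fun_prop]
theorem Poly.intDecideLt {f g : α → ℤ} (hf : Poly f) (hg : Poly g) :
    Poly (fun a => decide (f a < g a)) := (PolyPred.intLt hf hg).dec

@[fun_prop]
theorem Poly.natAbs {f : α → ℤ} (hf : Poly f) : Poly (fun a => (f a).natAbs) :=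
  (hf.toNat.add hf.negToNat).congr (fun a => by omega)

@[fun_prop]
theorem Poly.intEdiv {f g : α → ℤ} (hf : Poly f) (hg : Poly g) : Poly (fun a => f a / g a) := by
  -- the quotient by a nonnegative number
  have key : ∀ {h : α → ℕ}, Poly h → Poly (fun a => f a / (h a : ℤ)) := by
    intro h hh
    have h1 : Poly (fun a => (((f a).toNat / h a : ℕ) : ℤ)) := by fun_prop
    have h2 : Poly (fun a => Int.negSucc (((-(f a)).toNat - 1) / h a)) :=
      Poly.negSucc ((hf.negToNat.sub (Poly.const 1)).div hh)
    refine (Poly.cond (c := fun a => decide (h a = 0)) (by fun_prop) (Poly.const 0)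
      (Poly.cond (c := fun a => decide ((0 : ℤ) ≤ f a)) (by fun_prop) h1 h2)).congr (fun a => ?_)
    by_cases h0 : h a = 0
    · simp [h0]
    · simp only [h0, decide_false, cond_false]
      rcases hf : f a with n | n
      · simp
      · have : ¬ (0 : ℤ) ≤ Int.negSucc n := by
          have := Int.negSucc_lt_zero n; omega
        simp only [this, decide_false, cond_false]
        obtain ⟨m, hm⟩ := Nat.exists_eq_succ_of_ne_zero h0
        rw [hm]
        rfl
  refine (Poly.cond (c := fun a => decide ((0 : ℤ) ≤ g a)) (by fun_prop) (key hg.toNat)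
    (key hg.negToNat).intNeg).congr (fun a => ?_)
  by_cases h : 0 ≤ g a
  · simp only [h, decide_true, cond_true]
    rw [Int.toNat_of_nonneg h]
  · simp only [h, decide_false, cond_false]
    rw [Int.toNat_of_nonneg (by omega), Int.ediv_neg, neg_neg]

@[fun_prop]
theorem Poly.intEmod {f g : α → ℤ} (hf : Poly f) (hg : Poly g) : Poly (fun a => f a % g a) :=
  (hf.intSub (hg.intMul (hf.intEdiv hg))).congr (fun a => by rw [Int.emod_def])

/-! ### Greatest common divisors, rational numbers -/

/-- step of the Euclidean algorithm -/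
def gcdStep (s : ℕ × ℕ) : ℕ × ℕ := bif decide (s.2 = 0) then s else (s.2, s.1 % s.2)

theorem gcdStep_iter (k : ℕ) : ∀ a b : ℕ, b ≤ a → a * b < 2 ^ k →
    gcdStep^[k] (a, b) = (Nat.gcd a b, 0) := by
  induction k with
  | zero =>
    intro a b hab h
    rw [pow_zero, Nat.lt_one_iff, Nat.mul_eq_zero] at h
    have : b = 0 := by rcases h with h | h <;> omega
    subst this
    simp
  | succ k ih =>
    intro a b hab h
    rw [iterate_succ_apply]
    by_cases hb : b = 0
    · subst hb
      have h1 : gcdStep (a, 0) = (a, 0) := rfl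
      rw [h1]
      exact ih a 0 (Nat.zero_le _) (by simp)
    · have h1 : gcdStep (a, b) = (b, a % b) := by simp [gcdStep, hb]
      rw [h1]
      have h2 : a % b < b := Nat.mod_lt _ (Nat.pos_of_ne_zero hb)
      have h3 : 2 * (a % b) ≤ a := by
        have h4 := Nat.div_add_mod a b
        have h5 : 1 ≤ a / b := (Nat.one_le_div_iff (Nat.pos_of_ne_zero hb)).2 hab
        have h6 : b * 1 ≤ b * (a / b) := Nat.mul_le_mul_left _ h5
        omega
      rw [ih b (a % b) h2.le]
      · rw [Nat.gcd_comm a b, Nat.gcd_comm b (a % b), ← Nat.gcd_rec]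
      · have h7 : b * (2 * (a % b)) ≤ b * a := Nat.mul_le_mul_left _ h3
        rw [pow_succ] at h
        nlinarith

theorem size_mul_le (x y : ℕ) : x * y < 2 ^ (size x + size y) := by
  rw [size_nat, size_nat, pow_add]
  have h1 := Nat.lt_size_self x
  have h2 := Nat.lt_size_self y
  exact Nat.mul_lt_mul'' h1 h2

@[fun_prop]
theorem Poly.gcd {f g : α → ℕ} (hf : Poly f) (hg : Poly g) : Poly (fun a => Nat.gcd (f a) (g a)) := by
  obtain ⟨F, hF⟩ := hf.size_le
  obtain ⟨G, hG⟩ := hg.size_le
  have hstep : Poly gcdStep := by unfold gcdStep; fun_prop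
  have h0 : Poly (fun a => (max (f a) (g a), min (f a) (g a))) := by fun_prop
  have hfuel : Poly (fun a => (f a).bits ++ (g a).bits) := by fun_prop
  have hsz : ∀ (k : ℕ) (s : ℕ × ℕ), s.2 ≤ s.1 → size (gcdStep^[k] s) ≤ 3 * size s.1 + 1 := by
    intro k
    induction k with
    | zero =>
      intro s hs
      have := size_mono hs
      rw [iterate_zero_apply, size_prod]; omega
    | succ k ih =>
      intro s hs
      rw [iterate_succ_apply]
      by_cases hb : s.2 = 0
      · have h1 : gcdStep s = s := by simp [gcdStep, hb]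
        rw [h1]; exact ih s hs
      · have h1 : gcdStep s = (s.2, s.1 % s.2) := by simp [gcdStep, hb]
        rw [h1]
        have h2 : s.1 % s.2 < s.2 := Nat.mod_lt _ (Nat.pos_of_ne_zero hb)
        have h3 := ih (s.2, s.1 % s.2) h2.le
        have h4 := size_mono hs
        simp only at h3
        omega
  have h1 : Poly (fun a => ((f a).bits ++ (g a).bits).foldl (fun s _ => gcdStep s)
      (max (f a) (g a), min (f a) (g a))) := by
    refine Poly.foldl (h := fun _ s _ => gcdStep s) hfuel h0 (hstep.comp (by fun_prop))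
      (3 * (F + G) + 1) ?_
    intro a k hk
    rw [foldl_const]
    refine (hsz _ _ (min_le_max)).trans ?_
    simp only
    have h2 : size (max (f a) (g a)) ≤ F.eval (size a) + G.eval (size a) := by
      rcases le_total (f a) (g a) with h | h
      · rw [max_eq_right h]; have := hG a; omega
      · rw [max_eq_left h]; have := hF a; omega
    simp only [Polynomial.eval_add, Polynomial.eval_mul, Polynomial.eval_ofNat,
      Polynomial.eval_one]
    omega
  refine h1.fst.congr (fun a => ?_)
  rw [foldl_const, gcdStep_iter _ _ _ min_le_max]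
  · simp only
    rcases le_total (f a) (g a) with h | h
    · rw [max_eq_right h, min_eq_left h, Nat.gcd_comm]
    · rw [max_eq_left h, min_eq_right h]
  · rw [List.length_append, max_mul_min]
    exact size_mul_le _ _

@[fun_prop]
theorem Poly.num {f : α → ℚ} (hf : Poly f) : Poly (fun a => (f a).num) :=
  Poly.fst (f := fun a => ((f a).num, (f a).den)) hf

@[fun_prop]
theorem Poly.den {f : α → ℚ} (hf : Poly f) : Poly (fun a => (f a).den) :=
  Poly.snd (f := fun a => ((f a).num, (f a).den)) hf

@[fun_prop]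
theorem Poly.ratMk {f : α → ℤ} {g : α → ℕ} (hf : Poly f) (hg : Poly g) :
    Poly (fun a => mkRat (f a) (g a)) := by
  have h1 : Poly (fun a => (bif decide (g a = 0) then ((0 : ℤ), 1) else
      (f a / (((f a).natAbs.gcd (g a) : ℕ) : ℤ), g a / (f a).natAbs.gcd (g a)) : ℤ × ℕ)) := by
    fun_prop
  have h2 : Poly (fun a => ((mkRat (f a) (g a)).num, (mkRat (f a) (g a)).den)) := by
    refine h1.congr (fun a => ?_)
    by_cases h : g a = 0
    · simp [h]
    · simp only [h, decide_false, cond_false]
      rw [Rat.mkRat_eq_divInt, ← Rat.normalize_eq_mkRat h |>.trans (Rat.mkRat_eq_divInt _ _)]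
      rw [Rat.normalize_eq]
  exact h2

@[fun_prop]
theorem Poly.ratAdd {f g : α → ℚ} (hf : Poly f) (hg : Poly g) : Poly (fun a => f a + g a) := by
  simp only [Rat.add_def']
  fun_prop

@[fun_prop]
theorem Poly.ratMul {f g : α → ℚ} (hf : Poly f) (hg : Poly g) : Poly (fun a => f a * g a) := by
  simp only [Rat.mul_def']
  fun_prop

@[fun_prop]
theorem Poly.ratNeg {f : α → ℚ} (hf : Poly f) : Poly (fun a => -(f a)) :=
  Poly.pair (f := fun a => -(f a).num) (g := fun a => (f a).den) (by fun_prop) (by fun_prop)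

@[fun_prop]
theorem Poly.ratSub {f g : α → ℚ} (hf : Poly f) (hg : Poly g) : Poly (fun a => f a - g a) := by
  simp only [sub_eq_add_neg]
  fun_prop

@[fun_prop]
theorem Poly.ratInv {f : α → ℚ} (hf : Poly f) : Poly (fun a => (f a)⁻¹) := by
  refine (Poly.cond (c := fun a => decide ((f a).num < 0)) (f := fun a =>
    mkRat (-((f a).den : ℤ)) (f a).num.natAbs) (g := fun a => mkRat ((f a).den : ℤ)
    (f a).num.natAbs) (by fun_prop) (by fun_prop) (by fun_prop)).congr (fun a => ?_)
  by_cases h : (f a).num < 0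
  · simp only [h, decide_true, cond_true]
    rw [Rat.inv_def, Rat.mkRat_eq_divInt]
    have e : (((f a).num.natAbs : ℕ) : ℤ) = -(f a).num := by omega
    rw [e, Rat.divInt_neg, neg_neg]
  · simp only [h, decide_false, cond_false]
    rw [Rat.inv_def, Rat.mkRat_eq_divInt]
    have e : (((f a).num.natAbs : ℕ) : ℤ) = (f a).num := by omega
    rw [e]

@[fun_prop]
theorem Poly.ratDiv {f g : α → ℚ} (hf : Poly f) (hg : Poly g) : Poly (fun a => f a / g a) := by
  simp only [div_eq_mul_inv]
  fun_prop

@[fun_prop]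
theorem Poly.ratIntCast {f : α → ℤ} (hf : Poly f) : Poly (fun a => ((f a : ℤ) : ℚ)) :=
  Poly.pair (f := fun a => f a) (g := fun _ => 1) (by fun_prop) (by fun_prop)

@[fun_prop]
theorem Poly.ratNatCast {f : α → ℕ} (hf : Poly f) : Poly (fun a => ((f a : ℕ) : ℚ)) :=
  Poly.pair (f := fun a => ((f a : ℕ) : ℤ)) (g := fun _ => 1) (by fun_prop) (by fun_prop)

theorem PolyPred.ratLe {f g : α → ℚ} (hf : Poly f) (hg : Poly g) :
    PolyPred (fun a => f a ≤ g a) :=
  (PolyPred.intLe (f := fun a => (f a).num * ((g a).den : ℤ))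
    (g := fun a => (g a).num * ((f a).den : ℤ)) (by fun_prop) (by fun_prop)).congr
    (fun a => (Rat.le_iff _ _).symm)

theorem PolyPred.ratLt {f g : α → ℚ} (hf : Poly f) (hg : Poly g) :
    PolyPred (fun a => f a < g a) :=
  (PolyPred.intLt (f := fun a => (f a).num * ((g a).den : ℤ))
    (g := fun a => (g a).num * ((f a).den : ℤ)) (by fun_prop) (by fun_prop)).congr
    (fun a => (Rat.lt_iff _ _).symm)

@[fun_prop]
theorem Poly.ratDecideLe {f g : α → ℚ} (hf : Poly f) (hg : Poly g) :
    Poly (fun a => decide (f a ≤ g a)) := (PolyPred.ratLe hf hg).dec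

@[fun_prop]
theorem Poly.ratDecideLt {f g : α → ℚ} (hf : Poly f) (hg : Poly g) :
    Poly (fun a => decide (f a < g a)) := (PolyPred.ratLt hf hg).dec

end

end FP
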