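import Pool.Agent.PolyTime.Code

/-!
# Polynomial-time functions on lists
-/

namespace FP

open NPC Function

section
variable {α β γ δ σ : Type} [Code α] [Code β] [Code γ] [Code δ] [Code σ]

@[fun_prop]
theorem Poly.cons {f : α → β} {g : α → List β} (hf : Poly f) (hg : Poly g) :
    Poly (fun a => f a :: g a) := F3.pr hf hg

@[fun_prop]
theorem Poly.append {f g : α → List β} (hf : Poly f) (hg : Poly g) :
    Poly (fun a => f a ++ g a) := (F3.append hf hg).congr (fun a => (enc_append _ _).symm)

theorem Poly.listCases {f : α → List β} {g : α → γ} {h : α → β → List β → γ} (hf : Poly f)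
    (hg : Poly g) (hh : Poly (fun p : α × β × List β => h p.1 p.2.1 p.2.2)) :
    Poly (fun a => match f a with
      | [] => g a
      | b :: l => h a b l) := by
  have key : ∀ c : Bool, F3 (fun i : {a // (enc (f a)).head? = some c} => enc i.1)
      (fun _ => []) (fun _ => []) (fun i => enc (match f i.1 with
      | [] => g i.1
      | b :: l => h i.1 b l)) := by
    intro c
    have h1 : ∀ i : {a // (enc (f a)).head? = some c}, ∃ b l, f i.1 = b :: l := by
      rintro ⟨a, ha⟩
      rcases hfa : f a with _ | ⟨b, l⟩
      · rw [hfa, enc_nil] at ha; simp at ha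
      · exact ⟨b, l, rfl⟩
    choose b l hbl using h1
    have h3 : F3 (fun p : α × β × List β => enc p.1) (fun p => enc p.2) (fun _ => [])
        (fun p => enc (h p.1 p.2.1 p.2.2)) :=
      F3.comp (F3.pr F3.arg1 F3.arg2) F3.nil F3.nil hh
    have h2 := F3.comp F3.arg1 (hf.reindex
      (Subtype.val : {a // (enc (f a)).head? = some c} → α)) F3.nil
      ((h3.reindex (fun i => (i.1, b i, l i))) |> fun h => by
        have e : (fun k : {a // (enc (f a)).head? = some c} =>
          enc ((k.1, b k, l k) : α × β × List β).2) = (fun k => enc (f k.1)) := by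
          funext k; rw [hbl k]; rfl
        rw [e] at h; exact h)
    refine h2.congr (fun i => ?_)
    simp only
    rw [hbl i]
  refine F3.cond hf ((hg.reindex Subtype.val).congr ?_) (key false) (key true)
  rintro ⟨a, ha⟩
  rcases hfa : f a with _ | ⟨b, l⟩
  · simp [hfa]
  · rw [hfa, enc_cons] at ha
    have := congrArg List.length ha
    rw [length_prS] at this
    simp at this

@[fun_prop]
theorem Poly.head? {f : α → List β} (hf : Poly f) : Poly (fun a => (f a).head?) :=
  (Poly.listCases (h := fun _ b _ => some b) hf (Poly.const none) (by fun_prop)).congr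
    (fun a => by cases f a <;> rfl)

@[fun_prop]
theorem Poly.listTail {f : α → List β} (hf : Poly f) : Poly (fun a => (f a).tail) :=
  (Poly.listCases (h := fun _ _ l => l) hf (Poly.const []) (by fun_prop)).congr
    (fun a => by cases f a <;> rfl)

@[fun_prop]
theorem Poly.isEmpty {f : α → List β} (hf : Poly f) : Poly (fun a => (f a).isEmpty) :=
  (Poly.listCases (h := fun _ _ _ => false) hf (Poly.const true) (by fun_prop)).congr
    (fun a => by cases f a <;> rfl)

@[fun_prop]
theorem Poly.headD {f : α → List β} {g : α → β} (hf : Poly f) (hg : Poly g) :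
    Poly (fun a => (f a).headD (g a)) :=
  (Poly.listCases (h := fun _ b _ => b) hf hg (by fun_prop)).congr
    (fun a => by cases f a <;> rfl)

/-- Loops over lists: the size of every intermediate state must be bounded by a polynomial. -/
theorem Poly.foldl {f : α → List β} {g : α → σ} {h : α → σ → β → σ} (hf : Poly f) (hg : Poly g)
    (hh : Poly (fun p : α × σ × β => h p.1 p.2.1 p.2.2)) (B : Polynomial ℕ)
    (hB : ∀ a, ∀ k ≤ (f a).length, size (((f a).take k).foldl (h a) (g a)) ≤ B.eval (size a)) :
    Poly (fun a => (f a).foldl (h a) (g a)) := by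
  have key := F3.foldItems (u := fun a => enc a) (v := fun _ => []) (L := fun a => (f a).map enc)
    (fun a k => enc (((f a).take k).foldl (h a) (g a)))
    (F3.comp F3.arg1 F3.nil F3.nil hg) B ?_ ?_
  · simp only [List.length_map, List.take_length] at key
    exact F3.comp F3.arg1 F3.nil hf key
  · intro a k hk
    refine (hB a k (by simpa using hk)).trans (eval_mono B ?_)
    unfold size
    omega
  · have hlt : ∀ i : Σ a, Fin ((f a).map enc).length, (i.2 : ℕ) < (f i.1).length := fun i => by
      have := i.2.2
      simpa using this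
    have h3 := (Poly.three hh).reindex (fun i : Σ a, Fin ((f a).map enc).length =>
      (i.1, ((f i.1).take i.2).foldl (h i.1) (g i.1), (f i.1)[(i.2 : ℕ)]'(hlt i)))
    have e : (fun i : Σ a, Fin ((f a).map enc).length => ((f i.1).map enc)[i.2]) =
        (fun i => enc ((f i.1)[(i.2 : ℕ)]'(hlt i))) := by
      funext i
      simp
    rw [e]
    refine h3.congr (fun i => ?_)
    simp only
    rw [List.take_succ_eq_append_getElem (hlt i), List.foldl_append]
    rfl

/-- Loops in which every step adds a bounded amount to the size of the state. -/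
theorem Poly.foldl_add {f : α → List β} {g : α → σ} {h : α → σ → β → σ} (hf : Poly f)
    (hg : Poly g) (hh : Poly (fun p : α × σ × β => h p.1 p.2.1 p.2.2)) (Q : Polynomial ℕ)
    (hQ : ∀ a s, ∀ b ∈ f a, size (h a s b) ≤ size s + Q.eval (size a)) :
    Poly (fun a => (f a).foldl (h a) (g a)) := by
  obtain ⟨F, hF⟩ := hf.size_le
  obtain ⟨G, hG⟩ := hg.size_le
  refine Poly.foldl hf hg hh (G + F * Q) ?_
  intro a k hk
  have h1 : ∀ (l : List β) (s : σ), (∀ b ∈ l, b ∈ f a) →
      size (l.foldl (h a) s) ≤ size s + l.length * Q.eval (size a) := by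
    intro l
    induction l with
    | nil => intro s _; simp
    | cons b l ih =>
      intro s hl
      rw [List.foldl_cons, List.length_cons]
      have h1 := ih (h a s b) (fun c hc => hl c (List.mem_cons_of_mem _ hc))
      have h2 := hQ a s b (hl b List.mem_cons_self)
      have h3 : (l.length + 1) * Q.eval (size a) = l.length * Q.eval (size a) + Q.eval (size a) := by
        ring
      omega
  refine (h1 _ _ (fun b hb => List.mem_of_mem_take hb)).trans ?_
  rw [Polynomial.eval_add, Polynomial.eval_mul]
  have h2 := hG a
  have h3 : ((f a).take k).length ≤ F.eval (size a) := by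
    rw [List.length_take]
    exact (min_le_right _ _).trans ((length_le_size _).trans (hF a))
  have h4 := Nat.mul_le_mul_right (Q.eval (size a)) h3
  omega

@[fun_prop]
theorem Poly.listReverse {f : α → List β} (hf : Poly f) : Poly (fun a => (f a).reverse) := by
  obtain ⟨F, hF⟩ := hf.size_le
  refine (Poly.foldl_add (h := fun _ s b => b :: s) hf (Poly.const []) (by fun_prop) F ?_).congr ?_
  · intro a s b hb
    rw [size_cons]
    have := size_le_of_mem hb
    have := hF a
    omega
  · intro a
    simp

theorem Poly.foldr {f : α → List β} {g : α → σ} {h : α → β → σ → σ} (hf : Poly f) (hg : Poly g)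
    (hh : Poly (fun p : α × β × σ => h p.1 p.2.1 p.2.2)) (B : Polynomial ℕ)
    (hB : ∀ a, ∀ l, l <:+ f a → size (l.foldr (h a) (g a)) ≤ B.eval (size a)) :
    Poly (fun a => (f a).foldr (h a) (g a)) := by
  refine (Poly.foldl (h := fun a s b => h a b s) hf.listReverse hg
    (by have := hh.comp (f := fun p : α × σ × β => (p.1, p.2.2, p.2.1)) (by fun_prop); exact this)
    B ?_).congr (fun a => ?_)
  · intro a k hk
    rw [← List.foldr_reverse]
    apply hB
    refine ⟨((f a).reverse.drop k).reverse, ?_⟩
    rw [← List.reverse_append, List.take_append_drop, List.reverse_reverse]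
  · rw [List.foldl_reverse]

theorem Poly.foldr_add {f : α → List β} {g : α → σ} {h : α → β → σ → σ} (hf : Poly f)
    (hg : Poly g) (hh : Poly (fun p : α × β × σ => h p.1 p.2.1 p.2.2)) (Q : Polynomial ℕ)
    (hQ : ∀ a s, ∀ b ∈ f a, size (h a b s) ≤ size s + Q.eval (size a)) :
    Poly (fun a => (f a).foldr (h a) (g a)) := by
  refine (Poly.foldl_add (h := fun a s b => h a b s) hf.listReverse hg
    (by have := hh.comp (f := fun p : α × σ × β => (p.1, p.2.2, p.2.1)) (by fun_prop); exact this)
    Q ?_).congr (fun a => ?_)
  · intro a s b hb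
    exact hQ a s b (by simpa using hb)
  · rw [List.foldl_reverse]

theorem Poly.flatMap {f : α → List β} {g : α → β → List γ} (hf : Poly f)
    (hg : Poly (fun p : α × β => g p.1 p.2)) : Poly (fun a => (f a).flatMap (g a)) := by
  obtain ⟨F, hF⟩ := hf.size_le
  obtain ⟨G, hG⟩ := hg.size_le
  have h1 : Poly (fun p : α × List γ × β => p.2.1 ++ g p.1 p.2.2) :=
    Poly.append (by fun_prop) (hg.comp (f := fun p : α × List γ × β => (p.1, p.2.2)) (by fun_prop))
  refine (Poly.foldl_add (h := fun a s b => s ++ g a b) hf (Poly.const []) h1
    (G.comp (2 * Polynomial.X + 1 + F)) ?_).congr ?_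
  · intro a s b hb
    rw [size_append, Polynomial.eval_comp]
    refine Nat.add_le_add_left ((hG (a, b)).trans (eval_mono G ?_)) _
    rw [size_pair]
    have := size_le_of_mem hb
    have := hF a
    simp only [Polynomial.eval_add, Polynomial.eval_mul, Polynomial.eval_X,
      Polynomial.eval_ofNat, Polynomial.eval_one]
    omega
  · intro a
    have : ∀ (l : List β) (s : List γ), l.foldl (fun s b => s ++ g a b) s = s ++ l.flatMap (g a) := by
      intro l
      induction l with
      | nil => intro s; simp
      | cons b l ih => intro s; rw [List.foldl_cons, ih, List.flatMap_cons, List.append_assoc]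
    rw [this, List.nil_append]

theorem Poly.map {f : α → List β} {g : α → β → γ} (hf : Poly f)
    (hg : Poly (fun p : α × β => g p.1 p.2)) : Poly (fun a => (f a).map (g a)) :=
  (Poly.flatMap (g := fun a b => [g a b]) hf (hg.cons (Poly.const []))).congr
    (fun a => by rw [List.map_eq_flatMap])

theorem Poly.filter {f : α → List β} {g : α → β → Bool} (hf : Poly f)
    (hg : Poly (fun p : α × β => g p.1 p.2)) : Poly (fun a => (f a).filter (g a)) := by
  refine (Poly.flatMap (g := fun a b => bif g a b then [b] else []) hf (by fun_prop)).congr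
    (fun a => ?_)
  generalize f a = l
  induction l with
  | nil => rfl
  | cons b l ih =>
    rw [List.flatMap_cons, ih, List.filter_cons]
    cases g a b <;> simp

theorem Poly.filterMap {f : α → List β} {g : α → β → Option γ} (hf : Poly f)
    (hg : Poly (fun p : α × β => g p.1 p.2)) : Poly (fun a => (f a).filterMap (g a)) := by
  have h1 := Poly.optionCases (f := fun p : α × β => g p.1 p.2) (g := fun _ => [])
    (h := fun _ c => [c]) hg (Poly.const []) (by fun_prop)
  refine (Poly.flatMap (g := fun a b => match g a b with
    | none => []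
    | some c => [c]) hf h1).congr (fun a => ?_)
  generalize f a = l
  induction l with
  | nil => rfl
  | cons b l ih =>
    rw [List.flatMap_cons, ih, List.filterMap_cons]
    cases g a b <;> simp

theorem Poly.any {f : α → List β} {g : α → β → Bool} (hf : Poly f)
    (hg : Poly (fun p : α × β => g p.1 p.2)) : Poly (fun a => (f a).any (g a)) := by
  refine (Poly.foldl_add (h := fun a s b => s || g a b) hf (Poly.const false)
    (Poly.or (by fun_prop) (hg.comp (f := fun p : α × Bool × β => (p.1, p.2.2)) (by fun_prop)))
    0 (by intro a s b _; simp [size_bool])).congr (fun a => ?_)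
  have : ∀ (l : List β) (s : Bool), l.foldl (fun s b => s || g a b) s = (s || l.any (g a)) := by
    intro l
    induction l with
    | nil => intro s; simp
    | cons b l ih => intro s; rw [List.foldl_cons, ih, List.any_cons, Bool.or_assoc]
  rw [this]; simp

theorem Poly.all {f : α → List β} {g : α → β → Bool} (hf : Poly f)
    (hg : Poly (fun p : α × β => g p.1 p.2)) : Poly (fun a => (f a).all (g a)) :=
  (Poly.any (g := fun a b => !(g a b)) hf hg.not).not.congr (fun a => by
    generalize f a = l
    induction l with
    | nil => rfl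
    | cons b l ih => rw [List.any_cons, List.all_cons, ← ih]; simp)

theorem PolyPred.ball {f : α → List β} {p : α → β → Prop} (hf : Poly f)
    (hp : PolyPred (fun q : α × β => p q.1 q.2)) : PolyPred (fun a => ∀ b ∈ f a, p a b) := by
  classical
  have := (polyPred_iff.1 hp)
  refine polyPred_iff.2 ((Poly.all (g := fun a b => decide (p a b)) hf this).congr (fun a => ?_))
  rw [Bool.eq_iff_iff]
  simp

theorem PolyPred.bex {f : α → List β} {p : α → β → Prop} (hf : Poly f)
    (hp : PolyPred (fun q : α × β => p q.1 q.2)) : PolyPred (fun a => ∃ b ∈ f a, p a b) := by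
  classical
  have := (polyPred_iff.1 hp)
  refine polyPred_iff.2 ((Poly.any (g := fun a b => decide (p a b)) hf this).congr (fun a => ?_))
  rw [Bool.eq_iff_iff]
  simp

theorem PolyPred.mem {f : α → β} {g : α → List β} (hf : Poly f) (hg : Poly g) :
    PolyPred (fun a => f a ∈ g a) := by
  refine (PolyPred.bex (p := fun a b => f a = b) hg ?_).congr (fun a => by simp)
  exact PolyPred.eq (hf.comp Poly.fst') Poly.snd'

@[fun_prop]
theorem Poly.decideMem [DecidableEq β] {f : α → β} {g : α → List β} (hf : Poly f) (hg : Poly g) :
    Poly (fun a => decide (f a ∈ g a)) := (PolyPred.mem hf hg).dec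

@[fun_prop]
theorem Poly.optionToList {f : α → Option β} (hf : Poly f) : Poly (fun a => (f a).toList) :=
  (Poly.optionCases (h := fun _ b => [b]) hf (Poly.const []) (by fun_prop)).congr
    (fun a => by cases f a <;> rfl)

@[fun_prop]
theorem Poly.flatten {f : α → List (List β)} (hf : Poly f) : Poly (fun a => (f a).flatten) :=
  (Poly.flatMap (g := fun _ b => b) hf (by fun_prop)).congr (fun a => by
    rw [List.flatMap_id'])

/-- Cartesian product of lists. -/
theorem Poly.product {f : α → List β} {g : α → List γ} (hf : Poly f) (hg : Poly g) :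
    Poly (fun a => (f a).flatMap (fun b => (g a).map (fun c => (b, c)))) := by
  refine Poly.flatMap hf (Poly.map (hg.comp Poly.fst') ?_)
  fun_prop

end

end FP
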