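import Pool.Agent.PolyTime.Lists

/-!
# Binary arithmetic in polynomial time
-/

namespace FP

open NPC Function

section
variable {ι : Type*} {u v w : ι → Str}

theorem F3.bitItems {a : ι → Str} (ha : F3 u v w a) :
    F3 u v w (fun i => encL ((a i).map (fun b => [b]))) := by
  have h1 : F3 (fun _ : ι => []) (fun _ => []) (fun i => (a i).reverse)
      (fun i => (a i).reverse.foldl (fun s c => true :: c :: false :: s) []) := by
    refine F3.foldlBits (fun s c => true :: c :: false :: s) 3 (by simp) ?_ F3.nil
    refine (F3.br F3.arg3 F3.nil (((F3.arg2.cons false).cons false).cons true)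
      (((F3.arg2.cons false).cons true).cons true)).congr ?_
    rintro ⟨s, _ | _⟩ <;> rfl
  refine (F3.comp F3.nil F3.nil ha.reverse h1).congr ?_
  intro i
  generalize a i = x
  induction x with
  | nil => rfl
  | cons c x ih => rw [List.reverse_cons, List.foldl_append, ih]; rfl

/-- Concatenation of the items of a coded list. -/
theorem F3.joinItems {L : ι → List Str} (hL : F3 u v w (fun i => encL (L i))) :
    F3 u v w (fun i => (L i).flatten) := by
  have h := F3.foldItems (u := fun _ : ι => []) (v := fun _ => []) (L := L)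
    (fun i k => ((L i).take k).flatten) (by simpa using F3.nil) Polynomial.X ?_ ?_
  · simp only [List.take_length] at h
    exact F3.comp F3.nil F3.nil hL h
  · intro i k hk
    rw [Polynomial.eval_X]
    have h1 : ∀ M : List Str, M.flatten.length ≤ (encL M).length := by
      intro M
      induction M with
      | nil => simp
      | cons m M ih =>
        rw [List.flatten_cons, List.length_append, encL_cons, List.length_append, length_delim]
        omega
    have h2 : (encL ((L i).take k)).length ≤ (encL (L i)).length := by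
      conv_rhs => rw [← List.take_append_drop k (L i), encL, List.flatMap_append,
        List.length_append]
      exact Nat.le_add_right _ _
    have := h1 ((L i).take k)
    omega
  · refine (F3.append F3.arg2 F3.arg3).congr ?_
    intro i
    simp only [Fin.getElem_fin]
    rw [List.take_succ_eq_append_getElem i.2.2, List.flatten_append]
    simp

end

section
variable {α β γ δ σ : Type} [Code α] [Code β] [Code γ] [Code δ] [Code σ]

/-! ### Raw strings -/

@[fun_prop]
theorem Poly.rawBits {f : α → Raw} (hf : Poly f) : Poly (fun a => (f a).bits) :=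
  (F3.bitItems hf).congr (fun a => by rw [enc_list]; rfl)

@[fun_prop]
theorem Poly.rawMk {f : α → List Bool} (hf : Poly f) : Poly (fun a => Raw.mk (f a)) := by
  have h : F3 (fun a => enc a) (fun _ => []) (fun _ => []) (fun a => encL ((f a).map enc)) := hf
  refine (F3.joinItems h).congr (fun a => ?_)
  change ((f a).map enc).flatten = f a
  generalize f a = l
  induction l with
  | nil => rfl
  | cons b l ih => rw [List.map_cons, List.flatten_cons, ih]; rfl

/-! ### Natural numbers -/

@[fun_prop]
theorem Poly.natBits {f : α → ℕ} (hf : Poly f) : Poly (fun a => (f a).bits) :=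
  (F3.bitItems hf).congr (fun a => by rw [enc_list]; rfl)

@[fun_prop]
theorem Poly.div2 {f : α → ℕ} (hf : Poly f) : Poly (fun a => (f a).div2) :=
  (F3.tail hf).congr (fun a => by rw [enc_nat, enc_nat, Nat.div2_bits_eq_tail])

@[fun_prop]
theorem Poly.bodd {f : α → ℕ} (hf : Poly f) : Poly (fun a => (f a).bodd) :=
  (F3.br hf (F3.const [false]) (F3.const [false]) (F3.const [true])).congr (fun a => by
    rw [enc_nat, enc_bool]
    simp only
    rw [Nat.bodd_eq_bits_head]
    rcases (f a).bits with _ | ⟨_ | _, l⟩ <;> rfl)

theorem enc_bit (b : Bool) (n : ℕ) : enc (Nat.bit b n) = br (enc n) (br [b] [] [] [true])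
    (b :: enc n) (b :: enc n) := by
  by_cases hn : n = 0
  · subst hn
    cases b <;> simp [enc_nat]
  · have h1 : enc (Nat.bit b n) = b :: enc n := by
      rw [enc_nat, enc_nat, Nat.bits_append_bit _ _ (fun h => absurd h hn)]
    have h2 : enc n ≠ [] := by
      intro h
      have := congrArg List.length h
      rw [enc_nat, Nat.size_eq_bits_len] at this
      have := Nat.size_pos.2 (Nat.pos_of_ne_zero hn)
      simp_all
    rw [h1]
    rcases h3 : enc n with _ | ⟨_ | _, l⟩
    · exact absurd h3 h2
    · rfl
    · rfl

@[fun_prop]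
theorem Poly.bit {f : α → Bool} {g : α → ℕ} (hf : Poly f) (hg : Poly g) :
    Poly (fun a => Nat.bit (f a) (g a)) := by
  have h1 : F3 (fun a => enc a) (fun _ => []) (fun _ => []) (fun a => f a :: enc (g a)) :=
    (F3.append hf hg).congr (fun a => by rw [enc_bool]; rfl)
  exact (F3.br hg (F3.br hf F3.nil F3.nil (F3.const [true])) h1 h1).congr
    (fun a => by rw [enc_bit, enc_bool])

theorem size_bit_le (b : Bool) (n : ℕ) : size (Nat.bit b n) ≤ size n + 1 := by
  rw [size, enc_bit]
  unfold size
  rcases enc n with _ | ⟨_ | _, l⟩ <;> cases b <;> simp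

/-- The number with the given binary digits, least significant first. -/
def ofBits (l : List Bool) : ℕ := l.foldr (fun b n => Nat.bit b n) 0

@[simp] theorem ofBits_nil : ofBits [] = 0 := rfl

@[simp] theorem ofBits_cons (b : Bool) (l : List Bool) : ofBits (b :: l) = Nat.bit b (ofBits l) :=
  rfl

@[simp] theorem ofBits_bits (n : ℕ) : ofBits n.bits = n := by
  induction n using Nat.binaryRec' with
  | zero => simp
  | bit b n h ih => rw [Nat.bits_append_bit _ _ h, ofBits_cons, ih]

theorem ofBits_append (l m : List Bool) : ofBits (l ++ m) = ofBits l + 2 ^ l.length * ofBits m := by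
  induction l with
  | nil => simp
  | cons b l ih =>
    rw [List.cons_append, ofBits_cons, ih, ofBits_cons, Nat.bit_val, Nat.bit_val,
      List.length_cons, pow_succ]
    ring

theorem ofBits_lt (l : List Bool) : ofBits l < 2 ^ l.length := by
  induction l with
  | nil => simp
  | cons b l ih =>
    rw [ofBits_cons, Nat.bit_val, List.length_cons, pow_succ]
    have := Bool.toNat_le b
    omega

@[fun_prop]
theorem Poly.natOfBits {f : α → List Bool} (hf : Poly f) : Poly (fun a => ofBits (f a)) := by
  refine Poly.foldr_add (h := fun _ b n => Nat.bit b n) hf (Poly.const 0) (by fun_prop) 1 ?_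
  intro a s b _
  rw [Polynomial.eval_one]
  exact size_bit_le b s

/-- State of the serial adder: the remaining parts of the two numbers, the carry and the digits
of the result, most significant first. -/
def addStep (s : (ℕ × ℕ) × Bool × List Bool) : (ℕ × ℕ) × Bool × List Bool :=
  ((s.1.1.div2, s.1.2.div2),
    (s.1.1.bodd && s.1.2.bodd) || (s.2.1 && (s.1.1.bodd || s.1.2.bodd)),
    (Bool.xor (Bool.xor s.1.1.bodd s.1.2.bodd) s.2.1) :: s.2.2)

/-- State of the serial subtractor. -/
def subStep (s : (ℕ × ℕ) × Bool × List Bool) : (ℕ × ℕ) × Bool × List Bool :=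
  ((s.1.1.div2, s.1.2.div2),
    (!s.1.1.bodd && s.1.2.bodd) || (s.2.1 && (!s.1.1.bodd || s.1.2.bodd)),
    (Bool.xor (Bool.xor s.1.1.bodd s.1.2.bodd) s.2.1) :: s.2.2)

theorem size_div2_le (n : ℕ) : size n.div2 ≤ size n := by
  rw [size, enc_nat, Nat.div2_bits_eq_tail, List.length_tail]
  exact Nat.sub_le _ _

theorem addStep_iter (x y : ℕ) (k : ℕ) :
    (addStep^[k] ((x, y), false, [])).2.2.length = k ∧
    x + y = ofBits (addStep^[k] ((x, y), false, [])).2.2.reverse +
      2 ^ k * ((addStep^[k] ((x, y), false, [])).1.1 + (addStep^[k] ((x, y), false, [])).1.2 +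
        (addStep^[k] ((x, y), false, [])).2.1.toNat) := by
  induction k with
  | zero => simp
  | succ k ih =>
    rw [iterate_succ_apply']
    generalize addStep^[k] ((x, y), false, []) = s at *
    obtain ⟨⟨p, q⟩, c, out⟩ := s
    obtain ⟨h1, h2⟩ := ih
    simp only at h1 h2
    refine ⟨by simp [addStep, h1], ?_⟩
    rw [h2]
    have hp := Nat.bodd_add_div2 p
    have hq := Nat.bodd_add_div2 q
    simp only [addStep, List.reverse_cons, ofBits_append, ofBits_cons, ofBits_nil,
      List.length_reverse, h1]
    rw [pow_succ, Nat.bit_val]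
    generalize p.div2 = p' at *
    generalize q.div2 = q' at *
    rw [← hp, ← hq]
    cases p.bodd <;> cases q.bodd <;> cases c <;> simp <;> ring

theorem subStep_iter (x y : ℕ) (k : ℕ) :
    (subStep^[k] ((x, y), false, [])).2.2.length = k ∧
    (x : ℤ) - y = ofBits (subStep^[k] ((x, y), false, [])).2.2.reverse +
      2 ^ k * (((subStep^[k] ((x, y), false, [])).1.1 : ℤ) - (subStep^[k] ((x, y), false, [])).1.2 -
        (subStep^[k] ((x, y), false, [])).2.1.toNat) := by
  induction k with
  | zero => simp
  | succ k ih =>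
    rw [iterate_succ_apply']
    generalize subStep^[k] ((x, y), false, []) = s at *
    obtain ⟨⟨p, q⟩, c, out⟩ := s
    obtain ⟨h1, h2⟩ := ih
    simp only at h1 h2
    refine ⟨by simp [subStep, h1], ?_⟩
    rw [h2]
    have hp := Nat.bodd_add_div2 p
    have hq := Nat.bodd_add_div2 q
    simp only [subStep, List.reverse_cons, ofBits_append, ofBits_cons, ofBits_nil,
      List.length_reverse, h1]
    rw [pow_succ, Nat.bit_val]
    generalize p.div2 = p' at *
    generalize q.div2 = q' at *
    rw [← hp, ← hq]
    cases p.bodd <;> cases q.bodd <;> cases c <;> simp <;> ring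

theorem iter_fst (step : (ℕ × ℕ) × Bool × List Bool → (ℕ × ℕ) × Bool × List Bool)
    (h : ∀ s, (step s).1 = (s.1.1.div2, s.1.2.div2)) (s : (ℕ × ℕ) × Bool × List Bool) (k : ℕ) :
    (step^[k] s).1 = (s.1.1 / 2 ^ k, s.1.2 / 2 ^ k) := by
  induction k with
  | zero => simp
  | succ k ih =>
    rw [iterate_succ_apply', h, ih]
    simp only [Nat.div2_val, Nat.div_div_eq_div_mul, pow_succ]

theorem foldl_const {β' σ' : Type} (step : σ' → σ') (l : List β') (s : σ') :
    l.foldl (fun s _ => step s) s = step^[l.length] s := by
  induction l generalizing s with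
  | nil => rfl
  | cons b l ih => rw [List.foldl_cons, ih, List.length_cons, iterate_succ_apply]

theorem size_addStep (s : (ℕ × ℕ) × Bool × List Bool) : size (addStep s) ≤ size s + 3 := by
  have h1 := size_div2_le s.1.1
  have h2 := size_div2_le s.1.2
  simp only [addStep, size_prod, size_cons, size_bool]
  omega

theorem size_subStep (s : (ℕ × ℕ) × Bool × List Bool) : size (subStep s) ≤ size s + 3 := by
  have h1 := size_div2_le s.1.1
  have h2 := size_div2_le s.1.2
  simp only [subStep, size_prod, size_cons, size_bool]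
  omega

/-- enough digits for the sum of `x` and `y` -/
def fuel2 (x y : ℕ) : List Bool := false :: (x.bits ++ y.bits)

theorem lt_fuel2 (x y : ℕ) : x < 2 ^ (fuel2 x y).length ∧ y < 2 ^ (fuel2 x y).length ∧
    x + y < 2 ^ (fuel2 x y).length := by
  have h1 : x < 2 ^ x.size := Nat.lt_size_self x
  have h2 : y < 2 ^ y.size := Nat.lt_size_self y
  rw [fuel2, List.length_cons, List.length_append, Nat.size_eq_bits_len, Nat.size_eq_bits_len,
    pow_succ]
  have h3 : 2 ^ x.size ≤ 2 ^ (x.size + y.size) := Nat.pow_le_pow_right (by norm_num) (by omega)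
  have h4 : 2 ^ y.size ≤ 2 ^ (x.size + y.size) := Nat.pow_le_pow_right (by norm_num) (by omega)
  omega

@[fun_prop]
theorem Poly.add {f g : α → ℕ} (hf : Poly f) (hg : Poly g) : Poly (fun a => f a + g a) := by
  have hstep : Poly addStep := by unfold addStep; fun_prop
  have h1 : Poly (fun a => (fuel2 (f a) (g a)).foldl (fun s _ => addStep s)
      ((f a, g a), false, ([] : List Bool))) := by
    refine Poly.foldl_add (h := fun _ s _ => addStep s) ?_ (by fun_prop)
      (hstep.comp (by fun_prop)) 3 ?_
    · unfold fuel2; fun_prop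
    · intro a s b _
      simpa using size_addStep s
  refine (Poly.natOfBits (h1.snd.snd.listReverse)).congr (fun a => ?_)
  rw [foldl_const]
  obtain ⟨-, h2⟩ := addStep_iter (f a) (g a) (fuel2 (f a) (g a)).length
  obtain ⟨h3, h4, h5⟩ := lt_fuel2 (f a) (g a)
  generalize ofBits (addStep^[(fuel2 (f a) (g a)).length] ((f a, g a), false, [])).2.2.reverse = r
    at *
  generalize ((addStep^[(fuel2 (f a) (g a)).length] ((f a, g a), false, [])).1.1 +
    (addStep^[(fuel2 (f a) (g a)).length] ((f a, g a), false, [])).1.2 +
    (addStep^[(fuel2 (f a) (g a)).length] ((f a, g a), false, [])).2.1.toNat) = t at *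
  rcases Nat.eq_zero_or_pos t with ht | ht
  · subst ht; omega
  · exfalso
    have := Nat.mul_le_mul_left (2 ^ (fuel2 (f a) (g a)).length) ht
    simp only [Nat.succ_eq_add_one, Nat.zero_add, Nat.mul_one] at this
    omega

theorem sub_aux (x y : ℕ) : ∃ c : Bool, ∃ r : ℕ,
    subStep^[(fuel2 x y).length] ((x, y), false, []) =
      ((0, 0), c, (subStep^[(fuel2 x y).length] ((x, y), false, [])).2.2) ∧
    ofBits (subStep^[(fuel2 x y).length] ((x, y), false, [])).2.2.reverse = r ∧
    (c = decide (x < y)) ∧ (c = false → r = x - y) := by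
  obtain ⟨h0, h2⟩ := subStep_iter x y (fuel2 x y).length
  obtain ⟨h3, h4, h5⟩ := lt_fuel2 x y
  have h6 := iter_fst subStep (fun _ => rfl) ((x, y), false, []) (fuel2 x y).length
  simp only [Nat.div_eq_of_lt h3, Nat.div_eq_of_lt h4] at h6
  have h7 := ofBits_lt (subStep^[(fuel2 x y).length] ((x, y), false, [])).2.2.reverse
  rw [List.length_reverse, h0] at h7
  refine ⟨(subStep^[(fuel2 x y).length] ((x, y), false, [])).2.1, _, ?_, rfl, ?_⟩
  · rw [← h6]
  rw [h6] at h2
  simp only at h2
  generalize ofBits (subStep^[(fuel2 x y).length] ((x, y), false, [])).2.2.reverse = r at *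
  generalize (subStep^[(fuel2 x y).length] ((x, y), false, [])).2.1 = c at *
  cases c
  · simp only [Bool.toNat_false, Nat.cast_zero, sub_zero, mul_zero, add_zero] at h2
    refine ⟨?_, fun _ => by omega⟩
    symm
    rw [decide_eq_false_iff_not]
    omega
  · simp only [Bool.toNat_true, Nat.cast_zero, sub_zero, Nat.cast_one, zero_sub] at h2
    refine ⟨?_, fun h => by simp at h⟩
    symm
    rw [decide_eq_true_iff]
    have h8 : (r : ℤ) < 2 ^ (fuel2 x y).length := by exact_mod_cast h7
    have : (x : ℤ) < y := by linarith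
    exact_mod_cast this

theorem Poly.subAux {f g : α → ℕ} (hf : Poly f) (hg : Poly g) :
    Poly (fun a => subStep^[(fuel2 (f a) (g a)).length] ((f a, g a), false, [])) := by
  have hstep : Poly subStep := by unfold subStep; fun_prop
  refine (Poly.foldl_add (f := fun a => fuel2 (f a) (g a)) (h := fun _ s _ => subStep s)
      (g := fun a => ((f a, g a), false, ([] : List Bool))) ?_ (by fun_prop)
      (hstep.comp (by fun_prop)) 3 ?_).congr (fun a => ?_)
  · unfold fuel2; fun_prop
  · intro a s b _
    simpa using size_subStep s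
  · rw [foldl_const]

theorem PolyPred.lt {f g : α → ℕ} (hf : Poly f) (hg : Poly g) : PolyPred (fun a => f a < g a) :=
  polyPred_iff.2 ((Poly.subAux hf hg).snd.fst.congr (fun a => by
    obtain ⟨c, r, h1, h2, h3, h4⟩ := sub_aux (f a) (g a)
    rw [h1]
    exact h3))

theorem PolyPred.le {f g : α → ℕ} (hf : Poly f) (hg : Poly g) : PolyPred (fun a => f a ≤ g a) :=
  (PolyPred.lt hg hf).not.congr (fun a => by simp)

@[fun_prop]
theorem Poly.decideLt {f g : α → ℕ} (hf : Poly f) (hg : Poly g) :
    Poly (fun a => decide (f a < g a)) := (PolyPred.lt hf hg).dec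

@[fun_prop]
theorem Poly.decideLe {f g : α → ℕ} (hf : Poly f) (hg : Poly g) :
    Poly (fun a => decide (f a ≤ g a)) := (PolyPred.le hf hg).dec

@[fun_prop]
theorem Poly.sub {f g : α → ℕ} (hf : Poly f) (hg : Poly g) : Poly (fun a => f a - g a) := by
  have h := Poly.subAux hf hg
  refine (Poly.cond h.snd.fst (Poly.const 0) (Poly.natOfBits h.snd.snd.listReverse)).congr
    (fun a => ?_)
  obtain ⟨c, r, h1, h2, h3, h4⟩ := sub_aux (f a) (g a)
  rw [h2]
  rw [h1]
  cases c
  · simp only [cond_false]
    exact h4 rfl
  · simp only [cond_true]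
    have := (decide_eq_true_iff.1 h3.symm)
    omega

theorem size_add_le (x y : ℕ) : size (x + y) ≤ size x + size y + 1 := by
  rw [size_nat, size_nat, size_nat, Nat.size_le]
  have h1 := Nat.lt_size_self x
  have h2 := Nat.lt_size_self y
  have h3 : 2 ^ x.size ≤ 2 ^ (x.size + y.size) := Nat.pow_le_pow_right (by norm_num) (by omega)
  have h4 : 2 ^ y.size ≤ 2 ^ (x.size + y.size) := Nat.pow_le_pow_right (by norm_num) (by omega)
  rw [pow_succ]
  omega

theorem size_mono {x y : ℕ} (h : x ≤ y) : size x ≤ size y := by
  rw [size_nat, size_nat]; exact Nat.size_le_size h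

theorem size_nat_le (x : ℕ) : size x ≤ x := by
  rw [size_nat, Nat.size_le]; exact Nat.lt_two_pow_self

@[fun_prop]
theorem Poly.mul {f g : α → ℕ} (hf : Poly f) (hg : Poly g) : Poly (fun a => f a * g a) := by
  obtain ⟨G, hG⟩ := hg.size_le
  have h1 : Poly (fun p : α × Bool × ℕ => Nat.bit false p.2.2 + bif p.2.1 then g p.1 else 0) := by
    have := hg.comp (f := fun p : α × Bool × ℕ => p.1) (by fun_prop)
    fun_prop
  refine (Poly.foldr_add (f := fun a => (f a).bits) (g := fun _ => 0)
    (h := fun a b n => Nat.bit false n + bif b then g a else 0) (by fun_prop) (by fun_prop)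
    h1 (G + 2) ?_).congr (fun a => ?_)
  · intro a s b _
    have h2 := size_add_le (Nat.bit false s) (bif b then g a else 0)
    have h3 := size_bit_le false s
    have h4 := hG a
    have h5 : size (bif b then g a else 0) ≤ size (g a) := by
      cases b
      · exact size_mono (Nat.zero_le _)
      · exact le_refl _
    rw [Polynomial.eval_add, Polynomial.eval_ofNat]
    omega
  · have : ∀ l : List Bool, l.foldr (fun b n => Nat.bit false n + bif b then g a else 0) 0 =
        ofBits l * g a := by
      intro l
      induction l with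
      | nil => simp
      | cons b l ih =>
        rw [List.foldr_cons, ih, ofBits_cons, Nat.bit_val, Nat.bit_val]
        cases b <;> simp <;> ring
    rw [this, ofBits_bits]

/-- step of the long division -/
def divStep (y : ℕ) (b : Bool) (s : ℕ × ℕ) : ℕ × ℕ :=
  bif decide (y ≤ Nat.bit b s.2) then (Nat.bit true s.1, Nat.bit b s.2 - y)
    else (Nat.bit false s.1, Nat.bit b s.2)

theorem divStep_foldr (y : ℕ) (hy : 0 < y) (l : List Bool) :
    l.foldr (divStep y) (0, 0) = (ofBits l / y, ofBits l % y) := by
  induction l with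
  | nil => simp
  | cons b l ih =>
    rw [List.foldr_cons, ih, ofBits_cons, divStep]
    have h1 := Nat.div_add_mod (ofBits l) y
    have h2 := Nat.mod_lt (ofBits l) hy
    set q := ofBits l / y
    set r := ofBits l % y
    have hb := Bool.toNat_le b
    have e1 : Nat.bit b (ofBits l) = 2 * (y * q) + (2 * r + b.toNat) := by
      rw [Nat.bit_val, ← h1]; ring
    have e2 : Nat.bit b r = 2 * r + b.toNat := Nat.bit_val _ _
    by_cases hc : y ≤ Nat.bit b r
    · simp only [hc, decide_true, cond_true]
      have h3 : Nat.bit b (ofBits l) = (Nat.bit b r - y) + (Nat.bit true q) * y := by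
        rw [e1, Nat.bit_val true, Bool.toNat_true, ← e2]
        have : (2 * q + 1) * y = 2 * (y * q) + y := by ring
        omega
      have h4 : Nat.bit b r - y < y := by omega
      ext
      · simp only
        rw [h3, Nat.add_mul_div_right _ _ hy, Nat.div_eq_of_lt h4, Nat.zero_add]
      · simp only
        rw [h3, Nat.add_mul_mod_self_right, Nat.mod_eq_of_lt h4]
    · simp only [hc, decide_false, cond_false]
      have h3 : Nat.bit b (ofBits l) = (Nat.bit b r) + (Nat.bit false q) * y := by
        rw [e1, Nat.bit_val false, Bool.toNat_false, ← e2]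
        ring
      have h4 : Nat.bit b r < y := by omega
      ext
      · simp only
        rw [h3, Nat.add_mul_div_right _ _ hy, Nat.div_eq_of_lt h4, Nat.zero_add]
      · simp only
        rw [h3, Nat.add_mul_mod_self_right, Nat.mod_eq_of_lt h4]

theorem Poly.divMod {f g : α → ℕ} (hf : Poly f) (hg : Poly g) :
    Poly (fun a => (f a).bits.foldr (divStep (g a)) (0, 0)) := by
  have h1 : Poly (fun p : α × Bool × (ℕ × ℕ) => divStep (g p.1) p.2.1 p.2.2) := by
    have := hg.comp (f := fun p : α × Bool × (ℕ × ℕ) => p.1) (by fun_prop)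
    unfold divStep
    fun_prop
  refine Poly.foldr_add (f := fun a => (f a).bits) (g := fun _ => (0, 0))
    (h := fun a => divStep (g a)) (by fun_prop) (by fun_prop) h1 3 ?_
  intro a s b _
  rw [divStep, Polynomial.eval_ofNat]
  have h2 := size_bit_le true s.1
  have h3 := size_bit_le false s.1
  have h4 := size_bit_le b s.2
  have h5 := size_mono (Nat.sub_le (Nat.bit b s.2) (g a))
  cases decide (g a ≤ Nat.bit b s.2)
  · rw [cond_false, size_prod, size_prod]; simp only; omega
  · rw [cond_true, size_prod, size_prod]; simp only; omega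

@[fun_prop]
theorem Poly.div {f g : α → ℕ} (hf : Poly f) (hg : Poly g) : Poly (fun a => f a / g a) := by
  refine (Poly.cond (c := fun a => decide (g a = 0)) (by fun_prop) (Poly.const 0)
    (Poly.divMod hf hg).fst).congr (fun a => ?_)
  by_cases h : g a = 0
  · simp [h]
  · rw [divStep_foldr _ (Nat.pos_of_ne_zero h), ofBits_bits]; simp [h]

@[fun_prop]
theorem Poly.mod {f g : α → ℕ} (hf : Poly f) (hg : Poly g) : Poly (fun a => f a % g a) := by
  refine (Poly.cond (c := fun a => decide (g a = 0)) (by fun_prop) hf
    (Poly.divMod hf hg).snd).congr (fun a => ?_)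
  by_cases h : g a = 0
  · simp [h]
  · rw [divStep_foldr _ (Nat.pos_of_ne_zero h), ofBits_bits]; simp [h]

@[fun_prop]
theorem Poly.natMin {f g : α → ℕ} (hf : Poly f) (hg : Poly g) : Poly (fun a => min (f a) (g a)) :=
  (Poly.cond (c := fun a => decide (f a ≤ g a)) (by fun_prop) hf hg).congr (fun a => by
    by_cases h : f a ≤ g a
    · simp [h]
    · simp [h, min_eq_right (Nat.le_of_lt (not_le.1 h))])

@[fun_prop]
theorem Poly.natMax {f g : α → ℕ} (hf : Poly f) (hg : Poly g) : Poly (fun a => max (f a) (g a)) :=
  (Poly.cond (c := fun a => decide (f a ≤ g a)) (by fun_prop) hg hf).congr (fun a => by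
    by_cases h : f a ≤ g a
    · simp [h]
    · simp [h, max_eq_left (Nat.le_of_lt (not_le.1 h))])

@[fun_prop]
theorem Poly.succ {f : α → ℕ} (hf : Poly f) : Poly (fun a => Nat.succ (f a)) := by
  simp only [Nat.succ_eq_add_one]
  fun_prop

@[fun_prop]
theorem Poly.boolToNat {f : α → Bool} (hf : Poly f) : Poly (fun a => (f a).toNat) :=
  (Poly.cond hf (Poly.const 1) (Poly.const 0)).congr (fun a => by cases f a <;> rfl)

end

end FP
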