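import Pool.Agent.PolyTime.Nats

/-!
# Counters, ranges, bounded iteration and more list functions
-/

namespace FP

open NPC Function

section
variable {α β γ δ σ : Type} [Code α] [Code β] [Code γ] [Code δ] [Code σ]

@[fun_prop]
theorem Poly.length {f : α → List β} (hf : Poly f) : Poly (fun a => (f a).length) := by
  refine (Poly.foldl_add (h := fun _ n _ => n + 1) hf (Poly.const 0) (by fun_prop) 2 ?_).congr
    (fun a => ?_)
  · intro a s b _
    have := size_add_le s 1
    have h1 : size (1 : ℕ) = 1 := by rw [size_nat, Nat.size_one]
    rw [Polynomial.eval_ofNat]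
    omega
  · rw [foldl_const (fun n => n + 1)]
    have : ∀ k n : ℕ, (fun n => n + 1)^[k] n = n + k := by
      intro k
      induction k with
      | zero => intro n; rfl
      | succ k ih => intro n; rw [iterate_succ_apply', ih]; rfl
    rw [this, Nat.zero_add]

/-! ### Polynomially bounded numbers and unary counters -/

/-- `f` is bounded by a polynomial of the size of its argument. -/
def PolyBdd (f : α → ℕ) : Prop := ∃ P : Polynomial ℕ, ∀ a, f a ≤ P.eval (size a)

theorem PolyBdd.const (n : ℕ) : PolyBdd (fun _ : α => n) := ⟨Polynomial.C n, fun _ => by simp⟩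

theorem PolyBdd.add {f g : α → ℕ} (hf : PolyBdd f) (hg : PolyBdd g) :
    PolyBdd (fun a => f a + g a) := by
  obtain ⟨P, hP⟩ := hf
  obtain ⟨Q, hQ⟩ := hg
  exact ⟨P + Q, fun a => by rw [Polynomial.eval_add]; exact Nat.add_le_add (hP a) (hQ a)⟩

theorem PolyBdd.mul {f g : α → ℕ} (hf : PolyBdd f) (hg : PolyBdd g) :
    PolyBdd (fun a => f a * g a) := by
  obtain ⟨P, hP⟩ := hf
  obtain ⟨Q, hQ⟩ := hg
  exact ⟨P * Q, fun a => by rw [Polynomial.eval_mul]; exact Nat.mul_le_mul (hP a) (hQ a)⟩

theorem PolyBdd.pow {f : α → ℕ} (hf : PolyBdd f) (n : ℕ) : PolyBdd (fun a => f a ^ n) := by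
  obtain ⟨P, hP⟩ := hf
  exact ⟨P ^ n, fun a => by rw [Polynomial.eval_pow]; exact Nat.pow_le_pow_left (hP a) n⟩

theorem PolyBdd.mono {f g : α → ℕ} (hg : PolyBdd g) (h : ∀ a, f a ≤ g a) : PolyBdd f := by
  obtain ⟨P, hP⟩ := hg
  exact ⟨P, fun a => (h a).trans (hP a)⟩

theorem PolyBdd.sub {f g : α → ℕ} (hf : PolyBdd f) : PolyBdd (fun a => f a - g a) :=
  hf.mono (fun a => Nat.sub_le _ _)

theorem PolyBdd.size {f : α → β} (hf : Poly f) : PolyBdd (fun a => size (f a)) := hf.size_le

theorem PolyBdd.length {f : α → List β} (hf : Poly f) : PolyBdd (fun a => (f a).length) :=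
  (PolyBdd.size hf).mono (fun a => length_le_size _)

theorem PolyBdd.comp {f : β → ℕ} {g : α → β} (hf : PolyBdd f) (hg : Poly g) :
    PolyBdd (fun a => f (g a)) := by
  obtain ⟨P, hP⟩ := hf
  obtain ⟨Q, hQ⟩ := hg.size_le
  exact ⟨P.comp Q, fun a => (hP _).trans (by
    rw [Polynomial.eval_comp]; exact eval_mono P (hQ a))⟩

theorem PolyBdd.fst {f : α → ℕ} (hf : PolyBdd f) : PolyBdd (fun p : α × β => f p.1) :=
  hf.comp Poly.fst'

theorem PolyBdd.snd {f : β → ℕ} (hf : PolyBdd f) : PolyBdd (fun p : α × β => f p.2) :=
  hf.comp Poly.snd'

/-- A list of length polynomial in the size. -/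
theorem Poly.replicateSize : Poly (fun a : α => List.replicate (size a) ()) := by
  have h1 : F3 (fun a : α => enc a) (fun _ => []) (fun _ => []) (fun a => encL ((enc a).map
      (fun b => [b]))) := F3.bitItems F3.arg1
  have h2 := F3.foldItems (u := fun _ : α => []) (v := fun _ => [])
    (L := fun a => (enc a).map (fun b => [b]))
    (fun a k => List.replicate k false) (by simpa using F3.nil) Polynomial.X ?_ ?_
  · have h3 := F3.comp F3.nil F3.nil h1 h2
    refine h3.congr (fun a => ?_)
    rw [List.length_map, enc_list]
    have : ∀ n, encL ((List.replicate n ()).map enc) = List.replicate n false := by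
      intro n
      induction n with
      | zero => rfl
      | succ n ih => rw [List.replicate_succ, List.map_cons, encL_cons, ih]; rfl
    rw [this]; rfl
  · intro a k hk
    rw [Polynomial.eval_X, List.length_replicate]
    rw [List.length_map] at hk
    have h3 : ∀ x : Str, (encL (x.map (fun b => [b]))).length = 3 * x.length := by
      intro x
      induction x with
      | nil => rfl
      | cons b x ih =>
        rw [List.map_cons, encL_cons, List.length_append, ih, length_delim, List.length_cons]
        simp only [List.length_cons, List.length_nil]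
        ring
    rw [h3]
    omega
  · refine (F3.arg2.cons false).congr (fun i => ?_)
    rw [List.replicate_succ]

theorem Poly.replicateEval (P : Polynomial ℕ) :
    Poly (fun a : α => List.replicate (P.eval (size a)) ()) := by
  induction P using Polynomial.induction_on' with
  | add P Q hP hQ =>
    refine (hP.append hQ).congr (fun a => ?_)
    rw [Polynomial.eval_add, List.replicate_append_replicate]
  | monomial n c =>
    have hpow : Poly (fun a : α => List.replicate (size a ^ n) ()) := by
      induction n with
      | zero => exact Poly.const _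
      | succ n ih =>
        refine (Poly.flatMap (g := fun a _ => List.replicate (size a) ()) ih
          (Poly.replicateSize.comp Poly.fst')).congr (fun a => ?_)
        rw [List.flatMap_replicate, pow_succ]
        rw [List.flatten_replicate_replicate]
    refine (Poly.flatMap (g := fun _ _ => List.replicate c ()) hpow (Poly.const _)).congr
      (fun a => ?_)
    rw [List.flatMap_replicate, List.flatten_replicate_replicate, Polynomial.eval_monomial,
      mul_comm]

/-- The list `[0, ..., n - 1]`, for a polynomially bounded number `n`. -/
theorem Poly.range {f : α → ℕ} (hf : Poly f) (hb : PolyBdd f) :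
    Poly (fun a => List.range (f a)) := by
  obtain ⟨P, hP⟩ := hb
  -- all numbers below `P.eval (size a)`
  have h1 : Poly (fun a : α => List.range (P.eval (size a))) := by
    have h2 : Poly (fun a : α => (List.replicate (P.eval (size a)) ()).foldl
        (fun (s : ℕ × List ℕ) _ => (s.1 + 1, s.1 :: s.2)) (0, [])) := by
      refine Poly.foldl (h := fun _ (s : ℕ × List ℕ) _ => (s.1 + 1, s.1 :: s.2))
        (g := fun _ => (0, [])) (Poly.replicateEval P) (by fun_prop) (by fun_prop)
        (2 * P + 1 + P * (2 * P + 1)) ?_
      intro a k hk
      rw [foldl_const (fun s : ℕ × List ℕ => (s.1 + 1, s.1 :: s.2)), List.length_take,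
        List.length_replicate]
      rw [List.length_replicate] at hk
      rw [min_eq_left hk]
      have h3 : ∀ k, (fun s : ℕ × List ℕ => (s.1 + 1, s.1 :: s.2))^[k] (0, []) =
          (k, (List.range k).reverse) := by
        intro k
        induction k with
        | zero => rfl
        | succ k ih =>
          rw [iterate_succ_apply', ih]
          simp only [List.range_succ, List.reverse_append, List.reverse_cons, List.reverse_nil,
            List.nil_append, List.cons_append]
      rw [h3, size_pair, size_reverse]
      have h4 : ∀ k, size (List.range k) ≤ k * (2 * k + 1) := by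
        intro k
        induction k with
        | zero => simp [size_nil]
        | succ k ih =>
          rw [List.range_succ, size_append, size_cons, size_nil]
          have := size_nat_le k
          nlinarith
      have h5 := size_nat_le k
      have h6 := h4 k
      have h7 : k * (2 * k + 1) ≤ P.eval (size a) * (2 * P.eval (size a) + 1) :=
        Nat.mul_le_mul hk (by omega)
      simp only [Polynomial.eval_add, Polynomial.eval_mul, Polynomial.eval_ofNat,
        Polynomial.eval_one]
      omega
    refine h2.snd.listReverse.congr (fun a => ?_)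
    rw [foldl_const (fun s : ℕ × List ℕ => (s.1 + 1, s.1 :: s.2)), List.length_replicate]
    generalize P.eval (size a) = k
    have h3 : ∀ k, (fun s : ℕ × List ℕ => (s.1 + 1, s.1 :: s.2))^[k] (0, []) =
        (k, (List.range k).reverse) := by
      intro k
      induction k with
      | zero => rfl
      | succ k ih =>
        rw [iterate_succ_apply', ih]
        simp only [List.range_succ, List.reverse_append, List.reverse_cons, List.reverse_nil,
          List.nil_append, List.cons_append]
    rw [h3]; simp
  refine (Poly.filter (g := fun a k => decide (k < f a)) h1 ?_).congr (fun a => ?_)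
  · have := hf.comp (f := fun p : α × ℕ => p.1) (by fun_prop)
    fun_prop
  · have h2 : ∀ m n : ℕ, m ≤ n → (List.range n).filter (fun k => decide (k < m)) = List.range m := by
      intro m n h
      obtain ⟨d, rfl⟩ := Nat.exists_eq_add_of_le h
      induction d with
      | zero =>
        rw [Nat.add_zero, List.filter_eq_self]
        intro k hk
        simpa using hk
      | succ d ih =>
        rw [← Nat.add_assoc, List.range_succ, List.filter_append, ih (Nat.le_add_right _ _)]
        simp
    exact h2 _ _ (hP a)

theorem Poly.replicate {f : α → ℕ} {g : α → β} (hf : Poly f) (hb : PolyBdd f) (hg : Poly g) :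
    Poly (fun a => List.replicate (f a) (g a)) :=
  (Poly.map (g := fun a _ => g a) (hf.range hb) (hg.comp Poly.fst')).congr (fun a => by
    rw [List.map_const', List.length_range])

/-- Bounded iteration. -/
theorem Poly.iterate {f : α → ℕ} {g : α → σ} {h : α → σ → σ} (hf : Poly f) (hb : PolyBdd f)
    (hg : Poly g) (hh : Poly (fun p : α × σ => h p.1 p.2)) (B : Polynomial ℕ)
    (hB : ∀ a, ∀ k ≤ f a, size ((h a)^[k] (g a)) ≤ B.eval (size a)) :
    Poly (fun a => (h a)^[f a] (g a)) := by
  refine (Poly.foldl (h := fun a s _ => h a s) (hf.range hb) hg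
    (hh.comp (f := fun p : α × σ × ℕ => (p.1, p.2.1)) (by fun_prop)) B ?_).congr (fun a => ?_)
  · intro a k hk
    rw [foldl_const (h a), List.length_take]
    rw [List.length_range] at hk ⊢
    exact hB a _ (by omega)
  · rw [foldl_const (h a), List.length_range]

/-- Bounded primitive recursion. -/
theorem Poly.natRec {f : α → ℕ} {g : α → σ} {h : α → ℕ → σ → σ} (hf : Poly f) (hb : PolyBdd f)
    (hg : Poly g) (hh : Poly (fun p : α × ℕ × σ => h p.1 p.2.1 p.2.2)) (B : Polynomial ℕ)
    (hB : ∀ a, ∀ k ≤ f a, size (Nat.rec (motive := fun _ => σ) (g a) (h a) k) ≤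
      B.eval (size a)) :
    Poly (fun a => Nat.rec (motive := fun _ => σ) (g a) (h a) (f a)) := by
  have key : ∀ a k, (List.range k).foldl (fun s n => h a n s) (g a) =
      Nat.rec (motive := fun _ => σ) (g a) (h a) k := by
    intro a k
    induction k with
    | zero => rfl
    | succ k ih => rw [List.range_succ, List.foldl_append, ih]; rfl
  refine (Poly.foldl (h := fun a s n => h a n s) (hf.range hb) hg
    (hh.comp (f := fun p : α × σ × ℕ => (p.1, p.2.2, p.2.1)) (by fun_prop)) B ?_).congr
    (fun a => key a (f a))
  intro a k hk
  rw [List.length_range] at hk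
  rw [List.take_range, min_eq_left hk, key]
  exact hB a k hk

/-! ### Indexing -/

@[fun_prop]
theorem Poly.zipIdx {f : α → List β} (hf : Poly f) : Poly (fun a => (f a).zipIdx) := by
  obtain ⟨F, hF⟩ := hf.size_le
  have key : ∀ (l : List β) (n : ℕ) (acc : List (β × ℕ)),
      l.foldl (fun (s : ℕ × List (β × ℕ)) b => (s.1 + 1, (b, s.1) :: s.2)) (n, acc) =
      (n + l.length, (l.zipIdx n).reverse ++ acc) := by
    intro l
    induction l with
    | nil => intro n acc; simp
    | cons b l ih =>
      intro n acc
      rw [List.foldl_cons, ih]
      simp [List.zipIdx_cons]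
      ring
  have hsz : ∀ (l : List β) (n : ℕ), size (l.zipIdx n) ≤ 2 * size l + l.length *
      (2 * (n + l.length) + 3) := by
    intro l
    induction l with
    | nil => intro n; simp [size_nil]
    | cons b l ih =>
      intro n
      rw [List.zipIdx_cons, size_cons, size_cons, size_pair, List.length_cons]
      have h1 := ih (n + 1)
      have h2 := size_nat_le n
      nlinarith
  have h1 : Poly (fun a => (f a).foldl (fun (s : ℕ × List (β × ℕ)) b =>
      (s.1 + 1, (b, s.1) :: s.2)) (0, [])) := by
    refine Poly.foldl (h := fun _ (s : ℕ × List (β × ℕ)) b => (s.1 + 1, (b, s.1) :: s.2))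
      (g := fun _ => (0, [])) hf (by fun_prop) (by fun_prop)
      (2 * F + 1 + (2 * F + F * (2 * F + 3))) ?_
    intro a k hk
    rw [key, size_pair, List.append_nil, size_reverse, Nat.zero_add]
    have h2 := hsz ((f a).take k) 0
    have h3 := size_take_le (f a) k
    have h4 := hF a
    have h5 : ((f a).take k).length ≤ F.eval (size a) := by
      rw [List.length_take]
      exact (min_le_right _ _).trans ((length_le_size _).trans h4)
    have h6 := size_nat_le ((f a).take k).length
    have h7 : ((f a).take k).length * (2 * (0 + ((f a).take k).length) + 3) ≤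
      F.eval (size a) * (2 * F.eval (size a) + 3) := Nat.mul_le_mul h5 (by omega)
    simp only [Polynomial.eval_add, Polynomial.eval_mul, Polynomial.eval_ofNat,
      Polynomial.eval_one]
    omega
  exact h1.snd.listReverse.congr (fun a => by rw [key]; simp)

@[fun_prop]
theorem Poly.getElem? {f : α → List β} {g : α → ℕ} (hf : Poly f) (hg : Poly g) :
    Poly (fun a => (f a)[g a]?) := by
  have h1 : Poly (fun a => ((f a).zipIdx.filter (fun p => decide (p.2 = g a))).head?) := by
    refine Poly.head? (Poly.filter (g := fun a (p : β × ℕ) => decide (p.2 = g a))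
      (by fun_prop) ?_)
    have := hg.comp (f := fun p : α × β × ℕ => p.1) (by fun_prop)
    fun_prop
  refine (Poly.optionMap (g := fun _ p => p.1) h1 (by fun_prop)).congr (fun a => ?_)
  generalize f a = l
  generalize g a = n
  have key : ∀ (l : List β) (m : ℕ), (((l.zipIdx m).filter
      (fun p => decide (p.2 = m + n))).head?).map (fun p => p.1) = l[n]? := by
    induction n with
    | zero =>
      intro l m
      cases l with
      | nil => rfl
      | cons b l => simp [List.zipIdx_cons]
    | succ n ih =>
      intro l m
      cases l with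
      | nil => rfl
      | cons b l =>
        have := ih l (m + 1)
        rw [List.zipIdx_cons, List.filter_cons]
        simp only [show ¬ (m = m + (n + 1)) by omega, decide_false]
        rw [List.getElem?_cons_succ, ← this]
        simp only [Bool.false_eq_true, if_false]
        have e : (fun p : β × ℕ => decide (p.2 = m + (n + 1))) =
          (fun p => decide (p.2 = m + 1 + n)) := by funext p; congr 2; ring
        rw [e]
  have := key l 0
  simpa using this

@[fun_prop]
theorem Poly.getD {f : α → List β} {g : α → ℕ} {h : α → β} (hf : Poly f) (hg : Poly g)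
    (hh : Poly h) : Poly (fun a => (f a).getD (g a) (h a)) := by
  simp only [List.getD_eq_getElem?_getD]
  fun_prop

@[fun_prop]
theorem Poly.take {f : α → ℕ} {g : α → List β} (hf : Poly f) (hg : Poly g) :
    Poly (fun a => (g a).take (f a)) := by
  have h1 : Poly (fun a => ((g a).zipIdx.filter (fun p => decide (p.2 < f a)))) := by
    refine (Poly.filter (g := fun a (p : β × ℕ) => decide (p.2 < f a)) (by fun_prop) ?_)
    have := hf.comp (f := fun p : α × β × ℕ => p.1) (by fun_prop)
    fun_prop
  refine (Poly.map (g := fun _ p => p.1) h1 (by fun_prop)).congr (fun a => ?_)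
  generalize g a = l
  generalize f a = n
  have key : ∀ (l : List β) (m n : ℕ), ((l.zipIdx m).filter
      (fun p => decide (p.2 < m + n))).map (fun p => p.1) = l.take n := by
    intro l
    induction l with
    | nil => intro m n; simp
    | cons b l ih =>
      intro m n
      cases n with
      | zero =>
        rw [List.take_zero, List.map_eq_nil_iff, List.filter_eq_nil_iff]
        rintro ⟨x, k⟩ hx
        have := List.le_snd_of_mem_zipIdx hx
        simp only at this
        simp only [decide_eq_true_eq]
        omega
      | succ n =>
        rw [List.zipIdx_cons, List.filter_cons]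
        simp only [show m < m + (n + 1) by omega, decide_true, if_true, List.map_cons,
          List.take_succ_cons]
        rw [← ih (m + 1) n]
        congr 4
        funext p
        congr 2
        ring
  have := key l 0 n
  simpa using this

@[fun_prop]
theorem Poly.drop {f : α → ℕ} {g : α → List β} (hf : Poly f) (hg : Poly g) :
    Poly (fun a => (g a).drop (f a)) := by
  refine (Poly.listReverse (Poly.take (f := fun a => (g a).length - f a)
    (g := fun a => (g a).reverse) (by fun_prop) (by fun_prop))).congr (fun a => ?_)
  rw [List.take_reverse, List.reverse_reverse]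
  by_cases h : f a ≤ (g a).length
  · congr 1; omega
  · rw [List.drop_eq_nil_of_le (by omega), List.drop_eq_nil_of_le (by omega)]

theorem Poly.zipWith {f : α → List β} {g : α → List γ} {h : α → β → γ → δ} (hf : Poly f)
    (hg : Poly g) (hh : Poly (fun p : α × β × γ => h p.1 p.2.1 p.2.2)) :
    Poly (fun a => List.zipWith (h a) (f a) (g a)) := by
  have h1 : Poly (fun p : α × β × ℕ => ((g p.1)[p.2.2]?).map (fun c => h p.1 p.2.1 c)) := by
    refine Poly.optionMap (g := fun (p : α × β × ℕ) (c : γ) => h p.1 p.2.1 c) ?_ ?_
    · have := hg.comp (f := fun p : α × β × ℕ => p.1) (by fun_prop)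
      fun_prop
    · exact hh.comp (f := fun p : (α × β × ℕ) × γ => (p.1.1, p.1.2.1, p.2)) (by fun_prop)
  refine (Poly.filterMap (f := fun a => (f a).zipIdx)
    (g := fun a (p : β × ℕ) => ((g a)[p.2]?).map (fun c => h a p.1 c)) (by fun_prop) h1).congr
    (fun a => ?_)
  generalize f a = l
  generalize g a = m
  have key : ∀ (l : List β) (m : List γ) (n : ℕ), (l.zipIdx n).filterMap
      (fun p => (m[p.2]?).map (fun c => h a p.1 c)) = List.zipWith (h a) l (m.drop n) := by
    intro l m
    induction l with
    | nil => intro n; simp
    | cons b l ih =>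
      intro n
      rw [List.zipIdx_cons, List.filterMap_cons, ih (n + 1)]
      by_cases hn : n < m.length
      · rw [List.drop_eq_getElem_cons hn]
        simp only [List.getElem?_eq_getElem hn, Option.map_some, List.zipWith_cons_cons]
      · rw [List.drop_eq_nil_of_le (by omega), List.drop_eq_nil_of_le (by omega)]
        simp only [List.getElem?_eq_none (by omega : m.length ≤ n), Option.map_none,
          List.zipWith_nil_right]
  have := key l m 0
  simpa using this

theorem Poly.zip {f : α → List β} {g : α → List γ} (hf : Poly f) (hg : Poly g) :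
    Poly (fun a => List.zip (f a) (g a)) :=
  Poly.zipWith (h := fun _ b c => (b, c)) hf hg (by fun_prop)

/-! ### Sums -/

theorem size_sum_le (l : List ℕ) : size l.sum ≤ size l := by
  induction l with
  | nil => simp [size_nat, size_nil]
  | cons n l ih =>
    rw [List.sum_cons, size_cons]
    have := size_add_le n l.sum
    omega

@[fun_prop]
theorem Poly.sum {f : α → List ℕ} (hf : Poly f) : Poly (fun a => (f a).sum) := by
  obtain ⟨F, hF⟩ := hf.size_le
  refine (Poly.foldr_add (h := fun _ b s => b + s) hf (Poly.const 0) (by fun_prop) (F + 1) ?_).congr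
    (fun a => ?_)
  · intro a s b hb
    have := size_add_le b s
    have := size_le_of_mem hb
    have := hF a
    rw [Polynomial.eval_add, Polynomial.eval_one]
    omega
  · rw [List.sum_eq_foldr]

theorem Poly.countP {f : α → List β} {g : α → β → Bool} (hf : Poly f)
    (hg : Poly (fun p : α × β => g p.1 p.2)) : Poly (fun a => (f a).countP (g a)) :=
  (Poly.length (Poly.filter hf hg)).congr (fun a => by rw [List.countP_eq_length_filter])

/-- `2 ^ n` for a polynomially bounded `n`. -/
theorem Poly.twoPow {f : α → ℕ} (hf : Poly f) (hb : PolyBdd f) : Poly (fun a => 2 ^ f a) := by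
  refine (Poly.natOfBits (Poly.append (Poly.replicate hf hb (Poly.const false))
    (Poly.const [true]))).congr (fun a => ?_)
  rw [ofBits_append, List.length_replicate]
  have : ∀ n, ofBits (List.replicate n false) = 0 := by
    intro n
    induction n with
    | zero => rfl
    | succ n ih => rw [List.replicate_succ, ofBits_cons, ih]; rfl
  rw [this]
  simp

/-- Powers with a polynomially bounded exponent. -/
theorem Poly.pow {f g : α → ℕ} (hf : Poly f) (hg : Poly g) (hb : PolyBdd g) :
    Poly (fun a => f a ^ g a) := by
  obtain ⟨F, hF⟩ := hf.size_le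
  obtain ⟨G, hG⟩ := hb
  have h1 : ∀ x k : ℕ, (fun s => s * x)^[k] 1 = x ^ k := by
    intro x k
    induction k with
    | zero => rfl
    | succ k ih => rw [iterate_succ_apply', ih, pow_succ]
  refine (Poly.iterate (h := fun a s => s * f a) (g := fun _ => 1) hg ⟨G, hG⟩ (Poly.const 1) ?_
    (F * G + 1) ?_).congr (fun a => h1 _ _)
  · have := hf.comp (f := fun p : α × ℕ => p.1) (by fun_prop)
    fun_prop
  · intro a k hk
    rw [h1, size_nat, Nat.size_le]
    have h2 : f a < 2 ^ F.eval (size a) := by
      have := hF a
      rw [size_nat, Nat.size_le] at this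
      exact this
    rw [Polynomial.eval_add, Polynomial.eval_mul, Polynomial.eval_one, pow_succ]
    have h3 : f a ^ k ≤ (2 ^ F.eval (size a)) ^ k := Nat.pow_le_pow_left h2.le k
    have h4 : (2 ^ F.eval (size a)) ^ k ≤ 2 ^ (F.eval (size a) * G.eval (size a)) := by
      rw [← pow_mul]
      exact Nat.pow_le_pow_right (by norm_num) (Nat.mul_le_mul_left _ (hk.trans (hG a)))
    have h5 : 0 < 2 ^ (F.eval (size a) * G.eval (size a)) := by positivity
    omega

end

end FP
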