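import Pool.Agent.PolyTime.Closure

/-!
# Basic polynomial-time string functions
-/

namespace FP

open NPC Function

/-- Case distinction on the first letter. -/
def br (t a b c : Str) : Str :=
  match t with
  | [] => a
  | false :: _ => b
  | true :: _ => c

@[simp] theorem br_nil (a b c : Str) : br [] a b c = a := rfl
@[simp] theorem br_false (t a b c : Str) : br (false :: t) a b c = b := rfl
@[simp] theorem br_true (t a b c : Str) : br (true :: t) a b c = c := rfl

section
variable {ι : Type*} {u v w : ι → Str}

theorem F3.const (s : Str) : F3 u v w (fun _ => s) := by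
  induction s with
  | nil => exact F3.nil
  | cons b s ih => exact ih.cons b

theorem F3.br {t f0 f1 f2 : ι → Str} (h : F3 u v w t) (h0 : F3 u v w f0) (h1 : F3 u v w f1)
    (h2 : F3 u v w f2) : F3 u v w (fun i => br (t i) (f0 i) (f1 i) (f2 i)) := by
  refine F3.cond h ((h0.reindex Subtype.val).congr ?_) ((h1.reindex Subtype.val).congr ?_)
    ((h2.reindex Subtype.val).congr ?_)
  · rintro ⟨i, hi⟩
    simp [hi]
  · rintro ⟨i, hi⟩
    rcases ht : t i with _ | ⟨b, t'⟩
    · rw [ht] at hi; simp at hi
    · rw [ht] at hi
      simp only [List.head?_cons, Option.some.injEq] at hi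
      subst hi
      simp [ht]
  · rintro ⟨i, hi⟩
    rcases ht : t i with _ | ⟨b, t'⟩
    · rw [ht] at hi; simp at hi
    · rw [ht] at hi
      simp only [List.head?_cons, Option.some.injEq] at hi
      subst hi
      simp [ht]

/-- substitution of all three arguments -/
theorem F3.subst {a b c g : ι → Str} (h1 : F3 u v w a) (h2 : F3 u v w b) (h3 : F3 u v w c)
    (h : F3 a b c g) : F3 u v w g := h1.comp h2 h3 h

end

/-- A total string function of three arguments is polynomial-time. -/
def U3 (g : Str → Str → Str → Str) : Prop :=
  F3 (fun i : Str × Str × Str => i.1) (fun i => i.2.1) (fun i => i.2.2)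
    (fun i => g i.1 i.2.1 i.2.2)

theorem U3.rel {g : Str → Str → Str → Str} (h : U3 g) {ι : Type*} (u v w : ι → Str) :
    F3 u v w (fun i => g (u i) (v i) (w i)) :=
  F3.reindex h (fun i => (u i, v i, w i))

theorem U3.app {g : Str → Str → Str → Str} (h : U3 g) {ι : Type*} {u v w a b c : ι → Str}
    (h1 : F3 u v w a) (h2 : F3 u v w b) (h3 : F3 u v w c) :
    F3 u v w (fun i => g (a i) (b i) (c i)) := h1.comp h2 h3 (h.rel a b c)

theorem foldl_length_le (step : Str → Bool → Str) (c : ℕ)
    (h : ∀ s b, (step s b).length ≤ s.length + c) :
    ∀ (l : Str) (s : Str), (l.foldl step s).length ≤ s.length + c * l.length := by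
  intro l
  induction l with
  | nil => intro s; simp
  | cons b l ih =>
    intro s
    rw [List.foldl_cons, List.length_cons]
    have := ih (step s b)
    have := h s b
    have e : c * (l.length + 1) = c * l.length + c := by ring
    omega

/-- Bit loops with a total step function whose output is at most `c` longer than the state. -/
theorem F3.foldlBits {ι : Type*} {u v w f0 : ι → Str} (step : Str → Bool → Str) (c : ℕ)
    (hlen : ∀ s b, (step s b).length ≤ s.length + c)
    (hstep : F3 (fun i : Str × Bool => []) (fun i => i.1) (fun i => [i.2])
      (fun i => step i.1 i.2))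
    (h0 : F3 u v w f0) : F3 u v w (fun i => (w i).foldl step (f0 i)) := by
  have hz : F3 u v w (fun _ => []) := F3.nil
  obtain ⟨P, hP⟩ := h0.length_le
  -- first make the parameter empty
  have key : F3 (fun _ : ι => []) f0 w (fun i => (w i).foldl step (f0 i)) := by
    have := F3.foldBits (u := fun _ : ι => []) (v := f0) (w := w)
      (fun i k => ((w i).take k).foldl step (f0 i))
      (by simpa using F3.arg2) (Polynomial.X + Polynomial.C c * Polynomial.X) ?_ ?_
    · simpa using this
    · intro i k hk
      refine (foldl_length_le step c hlen _ _).trans ?_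
      simp only [List.length_take, Polynomial.eval_add, Polynomial.eval_mul, Polynomial.eval_C,
        Polynomial.eval_X]
      have h1 : c * min k (w i).length ≤ c * (0 + (f0 i).length + (w i).length) :=
        Nat.mul_le_mul_left _ (by omega)
      simp only [List.length_nil, Nat.zero_add] at h1 ⊢
      omega
    · refine (hstep.reindex (fun i : Σ i, Fin (w i).length =>
        (((w i.1).take i.2).foldl step (f0 i.1), (w i.1)[i.2]))).congr ?_
      intro i
      simp only
      rw [List.take_succ_eq_append_getElem i.2.2, List.foldl_append]
      rfl
  exact F3.comp hz h0 F3.arg3 key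

section
variable {ι : Type*} {u v w : ι → Str}

theorem F3.revApp {a b : ι → Str} (ha : F3 u v w a) (hb : F3 u v w b) :
    F3 u v w (fun i => (a i).reverse ++ b i) := by
  have h1 : F3 (fun _ : ι => []) b a (fun i => (a i).foldl (fun s c => c :: s) (b i)) := by
    refine F3.foldlBits (fun s c => c :: s) 1 (by simp) ?_ F3.arg2
    refine (F3.br F3.arg3 F3.nil (F3.arg2.cons false) (F3.arg2.cons true)).congr ?_
    rintro ⟨s, _ | _⟩ <;> rfl
  refine (F3.comp F3.nil hb ha h1).congr ?_
  intro i
  generalize b i = y
  generalize a i = x
  induction x generalizing y with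
  | nil => rfl
  | cons c x ih => simp [ih]

theorem F3.reverse {a : ι → Str} (ha : F3 u v w a) : F3 u v w (fun i => (a i).reverse) :=
  (F3.revApp ha F3.nil).congr (fun i => by simp)

theorem F3.append {a b : ι → Str} (ha : F3 u v w a) (hb : F3 u v w b) :
    F3 u v w (fun i => a i ++ b i) :=
  (F3.revApp ha.reverse hb).congr (fun i => by simp)

/-- Coded pair of strings. -/
def prS (a b : Str) : Str := delim a ++ b

theorem length_prS (a b : Str) : (prS a b).length = 2 * a.length + 1 + b.length := by
  rw [prS, List.length_append, length_delim]

theorem F3.pr {a b : ι → Str} (ha : F3 u v w a) (hb : F3 u v w b) :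
    F3 u v w (fun i => prS (a i) (b i)) := by
  have h1 : F3 (fun _ : ι => []) (fun i => false :: b i) (fun i => (a i).reverse)
      (fun i => (a i).reverse.foldl (fun s c => true :: c :: s) (false :: b i)) := by
    refine F3.foldlBits (fun s c => true :: c :: s) 2 (by simp) ?_ F3.arg2
    refine (F3.br F3.arg3 F3.nil ((F3.arg2.cons false).cons true)
      ((F3.arg2.cons true).cons true)).congr ?_
    rintro ⟨s, _ | _⟩ <;> rfl
  refine (F3.comp F3.nil (hb.cons false) ha.reverse h1).congr ?_
  intro i
  generalize b i = y
  generalize a i = x
  rw [prS]
  induction x with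
  | nil => rfl
  | cons c x ih => rw [List.reverse_cons, List.foldl_append, ih, delim_cons]; rfl

/-- step of the decoding of the first component -/
def stepF (s : Str) (b : Bool) : Str :=
  br s [] (br [b] [] (true :: true :: s.tail) (true :: false :: s.tail))
    (br s.tail [] (false :: (br [b] [] (false :: s.tail.tail) (true :: s.tail.tail))) s)

/-- step of the decoding of the second component -/
def stepG (s : Str) (b : Bool) : Str :=
  br s [] (br [b] [] (true :: true :: s.tail) (true :: false :: s.tail))
    (br s.tail [] (false :: s.tail.tail)
      (true :: true :: (br [b] [] (false :: s.tail.tail) (true :: s.tail.tail))))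

theorem foldl_stepF_delim (x : Str) : ∀ out : Str,
    (delim x).foldl stepF (false :: out) = true :: true :: (x.reverse ++ out) := by
  induction x with
  | nil => intro out; rfl
  | cons c x ih =>
    intro out
    rw [delim_cons, List.foldl_cons, List.foldl_cons]
    have : stepF (stepF (false :: out) true) c = false :: c :: out := by cases c <;> rfl
    rw [this, ih]
    simp

theorem foldl_stepG_delim (x : Str) : ∀ out : Str,
    (delim x).foldl stepG (false :: out) = true :: true :: out := by
  induction x with
  | nil => intro out; rfl
  | cons c x ih =>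
    intro out
    rw [delim_cons, List.foldl_cons, List.foldl_cons]
    have : stepG (stepG (false :: out) true) c = false :: out := by cases c <;> rfl
    rw [this, ih]

theorem foldl_stepF_rest (x : Str) : ∀ out : Str,
    x.foldl stepF (true :: true :: out) = true :: true :: out := by
  induction x with
  | nil => intro out; rfl
  | cons c x ih =>
    intro out
    rw [List.foldl_cons]
    have : stepF (true :: true :: out) c = true :: true :: out := by cases c <;> rfl
    rw [this, ih]

theorem foldl_stepG_rest (x : Str) : ∀ out : Str,
    x.foldl stepG (true :: true :: out) = true :: true :: (x.reverse ++ out) := by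
  induction x with
  | nil => intro out; rfl
  | cons c x ih =>
    intro out
    rw [List.foldl_cons]
    have : stepG (true :: true :: out) c = true :: true :: c :: out := by cases c <;> rfl
    rw [this, ih]
    simp

/-- total decoding of the first component -/
def fstS (x : Str) : Str := (x.foldl stepF [false]).tail.tail.reverse

/-- total decoding of the second component -/
def sndS (x : Str) : Str := (x.foldl stepG [false]).tail.tail.reverse

@[simp] theorem fstS_prS (a b : Str) : fstS (prS a b) = a := by
  rw [fstS, prS, List.foldl_append, foldl_stepF_delim, foldl_stepF_rest]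
  simp

@[simp] theorem sndS_prS (a b : Str) : sndS (prS a b) = b := by
  rw [sndS, prS, List.foldl_append, foldl_stepG_delim, foldl_stepG_rest]
  simp

theorem length_stepF (s : Str) (b : Bool) : (stepF s b).length ≤ s.length + 1 := by
  unfold stepF
  rcases s with _ | ⟨_ | _, s⟩
  · simp
  · cases b <;> simp
  · rcases s with _ | ⟨_ | _, s⟩
    · simp
    · cases b <;> simp
    · simp

theorem length_stepG (s : Str) (b : Bool) : (stepG s b).length ≤ s.length + 1 := by
  unfold stepG
  rcases s with _ | ⟨_ | _, s⟩
  · simp
  · cases b <;> simp
  · rcases s with _ | ⟨_ | _, s⟩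
    · simp
    · cases b <;> simp
    · cases b <;> simp

theorem F3.fstS {a : ι → Str} (ha : F3 u v w a) : F3 u v w (fun i => fstS (a i)) := by
  have h1 : F3 (fun _ : ι => []) (fun _ => []) a (fun i => (a i).foldl stepF [false]) := by
    refine F3.foldlBits stepF 1 length_stepF ?_ (F3.const _)
    exact F3.br F3.arg2 F3.nil (F3.br F3.arg3 F3.nil ((F3.arg2.tail.cons true).cons true)
      ((F3.arg2.tail.cons false).cons true))
      (F3.br F3.arg2.tail F3.nil ((F3.br F3.arg3 F3.nil (F3.arg2.tail.tail.cons false)
        (F3.arg2.tail.tail.cons true)).cons false) F3.arg2)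
  exact (F3.comp F3.nil F3.nil ha h1).tail.tail.reverse

theorem F3.sndS {a : ι → Str} (ha : F3 u v w a) : F3 u v w (fun i => sndS (a i)) := by
  have h1 : F3 (fun _ : ι => []) (fun _ => []) a (fun i => (a i).foldl stepG [false]) := by
    refine F3.foldlBits stepG 1 length_stepG ?_ (F3.const _)
    exact F3.br F3.arg2 F3.nil (F3.br F3.arg3 F3.nil ((F3.arg2.tail.cons true).cons true)
      ((F3.arg2.tail.cons false).cons true))
      (F3.br F3.arg2.tail F3.nil (F3.arg2.tail.tail.cons false) (((F3.br F3.arg3 F3.nil
        (F3.arg2.tail.tail.cons false) (F3.arg2.tail.tail.cons true)).cons true).cons true))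
  exact (F3.comp F3.nil F3.nil ha h1).tail.tail.reverse

/-- step of the comparison of two strings -/
def stepE (s : Str) (b : Bool) : Str :=
  br s [false] [false] (br s.tail [false] (br [b] [] (true :: s.tail.tail) [false])
    (br [b] [] [false] (true :: s.tail.tail)))

theorem foldl_stepE_false (x : Str) : x.foldl stepE [false] = [false] := by
  induction x with
  | nil => rfl
  | cons c x ih => rw [List.foldl_cons]; exact ih

theorem foldl_stepE (x : Str) : ∀ y : Str,
    (br (x.foldl stepE (true :: y)) [false] [false]
      (br (x.foldl stepE (true :: y)).tail [true] [false] [false])) = [decide (x = y)] := by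
  induction x with
  | nil => intro y; rcases y with _ | ⟨_ | _, y⟩ <;> simp
  | cons c x ih =>
    intro y
    rw [List.foldl_cons]
    rcases y with _ | ⟨d, y⟩
    · have : stepE [true] c = [false] := rfl
      rw [this, foldl_stepE_false]
      simp
    · by_cases h : c = d
      · subst h
        have : stepE (true :: c :: y) c = true :: y := by cases c <;> rfl
        rw [this, ih]
        simp
      · have : stepE (true :: d :: y) c = [false] := by cases c <;> cases d <;> simp_all [stepE]
        rw [this, foldl_stepE_false]
        simp [h]

theorem length_stepE (s : Str) (b : Bool) : (stepE s b).length ≤ s.length + 1 := by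
  unfold stepE
  rcases s with _ | ⟨_ | _, s⟩
  · simp
  · cases b <;> simp
  · rcases s with _ | ⟨_ | _, s⟩
    · simp
    · cases b <;> simp
    · cases b <;> simp

theorem F3.eqS {a b : ι → Str} (ha : F3 u v w a) (hb : F3 u v w b) :
    F3 u v w (fun i => [decide (a i = b i)]) := by
  have h1 : F3 (fun _ : ι => []) b a (fun i => (a i).foldl stepE (true :: b i)) := by
    refine F3.foldlBits stepE 1 length_stepE ?_ (F3.arg2.cons true)
    exact F3.br F3.arg2 (F3.const _) (F3.const _) (F3.br F3.arg2.tail (F3.const _)
      (F3.br F3.arg3 F3.nil (F3.arg2.tail.tail.cons true) (F3.const _))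
      (F3.br F3.arg3 F3.nil (F3.const _) (F3.arg2.tail.tail.cons true)))
  have h2 := F3.comp F3.nil hb ha h1
  refine (F3.br h2 (F3.const [false]) (F3.const [false]) (F3.br h2.tail (F3.const [true])
    (F3.const [false]) (F3.const [false]))).congr ?_
  intro i
  exact foldl_stepE (a i) (b i)

end

end FP
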